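import Mathlib
import Pool.Agent.TH876.KR.Def
import Pool.Agent.TH876.NP.Def

set_option autoImplicit false

/-!
# Values of binary forms with a small radical (Thue-Mahler type), points of any height: definitions
and statements of the parts
-/

namespace Pool.Agent.TH876.TM

open NumberField IsDedekindDomain Finset Polynomial Pool.Agent.H691R3 Pool.Agent.TH876.Loc

/-- `f` has no multiple zeros, also at infinity, as a form of degree `q` -/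
def Form {K : Type} [Field K] (f : K[X]) (q : ℕ) : Prop :=
  Squarefree f ∧ f.natDegree ≤ q ∧ q ≤ f.natDegree + 1 ∧ 1 ≤ q

/-- the local contribution to the height of `x` -/
noncomputable def hl {K : Type} [Field K] [NumberField K] (v : Pl K) (x : K) : ℝ :=
  mt v * Real.log (max (av v x) 1)

/-- the local intersection number of `x` and the zeros of the form -/
noncomputable def lam {K : Type} [Field K] [NumberField K] (f : K[X]) (q : ℕ) (v : Pl K)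
    (x : K) : ℝ := q * hl v x - lg v (f.eval x)

/-- the local intersection number of two points -/
noncomputable def ds {K : Type} [Field K] [NumberField K] (v : Pl K) (x y : K) : ℝ :=
  hl v x + hl v y - lg v (x - y)

/-- the extension of the absolute value to a finite extension -/
def ExtS (K : Type) [Field K] [NumberField K] : Prop := ∀ (v : Pl K) (L : Type) [Field L]
  [Algebra K L], FiniteDimensional K L → ∃ a : AbsoluteValue L ℝ,
    (∀ z : K, a (algebraMap K L z) = av v z) ∧ ∀ z w : L, a (z + w) ≤ cv v * max (a z) (a w)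

/-- the local data: `typ v x` is the number of the zero (perhaps at infinity) nearest to `x` -/
structure Sys {K : Type} [Field K] [NumberField K] (f : K[X]) (q : ℕ) (S0 : Finset (Pr K)) (c : ℝ)
    (typ : Pl K → K → ℕ) : Prop where
  c0 : 0 ≤ c
  typ_lt : ∀ v x, typ v x < q
  low : ∀ v x, f.eval x ≠ 0 → -c ≤ lam f q v x
  nonneg : ∀ v : Pr K, v ∉ S0 → ∀ x, f.eval x ≠ 0 → 0 ≤ lam f q (Sum.inr v : Pl K) x
  gap : ∀ v x y, f.eval x ≠ 0 → f.eval y ≠ 0 → x ≠ y → typ v x = typ v y →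
    min (lam f q v x) (lam f q v y) ≤ ds v x y + c
  gap0 : ∀ v : Pr K, v ∉ S0 → ∀ x y, f.eval x ≠ 0 → f.eval y ≠ 0 → x ≠ y →
    typ (Sum.inr v : Pl K) x = typ (Sum.inr v : Pl K) y →
    min (lam f q (Sum.inr v : Pl K) x) (lam f q (Sum.inr v : Pl K) y) ≤ ds (Sum.inr v : Pl K) x y

/-- the local data exist -/
def LocalS (K : Type) [Field K] [NumberField K] : Prop := ∀ (f : K[X]) (q : ℕ), Form f q →
  ∃ (S0 : Finset (Pr K)) (c : ℝ) (typ : Pl K → K → ℕ), Sys f q S0 c typ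

/-- the sum over the primes of `T`, those of `S0` and the infinite places -/
noncomputable def tot {K : Type} [Field K] [NumberField K] (S0 T : Finset (Pr K))
    (g : Pl K → ℝ) : ℝ :=
  ∑ v ∈ T, g (Sum.inr v : Pl K) + (∑ v ∈ S0, g (Sum.inr v : Pl K) +
    ∑ w : InfinitePlace K, g (Sum.inl w : Pl K))

/-- the gap principle and the product formula -/
def GlobS (K : Type) [Field K] [NumberField K] : Prop := ∀ (f : K[X]) (q : ℕ)
  (S0 : Finset (Pr K)) (c : ℝ) (typ : Pl K → K → ℕ), Sys f q S0 c typ → ∃ c1 : ℝ, 0 ≤ c1 ∧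
  (∀ (x y : K) (T : Finset (Pr K)), f.eval x ≠ 0 → f.eval y ≠ 0 → x ≠ y → Disjoint T S0 →
    (∀ v : Pl K, v ∈ Spl T ∨ v ∈ Spl S0 → typ v x = typ v y) →
    tot S0 T (fun v => min (lam f q v x) (lam f q v y)) ≤
      Height.logHeight₁ x + Height.logHeight₁ y + c1) ∧
  (∀ (x : K) (T : Finset (Pr K)), f.eval x ≠ 0 → Disjoint T S0 →
    tot S0 T (fun v => lam f q v x) ≤ q * Height.logHeight₁ x) ∧
  ∀ x : K, f.eval x ≠ 0 → ∃ B : Finset (Pr K),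
    (∀ v, v ∈ B ↔ v ∉ S0 ∧ 0 < lam f q (Sum.inr v : Pl K) x) ∧
    tot S0 B (fun v => lam f q v x) = q * Height.logHeight₁ x

/-- the count at one scale with a given set of primes -/
def ScaleS (K : Type) [Field K] [NumberField K] : Prop := ∀ (f : K[X]) (q : ℕ)
  (S0 : Finset (Pr K)) (c : ℝ) (typ : Pl K → K → ℕ), Sys f q S0 c typ → ∀ k : ℕ, 1 ≤ k →
  ∃ (C : ℕ) (l0 : ℝ), 1 ≤ C ∧ 1 ≤ l0 ∧ ∀ (l : ℝ) (T : Finset (Pr K)) (F : Finset K), l0 ≤ l →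
  Disjoint T S0 → (∀ x ∈ F, f.eval x ≠ 0 ∧ l ≤ Height.logHeight₁ x ∧
    Height.logHeight₁ x ≤ (1 + 1 / (8 * (k : ℝ))) * l ∧
    (2 + 1 / (k : ℝ)) * Height.logHeight₁ x ≤ tot S0 T (fun v => lam f q v x)) →
  (F.card : ℝ) ≤ (C : ℝ) ^ (T.card + 1)

/-- the count -/
def CountS (K : Type) [Field K] [NumberField K] : Prop := ∀ (f : K[X]) (q : ℕ), Form f q →
  3 ≤ q → ∀ (S1 : Finset (Pr K)) (ε : ℝ), 0 < ε → ∃ C : ℝ, 0 < C ∧
  ∀ X y H : ℝ, 1 ≤ X → 1 ≤ y → 1 ≤ H → ∀ F : Finset K,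
  (∀ x ∈ F, f.eval x ≠ 0 ∧ Height.logHeight₁ x ≤ H ∧
    ∀ T : Finset (Pr K), (∀ v ∈ T, v ∉ S1 ∧ 0 < lam f q (Sum.inr v : Pl K) x) →
      nn T ≤ X ∧ ∀ v ∈ T, Nv v ≤ y) →
  (F.card : ℝ) ≤ C * y * X ^ (2 / (q : ℝ) + ε) * (1 + Real.log H)

/-- the finitely many classes of the elements whose orders outside `S` are divisible by `m` -/
def SelS (K : Type) [Field K] [NumberField K] : Prop := ∀ (S : Set (HeightOneSpectrum (𝓞 K))),
  S.Finite → ∀ m : ℕ, 1 ≤ m → ∃ (A : Finset K) (S1 : Finset (Pr K)), (∀ v ∈ S, v ∈ S1) ∧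
  (∀ a ∈ A, a ≠ 0 ∧ ∀ v : Pr K, v ∉ S1 → v.valuation K a = 1) ∧
  ∀ x : K, x ≠ 0 → (∀ v : HeightOneSpectrum (𝓞 K), v ∉ S →
    ∃ n : ℤ, v.valuation K x = WithZero.exp ((m : ℤ) * n)) → ∃ a ∈ A, ∃ r : K, r ≠ 0 ∧ x = a * r ^ m

/-- the integral points of the line with stacky points of order `m` at zero and infinity for which
the reduced counting function for the zeros of `g` is at most `log X` -/
def Pts {K : Type} [Field K] [NumberField K] (S : Set (HeightOneSpectrum (𝓞 K))) (m : ℕ)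
    (g : K[X]) (X y H : ℝ) : Set K :=
  {x | x ≠ 0 ∧ g.eval x ≠ 0 ∧
    (∀ v : HeightOneSpectrum (𝓞 K), v ∉ S →
      ∃ n : ℤ, v.valuation K x = WithZero.exp ((m : ℤ) * n)) ∧
    Real.exp (∑ᶠ v ∈ {v : HeightOneSpectrum (𝓞 K) | v ∉ S ∧
      v.valuation K (g.eval x) < max (v.valuation K x) 1 ^ g.natDegree},
      Real.log (Ideal.absNorm v.asIdeal : ℝ)) ≤ X ∧
    (∀ v : HeightOneSpectrum (𝓞 K), v ∉ S →
      v.valuation K (g.eval x) < max (v.valuation K x) 1 ^ g.natDegree →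
      (Ideal.absNorm v.asIdeal : ℝ) ≤ y) ∧
    Height.logHeight₁ x ≤ H}

/-- the count of these points -/
def MainS (K : Type) [Field K] [NumberField K] : Prop := ∀ (S : Set (HeightOneSpectrum (𝓞 K))),
  S.Finite → ∀ (m : ℕ) (g : K[X]), Squarefree g → g.eval 0 ≠ 0 → 3 ≤ m * g.natDegree →
  ∀ ε : ℝ, 0 < ε → ∃ C : ℝ, ∀ X y H : ℝ, 1 ≤ X → 1 ≤ y → 1 ≤ H → (Pts S m g X y H).Finite ∧
    ((Pts S m g X y H).ncard : ℝ) ≤
      C * y * X ^ (2 / ((m : ℝ) * g.natDegree) + ε) * (1 + Real.log H)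

/-- the pairs of coprime integers with a small radical of the value of a form, which is given by a
polynomial `g` of degree `q` (the form is `v ^ q g (u / v)`) -/
def Pairs (g : ℤ[X]) (X y H : ℝ) : Set (ℤ × ℤ) :=
  {p | IsCoprime p.1 p.2 ∧ 0 < p.2 ∧ ∃ w : ℤ, w ≠ 0 ∧
    w = ∑ i ∈ Finset.range (g.natDegree + 1), g.coeff i * p.1 ^ i * p.2 ^ (g.natDegree - i) ∧
    ((∏ r ∈ w.natAbs.primeFactors, r : ℕ) : ℝ) ≤ X ∧ (∀ r ∈ w.natAbs.primeFactors, (r : ℝ) ≤ y) ∧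
    Real.log (max |(p.1 : ℝ)| |(p.2 : ℝ)|) ≤ H}

/-- the count of these pairs -/
def PairsS : Prop := ∀ g : ℤ[X], Squarefree (g.map (Int.castRingHom ℚ)) → 3 ≤ g.natDegree →
  ∀ ε : ℝ, 0 < ε → ∃ C : ℝ, ∀ X y H : ℝ, 1 ≤ X → 1 ≤ y → 1 ≤ H → (Pairs g X y H).Finite ∧
    ((Pairs g X y H).ncard : ℝ) ≤ C * y * X ^ (2 / (g.natDegree : ℝ) + ε) * (1 + Real.log H)

/-- the radical is at most `X` and all prime factors are at most `y` -/
def Small (X y : ℝ) (w : ℕ) : Prop :=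
  ((∏ r ∈ w.primeFactors, r : ℕ) : ℝ) ≤ X ∧ ∀ r ∈ w.primeFactors, (r : ℝ) ≤ y

/-- the abc triples `(a, b, a + b)` two members of which are `m`-th powers and the third member of
which is small -/
def TwoPowers (m : ℕ) (X y H : ℝ) : Set (ℕ × ℕ) :=
  {p | 0 < p.1 ∧ 0 < p.2 ∧ Nat.Coprime p.1 p.2 ∧ Real.log ((p.1 + p.2 : ℕ) : ℝ) ≤ H ∧
    ∃ u v : ℕ, (p.1 = u ^ m ∧ p.2 = v ^ m ∧ Small X y (p.1 + p.2)) ∨
      (p.1 = u ^ m ∧ p.1 + p.2 = v ^ m ∧ Small X y p.2) ∨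
      (p.2 = u ^ m ∧ p.1 + p.2 = v ^ m ∧ Small X y p.1)}

/-- the count of these triples -/
def TwoPowersS : Prop := ∀ m : ℕ, 3 ≤ m → ∀ ε : ℝ, 0 < ε → ∃ C : ℝ, ∀ X y H : ℝ, 1 ≤ X → 1 ≤ y →
  1 ≤ H → (TwoPowers m X y H).Finite ∧
    ((TwoPowers m X y H).ncard : ℝ) ≤ C * y * X ^ (2 / (m : ℝ) + ε) * (1 + Real.log H)

/-- the counterexamples to the abc inequality with exponent 2 two members of which are `m`-th
powers, with small prime factors of the third member -/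
def Counter (m : ℕ) (y Y : ℝ) : Set (ℕ × ℕ) :=
  {p | 0 < p.1 ∧ 0 < p.2 ∧ Nat.Coprime p.1 p.2 ∧ ((p.1 + p.2 : ℕ) : ℝ) ≤ Y ∧
    (∏ r ∈ (p.1 * p.2 * (p.1 + p.2)).primeFactors, r) ^ 2 ≤ p.1 + p.2 ∧
    ∃ u v : ℕ, (p.1 = u ^ m ∧ p.2 = v ^ m ∧ ∀ r ∈ (p.1 + p.2).primeFactors, (r : ℝ) ≤ y) ∨
      (p.1 = u ^ m ∧ p.1 + p.2 = v ^ m ∧ ∀ r ∈ p.2.primeFactors, (r : ℝ) ≤ y) ∨
      (p.2 = u ^ m ∧ p.1 + p.2 = v ^ m ∧ ∀ r ∈ p.1.primeFactors, (r : ℝ) ≤ y)}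

/-- the count of these counterexamples -/
def CounterS : Prop := ∀ m : ℕ, 3 ≤ m → ∀ ε : ℝ, 0 < ε → ∃ C : ℝ, ∀ y Y : ℝ, 1 ≤ y → 1 ≤ Y →
  (Counter m y Y).Finite ∧ ((Counter m y Y).ncard : ℝ) ≤ C * y * Y ^ (1 / (m : ℝ) + ε)

end Pool.Agent.TH876.TM
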