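import Mathlib
import Pool.Agent.TH876.TM.Def
import Pool.Agent.TH876.KR.Sets

set_option autoImplicit false

/-!
# Values of binary forms with a small radical: the count (job TM of helper876, written by helper324)
-/

namespace Pool.Agent.TH876.TM

open NumberField IsDedekindDomain Finset Polynomial Pool.Agent.H691R3 Pool.Agent.TH876.Loc

private theorem choose_aux {ι : Type*} (v c : ι → ℝ) (L : ℝ) (S : Finset ι) (hL : 0 ≤ L) :
    (∀ p ∈ S, 0 ≤ v p ∧ 0 ≤ c p ∧ c p ≤ L) → ∀ θ : ℝ, 0 ≤ θ → θ ≤ 1 →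
      ∃ T ⊆ S, θ * ∑ p ∈ S, v p * c p ≤ ∑ p ∈ T, v p * c p ∧
        ∑ p ∈ T, c p ≤ θ * ∑ p ∈ S, c p + L := by
  classical
  refine Finset.induction_on_min_value v S ?_ ?_
  · intro _ θ h0 h1
    exact ⟨∅, subset_rfl, by simp, by simpa using hL⟩
  · intro a S haS hmin ih hS θ h0 h1
    have hS' : ∀ p ∈ S, 0 ≤ v p ∧ 0 ≤ c p ∧ c p ≤ L := fun p hp => hS p (mem_insert_of_mem hp)
    obtain ⟨hva, hca, hcL⟩ := hS a (mem_insert_self _ _)
    rw [sum_insert haS, sum_insert haS]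
    set A := ∑ p ∈ S, v p * c p with hA
    set C := ∑ p ∈ S, c p with hC
    have hC0 : 0 ≤ C := sum_nonneg fun p hp => (hS' p hp).2.1
    have hA0 : 0 ≤ A := sum_nonneg fun p hp => mul_nonneg (hS' p hp).1 (hS' p hp).2.1
    have hvC : v a * C ≤ A := by
      rw [hC, hA, mul_sum]
      exact sum_le_sum fun p hp => mul_le_mul_of_nonneg_right (hmin p hp) (hS' p hp).2.1
    by_cases hcase : θ * (v a * c a + A) ≤ A
    · rcases hA0.eq_or_lt with hA1 | hA1
      · refine ⟨∅, empty_subset _, ?_, ?_⟩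
        · rw [sum_empty]
          rw [← hA1] at hcase ⊢
          exact hcase
        · rw [sum_empty]
          exact add_nonneg (mul_nonneg h0 (add_nonneg hca hC0)) hL
      · have h2 : 0 ≤ θ * (v a * c a + A) / A :=
          div_nonneg (mul_nonneg h0 (add_nonneg (mul_nonneg hva hca) hA0)) hA0
        have h3 : θ * (v a * c a + A) / A ≤ 1 := (div_le_one hA1).2 hcase
        obtain ⟨T, hT, h4, h5⟩ := ih hS' _ h2 h3
        refine ⟨T, hT.trans (subset_insert _ _), ?_, h5.trans ?_⟩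
        · rwa [div_mul_cancel₀ _ hA1.ne'] at h4
        · have h6 : θ * (v a * c a + A) / A * C ≤ θ * (c a + C) := by
            rw [div_mul_eq_mul_div, div_le_iff₀ hA1]
            have h7 : c a * (v a * C) ≤ c a * A := mul_le_mul_of_nonneg_left hvC hca
            have h8 : θ * (c a * (v a * C)) ≤ θ * (c a * A) := mul_le_mul_of_nonneg_left h7 h0
            nlinarith [h8]
          linarith
    · push Not at hcase
      refine ⟨insert a S, subset_rfl, ?_, ?_⟩
      · rw [sum_insert haS]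
        exact mul_le_of_le_one_left (add_nonneg (mul_nonneg hva hca) hA0) h1
      · rw [sum_insert haS]
        have hv : 0 < v a := by
          rcases hva.eq_or_lt with h | h
          · exfalso
            rw [← h, zero_mul, zero_add] at hcase
            have := mul_le_of_le_one_left hA0 h1
            linarith
          · exact h
        have h2 : (1 - θ) * (v a * c a + A) < v a * c a := by nlinarith
        have h3 : v a * ((1 - θ) * (c a + C)) ≤ (1 - θ) * (v a * c a + A) := by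
          have h4 : (1 - θ) * (v a * C) ≤ (1 - θ) * A :=
            mul_le_mul_of_nonneg_left hvC (by linarith)
          nlinarith [h4]
        have h5 : (1 - θ) * (c a + C) < c a := by
          have h6 : v a * ((1 - θ) * (c a + C)) < v a * c a := lt_of_le_of_lt h3 h2
          exact lt_of_mul_lt_mul_left h6 hva
        nlinarith

section
variable {K : Type} [Field K] [NumberField K]

theorem Count_sys {f : K[X]} {q : ℕ} {S0 S : Finset (Pr K)} {c : ℝ} {typ : Pl K → K → ℕ}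
    (h : Sys f q S0 c typ) (hS : S0 ⊆ S) : Sys f q S c typ where
  c0 := h.c0
  typ_lt := h.typ_lt
  low := h.low
  nonneg v hv := h.nonneg v fun h' => hv (hS h')
  gap := h.gap
  gap0 v hv := h.gap0 v fun h' => hv (hS h')

/-- the part of `S` and the infinite places is bounded below -/
theorem Count_low {f : K[X]} {q : ℕ} {S : Finset (Pr K)} {c : ℝ} {typ : Pl K → K → ℕ}
    (h : Sys f q S c typ) (x : K) (hx : f.eval x ≠ 0) :
    -(c * ((S.card : ℝ) + Fintype.card (InfinitePlace K))) ≤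
      ∑ v ∈ S, lam f q (Sum.inr v : Pl K) x + ∑ w : InfinitePlace K, lam f q (Sum.inl w : Pl K) x := by
  have h1 : ∑ v ∈ S, (-c) ≤ ∑ v ∈ S, lam f q (Sum.inr v : Pl K) x :=
    sum_le_sum fun v _ => h.low _ x hx
  have h2 : ∑ w : InfinitePlace K, (-c) ≤ ∑ w : InfinitePlace K, lam f q (Sum.inl w : Pl K) x :=
    sum_le_sum fun w _ => h.low _ x hx
  rw [sum_const, nsmul_eq_mul] at h1 h2
  rw [card_univ] at h2
  linarith

/-- a set of primes with a small norm which has weight more than two -/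
theorem Count_choose {f : K[X]} {q : ℕ} {S : Finset (Pr K)} {c : ℝ} {typ : Pl K → K → ℕ}
    (hsys : Sys f q S c typ) {x : K} (hx : f.eval x ≠ 0) {B : Finset (Pr K)}
    (hB : ∀ v, v ∈ B ↔ v ∉ S ∧ 0 < lam f q (Sum.inr v : Pl K) x)
    (hB2 : tot S B (fun v => lam f q v x) = q * Height.logHeight₁ x)
    {X y : ℝ} (hX : 1 ≤ X) (hy : 1 ≤ y) (hBX : nn B ≤ X) (hBy : ∀ v ∈ B, Nv v ≤ y)
    {k : ℕ} (hk : 2 ≤ k) (hq : 3 ≤ q)
    (hh : k * (c * ((S.card : ℝ) + Fintype.card (InfinitePlace K))) ≤ Height.logHeight₁ x) :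
    ∃ T : Finset (Pr K), Disjoint T S ∧ nn T ≤ min y X * X ^ ((2 + 2 / (k : ℝ)) / q) ∧
      (2 + 1 / (k : ℝ)) * Height.logHeight₁ x ≤ tot S T (fun v => lam f q v x) := by
  have hk2 : (2 : ℝ) ≤ k := by exact_mod_cast hk
  have hk0 : (0 : ℝ) < k := by linarith
  have hq3 : (3 : ℝ) ≤ q := by exact_mod_cast hq
  have hq0 : (0 : ℝ) < q := by linarith
  have hX0 : 0 < X := by linarith
  have hmin : 1 ≤ min y X := le_min hy hX
  have hmin0 : 0 < min y X := by linarith
  obtain ⟨θ, hθ⟩ : ∃ θ : ℝ, θ = (2 + 2 / (k : ℝ)) / q := ⟨_, rfl⟩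
  have hθ0 : 0 ≤ θ := by rw [hθ]; positivity
  have hθ1 : θ ≤ 1 := by
    rw [hθ, div_le_one hq0]
    have : 2 / (k : ℝ) ≤ 1 := by rw [div_le_one hk0]; exact hk2
    linarith
  have hpos : ∀ v : Pr K, 0 < Real.log (Nv v) := KR.log_Nv_pos'
  obtain ⟨T, hT, h3, h4⟩ := choose_aux
    (fun v : Pr K => lam f q (Sum.inr v : Pl K) x / Real.log (Nv v))
    (fun v => Real.log (Nv v)) (Real.log (min y X)) B (Real.log_nonneg hmin) (fun v hv =>
      ⟨div_nonneg ((hB v).1 hv).2.le (hpos v).le, (hpos v).le,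
        Real.log_le_log (Nv_pos v) (le_min (hBy v hv) ((Nv_le_nn hv).trans hBX))⟩) θ hθ0 hθ1
  have h5 : ∀ v : Pr K, lam f q (Sum.inr v : Pl K) x / Real.log (Nv v) * Real.log (Nv v) =
      lam f q (Sum.inr v : Pl K) x := fun v => div_mul_cancel₀ _ (hpos v).ne'
  simp only [h5] at h3
  refine ⟨T, ?_, ?_, ?_⟩
  · rw [Finset.disjoint_left]
    exact fun v hv => ((hB v).1 (hT hv)).1
  · rw [← hθ, ← Real.log_le_log_iff (nn_pos T) (by positivity),
      Real.log_mul hmin0.ne' (by positivity), Real.log_rpow hX0, KR.log_nn]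
    rw [← KR.log_nn B] at h4
    have h6 : Real.log (nn B) ≤ Real.log X := Real.log_le_log (nn_pos B) hBX
    have h7 : θ * Real.log (nn B) ≤ θ * Real.log X := mul_le_mul_of_nonneg_left h6 hθ0
    linarith
  · have hlow := Count_low hsys x hx
    have hc0 : 0 ≤ c * ((S.card : ℝ) + Fintype.card (InfinitePlace K)) :=
      mul_nonneg hsys.c0 (by positivity)
    unfold tot at hB2 ⊢
    obtain ⟨l, hl⟩ : ∃ l : ℝ, l = ∑ v ∈ S, lam f q (Sum.inr v : Pl K) x +
      ∑ w : InfinitePlace K, lam f q (Sum.inl w : Pl K) x := ⟨_, rfl⟩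
    obtain ⟨c2, hc2⟩ : ∃ c2 : ℝ, c2 = c * ((S.card : ℝ) + Fintype.card (InfinitePlace K)) :=
      ⟨_, rfl⟩
    obtain ⟨WB, hWB⟩ : ∃ W : ℝ, W = ∑ v ∈ B, lam f q (Sum.inr v : Pl K) x := ⟨_, rfl⟩
    obtain ⟨WT, hWT⟩ : ∃ W : ℝ, W = ∑ v ∈ T, lam f q (Sum.inr v : Pl K) x := ⟨_, rfl⟩
    obtain ⟨h, hhd⟩ : ∃ h : ℝ, h = Height.logHeight₁ x := ⟨_, rfl⟩
    rw [← hWB, ← hl, ← hhd] at hB2
    rw [← hWB, ← hWT] at h3
    rw [← hWT, ← hl, ← hhd]
    rw [← hl, ← hc2] at hlow
    rw [← hc2] at hc0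
    rw [← hc2, ← hhd] at hh
    have e1 : θ * q = 2 + 2 / (k : ℝ) := by rw [hθ]; field_simp
    have e2 : c2 ≤ h / k := by
      rw [le_div_iff₀ hk0]
      linarith
    have e3 : WB = q * h - l := by linarith
    rw [e3] at h3
    have e4 : θ * (q * h - l) = (2 + 2 / (k : ℝ)) * h - θ * l := by rw [← e1]; ring
    rw [e4] at h3
    have e5 : (1 - θ) * (-c2) ≤ (1 - θ) * l := mul_le_mul_of_nonneg_left hlow (by linarith)
    have e6 : 0 ≤ θ * c2 := mul_nonneg hθ0 hc0
    have e7 : (2 + 2 / (k : ℝ)) * h = (2 + 1 / (k : ℝ)) * h + h / k := by ring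
    nlinarith

theorem Count_pow {X y ε : ℝ} {k q : ℕ} (hX : 1 ≤ X) (hy : 1 ≤ y) (hε : 0 < ε) (hk : 2 ≤ k)
    (hkε : 2 / ε ≤ k) (hq : 3 ≤ q) :
    (min y X * X ^ ((2 + 2 / (k : ℝ)) / q)) ^ (1 + ε / 4) ≤ y * X ^ (2 / (q : ℝ) + ε) := by
  have hk2 : (2 : ℝ) ≤ k := by exact_mod_cast hk
  have hk0 : (0 : ℝ) < k := by linarith
  have hq3 : (3 : ℝ) ≤ q := by exact_mod_cast hq
  have hq0 : (0 : ℝ) < q := by linarith
  have hX0 : 0 < X := by linarith
  have hmin : 1 ≤ min y X := le_min hy hX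
  have hmin0 : 0 < min y X := by linarith
  obtain ⟨θ, hθ⟩ : ∃ θ : ℝ, θ = (2 + 2 / (k : ℝ)) / q := ⟨_, rfl⟩
  have hθ1 : θ ≤ 1 := by
    rw [hθ, div_le_one hq0]
    have : 2 / (k : ℝ) ≤ 1 := by rw [div_le_one hk0]; exact hk2
    linarith
  rw [← hθ, Real.mul_rpow hmin0.le (by positivity)]
  have b1 : min y X ^ (1 + ε / 4) ≤ y * X ^ (ε / 4) := by
    rw [Real.rpow_add hmin0, Real.rpow_one]
    refine mul_le_mul (min_le_left _ _) ?_ (by positivity) (by linarith)
    exact Real.rpow_le_rpow hmin0.le (min_le_right _ _) (by positivity)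
  have b2 : X ^ (ε / 4) * (X ^ θ) ^ (1 + ε / 4) ≤ X ^ (2 / (q : ℝ) + ε) := by
    rw [← Real.rpow_mul hX0.le, ← Real.rpow_add hX0]
    refine Real.rpow_le_rpow_of_exponent_le hX ?_
    have c1 : θ = 2 / (q : ℝ) + 2 / k / q := by
      rw [hθ]
      ring
    have c2 : 2 / (k : ℝ) ≤ ε := by
      rw [div_le_iff₀ hk0]
      rw [div_le_iff₀ hε] at hkε
      linarith
    have c3 : 2 / (k : ℝ) / q ≤ ε / 3 := by
      have d1 : 2 / (k : ℝ) / q ≤ ε / q := div_le_div_of_nonneg_right c2 hq0.le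
      have d2 : ε / (q : ℝ) ≤ ε / 3 := div_le_div_of_nonneg_left hε.le (by norm_num) hq3
      linarith
    have c4 : θ * (ε / 4) ≤ ε / 4 := by nlinarith
    nlinarith
  calc min y X ^ (1 + ε / 4) * (X ^ θ) ^ (1 + ε / 4)
      ≤ (y * X ^ (ε / 4)) * (X ^ θ) ^ (1 + ε / 4) := mul_le_mul_of_nonneg_right b1 (by positivity)
    _ = y * (X ^ (ε / 4) * (X ^ θ) ^ (1 + ε / 4)) := by ring
    _ ≤ y * X ^ (2 / (q : ℝ) + ε) := mul_le_mul_of_nonneg_left b2 (by linarith)

/-- the points of one scale -/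
theorem Count_one {C D M δ : ℝ} (hC : 1 ≤ C)
    (hsum : ∀ U : Finset (Finset (Pr K)), (∀ s ∈ U, nn s ≤ M) →
      ∑ s ∈ U, C ^ s.card ≤ D * M ^ (1 + δ)) (G : Finset K) (T : K → Finset (Pr K))
    (hT : ∀ x ∈ G, nn (T x) ≤ M)
    (hs : ∀ (s : Finset (Pr K)) (G' : Finset K), G' ⊆ G → (∀ x ∈ G', T x = s) → G'.Nonempty →
      (G'.card : ℝ) ≤ C ^ (s.card + 1)) :
    (G.card : ℝ) ≤ C * (D * M ^ (1 + δ)) := by
  classical
  have h1 : (G.card : ℝ) = ∑ b ∈ G.image T, ((G.filter fun x => T x = b).card : ℝ) := by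
    exact_mod_cast Finset.card_eq_sum_card_image T G
  have h2 : ∀ b ∈ G.image T, ((G.filter fun x => T x = b).card : ℝ) ≤ C * C ^ b.card := by
    intro b hb
    obtain ⟨x0, hx0, hb0⟩ := Finset.mem_image.1 hb
    have h3 := hs b (G.filter fun x => T x = b) (filter_subset _ _)
      (fun x hx => (Finset.mem_filter.1 hx).2) ⟨x0, Finset.mem_filter.2 ⟨hx0, hb0⟩⟩
    rw [pow_succ] at h3
    linarith
  rw [h1]
  refine (Finset.sum_le_sum h2).trans ?_
  rw [← Finset.mul_sum]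
  refine mul_le_mul_of_nonneg_left (hsum _ fun s hs' => ?_) (by linarith)
  obtain ⟨x, hx, rfl⟩ := Finset.mem_image.1 hs'
  exact hT x hx

end

variable (K : Type) [Field K] [NumberField K]

theorem count (h1 : LocalS K) (h2 : GlobS K) (h3 : ScaleS K) : CountS K := by
  classical
  intro f q hf hq S1 ε hε
  obtain ⟨S0, c, typ, hsys0⟩ := h1 f q hf
  obtain ⟨S, hS⟩ : ∃ S : Finset (Pr K), S = S0 ∪ S1 := ⟨_, rfl⟩
  have hsys : Sys f q S c typ := Count_sys hsys0 (by rw [hS]; exact subset_union_left)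
  obtain ⟨c1, _, _, _, hglob⟩ := h2 f q S c typ hsys
  obtain ⟨k, hk⟩ := exists_nat_ge (max 2 (2 / ε))
  have hk2 : (2 : ℝ) ≤ k := (le_max_left _ _).trans hk
  have hkε : 2 / ε ≤ k := (le_max_right _ _).trans hk
  have hk2' : 2 ≤ k := by exact_mod_cast hk2
  have hk0 : (0 : ℝ) < k := by linarith
  obtain ⟨C, l0, hC, hl0, hs⟩ := h3 f q S c typ hsys k (by omega)
  have hC1 : (1 : ℝ) ≤ C := by exact_mod_cast hC
  obtain ⟨_, D, hD, hsum⟩ := KR.sum_sets K (C : ℝ) hC1 (ε / 4) (by positivity)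
  obtain ⟨l1, hl1⟩ : ∃ l1 : ℝ, l1 = max l0
    (k * (c * ((S.card : ℝ) + Fintype.card (InfinitePlace K)))) := ⟨_, rfl⟩
  have hl10 : l0 ≤ l1 := by rw [hl1]; exact le_max_left _ _
  have hl11 : k * (c * ((S.card : ℝ) + Fintype.card (InfinitePlace K))) ≤ l1 := by
    rw [hl1]; exact le_max_right _ _
  have hl1p : 0 < l1 := by linarith
  obtain ⟨N0, hN0⟩ : ∃ N0 : ℕ, N0 =
    (NumberField.finite_setOfPred_logHeight₁_le K l1).toFinset.card := ⟨_, rfl⟩
  refine ⟨N0 + (8 * k + 1) * (C * D), by positivity, ?_⟩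
  intro X y H hX hy hH F hF
  have hX0 : 0 < X := by linarith
  have hlogH : 0 ≤ Real.log H := Real.log_nonneg hH
  obtain ⟨M, hM⟩ : ∃ M : ℝ, M = min y X * X ^ ((2 + 2 / (k : ℝ)) / q) := ⟨_, rfl⟩
  have hmin : 1 ≤ min y X := le_min hy hX
  have hM1 : 1 ≤ M := by
    rw [hM]
    exact one_le_mul_of_one_le_of_one_le hmin (Real.one_le_rpow hX (by positivity))
  obtain ⟨P, hP⟩ : ∃ P : ℝ, P = y * X ^ (2 / (q : ℝ) + ε) := ⟨_, rfl⟩
  have hMP : M ^ (1 + ε / 4) ≤ P := by
    rw [hM, hP]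
    exact Count_pow hX hy hε hk2' hkε hq
  have hP1 : 1 ≤ P := by
    rw [hP]
    exact one_le_mul_of_one_le_of_one_le hy (Real.one_le_rpow hX (by positivity))
  have hTex : ∀ x ∈ F, l1 ≤ Height.logHeight₁ x → ∃ T : Finset (Pr K), Disjoint T S ∧
      nn T ≤ M ∧ (2 + 1 / (k : ℝ)) * Height.logHeight₁ x ≤ tot S T (fun v => lam f q v x) := by
    intro x hx hlx
    obtain ⟨hx0, _, hT⟩ := hF x hx
    obtain ⟨B, hB, hB2⟩ := hglob x hx0
    obtain ⟨hB3, hB4⟩ := hT B (fun v hv => by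
      obtain ⟨a1, a2⟩ := (hB v).1 hv
      refine ⟨fun h' => a1 ?_, a2⟩
      rw [hS, mem_union]
      exact Or.inr h')
    rw [hM]
    exact Count_choose hsys hx0 hB hB2 hX hy hB3 hB4 hk2' hq (hl11.trans hlx)
  choose! T hT1 hT2 hT3 using hTex
  obtain ⟨ρ, hρ⟩ : ∃ ρ : ℝ, ρ = 1 + 1 / (8 * (k : ℝ)) := ⟨_, rfl⟩
  have hρ1 : 1 < ρ := by
    rw [hρ]
    have : 0 < 1 / (8 * (k : ℝ)) := by positivity
    linarith
  -- small heights
  have hsmall : ((F.filter fun x => Height.logHeight₁ x < l1).card : ℝ) ≤ N0 := by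
    rw [hN0]
    refine Nat.cast_le.2 (Finset.card_le_card fun x hx => ?_)
    obtain ⟨a1, a2⟩ := Finset.mem_filter.1 hx
    rw [Set.Finite.mem_toFinset]
    exact a2.le
  -- the scales
  obtain ⟨I, hI⟩ : ∃ I : ℕ, I = ⌊(8 * k + 1) * Real.log H⌋₊ + 1 := ⟨_, rfl⟩
  have hIle : (I : ℝ) ≤ (8 * k + 1) * (1 + Real.log H) := by
    rw [hI]
    push_cast
    have := Nat.floor_le (show 0 ≤ (8 * (k : ℝ) + 1) * Real.log H by positivity)
    nlinarith
  obtain ⟨G, hGd⟩ : ∃ G : ℕ → Finset K, ∀ i, G i = F.filter fun x =>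
      l1 * ρ ^ i ≤ Height.logHeight₁ x ∧ Height.logHeight₁ x ≤ ρ * (l1 * ρ ^ i) :=
    ⟨fun i => _, fun i => rfl⟩
  have hcover : F ⊆ (F.filter fun x => Height.logHeight₁ x < l1) ∪
      (range I).biUnion fun i => G i := by
    intro x hx
    rw [mem_union, mem_filter, mem_biUnion]
    by_cases hlt : Height.logHeight₁ x < l1
    · exact Or.inl ⟨hx, hlt⟩
    · right
      push Not at hlt
      obtain ⟨i, hi1, hi2⟩ := exists_nat_pow_near (x := Height.logHeight₁ x / l1)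
        (by rw [le_div_iff₀ hl1p]; linarith) hρ1
      have hxH := (hF x hx).2.1
      refine ⟨i, ?_, ?_⟩
      · rw [mem_range, hI, Nat.lt_add_one_iff]
        refine Nat.le_floor ?_
        have a1 : ρ ^ i ≤ H := by
          refine hi1.trans ?_
          rw [div_le_iff₀ hl1p]
          nlinarith
        have a2 : (i : ℝ) * Real.log ρ ≤ Real.log H := by
          rw [← Real.log_pow]
          exact Real.log_le_log (by positivity) a1
        have a3 : 1 / (8 * (k : ℝ) + 1) ≤ Real.log ρ := by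
          have a4 := Real.one_sub_inv_le_log_of_pos (show 0 < ρ by linarith)
          refine le_trans (le_of_eq ?_) a4
          rw [hρ]
          field_simp
          ring
        have a4 : (i : ℝ) * (1 / (8 * k + 1)) ≤ Real.log H :=
          (mul_le_mul_of_nonneg_left a3 (Nat.cast_nonneg i)).trans a2
        calc (i : ℝ) = (8 * k + 1) * (i * (1 / (8 * k + 1))) := by field_simp
          _ ≤ (8 * k + 1) * Real.log H := mul_le_mul_of_nonneg_left a4 (by positivity)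
      · rw [hGd, mem_filter]
        refine ⟨hx, ?_, ?_⟩
        · rw [le_div_iff₀ hl1p] at hi1
          linarith [mul_comm l1 (ρ ^ i)]
        · rw [div_lt_iff₀ hl1p, pow_succ] at hi2
          refine hi2.le.trans (le_of_eq ?_)
          ring
  have hsc : ∀ i ∈ range I, ((G i).card : ℝ) ≤ C * (D * P) := by
    intro i _
    have hli : l1 ≤ l1 * ρ ^ i := by
      have : 1 ≤ ρ ^ i := one_le_pow₀ hρ1.le
      nlinarith
    have hG : ∀ x ∈ G i, x ∈ F ∧ l1 * ρ ^ i ≤ Height.logHeight₁ x ∧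
        Height.logHeight₁ x ≤ ρ * (l1 * ρ ^ i) := by
      intro x hx
      rw [hGd, mem_filter] at hx
      exact hx
    have key := Count_one hC1 (fun U hU => hsum M hM1 U hU) (G i) T
      (fun x hx => hT2 x (hG x hx).1 (hli.trans (hG x hx).2.1)) (by
        intro s G' hG' hTs hne
        obtain ⟨x0, hx0⟩ := hne
        have b0 := hG x0 (hG' hx0)
        refine hs (l1 * ρ ^ i) s G' (hl10.trans hli) ?_ ?_
        · rw [← hTs x0 hx0]
          exact hT1 x0 b0.1 (hli.trans b0.2.1)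
        · intro x hx
          obtain ⟨b1, b2, b3⟩ := hG x (hG' hx)
          have b4 := hT3 x b1 (hli.trans b2)
          rw [hTs x hx] at b4
          rw [← hρ]
          exact ⟨(hF x b1).1, b2, b3, b4⟩)
    refine key.trans ?_
    exact mul_le_mul_of_nonneg_left (mul_le_mul_of_nonneg_left hMP hD.le) (by linarith)
  have hcard : (F.card : ℝ) ≤ N0 + ∑ i ∈ range I, ((G i).card : ℝ) := by
    have a1 : F.card ≤ (F.filter fun x => Height.logHeight₁ x < l1).card +
        ∑ i ∈ range I, (G i).card :=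
      (card_le_card hcover).trans ((card_union_le _ _).trans
        (Nat.add_le_add_left card_biUnion_le _))
    have a2 : (F.card : ℝ) ≤ ((F.filter fun x => Height.logHeight₁ x < l1).card : ℝ) +
        ∑ i ∈ range I, ((G i).card : ℝ) := by
      exact_mod_cast a1
    linarith
  have hsum2 : ∑ i ∈ range I, ((G i).card : ℝ) ≤ I * (C * (D * P)) := by
    refine (sum_le_sum fun i hi => hsc i hi).trans (le_of_eq ?_)
    rw [sum_const, card_range, nsmul_eq_mul]
  have hN : (0 : ℝ) ≤ N0 := Nat.cast_nonneg _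
  calc (F.card : ℝ) ≤ N0 + I * (C * (D * P)) := by linarith
    _ ≤ N0 * (P * (1 + Real.log H)) +
        ((8 * k + 1) * (1 + Real.log H)) * (C * (D * P)) := by
        refine add_le_add ?_ ?_
        · refine le_mul_of_one_le_right hN ?_
          nlinarith
        · exact mul_le_mul_of_nonneg_right hIle (by positivity)
    _ = (N0 + (8 * k + 1) * (C * D)) * P * (1 + Real.log H) := by ring
    _ = _ := by rw [hP]; ring

end Pool.Agent.TH876.TM
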