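import Mathlib
import Pool.Agent.TH876.TM.Def

set_option autoImplicit false

/-!
# Rational curves in projective space, abc with two perfect powers over a number field, Philippon's
inequality: definitions and statements
-/

namespace Pool.Agent.TH876.TM

open NumberField IsDedekindDomain Finset Polynomial Pool.Agent.H691R3 Pool.Agent.TH876.Loc

open Classical in
/-- the number of the different points of the projective line at which the curve
`t ↦ (P 0 (t) : ... : P (n-1) (t))` meets the coordinate hyperplanes -/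
noncomputable def zeros {K : Type} [Field K] {n : ℕ} (P : Fin n → K[X]) : ℕ :=
  ((∏ i, P i).map (algebraMap K (AlgebraicClosure K))).roots.toFinset.card +
    if ∃ i j, (P i).natDegree < (P j).natDegree then 1 else 0

/-- the primes at which the orders of the coordinates are not all equal -/
def supp {K : Type} [Field K] [NumberField K] {n : ℕ} (z : Fin n → K) :
    Set (HeightOneSpectrum (𝓞 K)) := {v | ∃ i j, v.valuation K (z i) ≠ v.valuation K (z j)}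

/-- the primes at which a point of the curve meets the coordinate hyperplanes -/
def MeetNS : Prop := ∀ (K : Type) [Field K] [NumberField K] (n : ℕ) (P : Fin n → K[X]),
  (∀ i, P i ≠ 0) → (∃ u : Fin n → K[X], ∑ i, u i * P i = 1) → 1 ≤ zeros P →
  ∃ (f : K[X]) (S1 : Finset (Pr K)), Form f (zeros P) ∧ f ∣ ∏ i, P i ∧
    ∀ v : Pr K, v ∉ S1 → ∀ t : K, (∀ i, (P i).eval t ≠ 0) →
      0 < lam f (zeros P) (Sum.inr v : Pl K) t → v ∈ supp (fun i => (P i).eval t)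

/-- the height of a point of the curve -/
def ValNS : Prop := ∀ (K : Type) [Field K] [NumberField K] (n : ℕ) (P : Fin n → K[X]),
  (∃ u : Fin n → K[X], ∑ i, u i * P i = 1) → (∃ i, 1 ≤ (P i).natDegree) → ∃ c : ℝ, 0 ≤ c ∧
    ∀ t : K, Height.logHeight₁ t ≤ Height.logHeight (fun i => (P i).eval t) + c

/-- the parameters of the points of the curve outside the coordinate hyperplanes with a small
radical -/
def Curve (K : Type) [Field K] [NumberField K] {n : ℕ} (P : Fin n → K[X]) (X y H : ℝ) : Set K :=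
  {t | (∀ i, (P i).eval t ≠ 0) ∧
    Real.exp (∑ᶠ v ∈ supp (fun i => (P i).eval t), Real.log (Ideal.absNorm v.asIdeal : ℝ)) ≤ X ∧
    (∀ v ∈ supp (fun i => (P i).eval t), (Ideal.absNorm v.asIdeal : ℝ) ≤ y) ∧
    Height.logHeight (fun i => (P i).eval t) ≤ H}

/-- the count of these points -/
def CurveS : Prop := ∀ (K : Type) [Field K] [NumberField K] (n : ℕ) (P : Fin n → K[X]),
  (∀ i, P i ≠ 0) → (∃ u : Fin n → K[X], ∑ i, u i * P i = 1) → 3 ≤ zeros P →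
  ∀ ε : ℝ, 0 < ε → ∃ C : ℝ, ∀ X y H : ℝ, 1 ≤ X → 1 ≤ y → 1 ≤ H →
  (Curve K P X y H).Finite ∧ ((Curve K P X y H).ncard : ℝ) ≤
    C * y * X ^ (2 / (zeros P : ℝ) + ε) * (1 + Real.log H)

/-- the integral tuples on the curve which violate `max |z i| ≤ c rad ^ M` -/
def Tuples {n : ℕ} (P : Fin n → ℚ[X]) (M c y B : ℝ) : Set (Fin n → ℤ) :=
  {z | (∀ i, z i ≠ 0) ∧ (∀ d : ℤ, (∀ i, d ∣ z i) → IsUnit d) ∧
    (∃ t r : ℚ, ∀ i, (z i : ℚ) = r * (P i).eval t) ∧ (∀ i, |(z i : ℝ)| ≤ B) ∧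
    (∀ p ∈ (∏ i, z i).natAbs.primeFactors, (p : ℝ) ≤ y) ∧
    ∃ i, c * ((∏ p ∈ (∏ i, z i).natAbs.primeFactors, p : ℕ) : ℝ) ^ M < |(z i : ℝ)|}

/-- the count of these tuples -/
def TuplesS : Prop := ∀ (n : ℕ) (P : Fin n → ℚ[X]), (∀ i, P i ≠ 0) →
  (∃ u : Fin n → ℚ[X], ∑ i, u i * P i = 1) → 3 ≤ zeros P →
  ∀ M c δ : ℝ, 0 < M → 0 < c → 0 < δ → ∃ C : ℝ, ∀ y B : ℝ, 1 ≤ y → 1 ≤ B →
  (Tuples P M c y B).Finite ∧ ((Tuples P M c y B).ncard : ℝ) ≤
    C * y * B ^ (2 / ((zeros P : ℝ) * M) + δ)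

/-- the points `(a : b : c)`, `a + b + c = 0`, such that outside `S` the order of `a / b` is
divisible by `m`, with small norms of the primes outside `S` which divide `c` -/
def TwoPts (K : Type) [Field K] [NumberField K] (S : Set (HeightOneSpectrum (𝓞 K))) (m : ℕ)
    (X y H : ℝ) : Set (Projectivization K (Fin 3 → K)) :=
  {P | ∃ (x : Fin 3 → K) (hx : x ≠ 0), P = Projectivization.mk K x hx ∧ x 0 + x 1 + x 2 = 0 ∧
    x 0 * x 1 * x 2 ≠ 0 ∧
    (∀ v : HeightOneSpectrum (𝓞 K), v ∉ S →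
      ∃ n : ℤ, v.valuation K (x 0 / x 1) = WithZero.exp ((m : ℤ) * n)) ∧
    Real.exp (∑ᶠ v ∈ {v : HeightOneSpectrum (𝓞 K) | v ∉ S ∧
      v.valuation K (x 2) < max (v.valuation K (x 0)) (v.valuation K (x 1))},
      Real.log (Ideal.absNorm v.asIdeal : ℝ)) ≤ X ∧
    (∀ v : HeightOneSpectrum (𝓞 K), v ∉ S →
      v.valuation K (x 2) < max (v.valuation K (x 0)) (v.valuation K (x 1)) →
      (Ideal.absNorm v.asIdeal : ℝ) ≤ y) ∧
    Height.logHeight x ≤ H}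

/-- the count of these points -/
def TwoPtsS : Prop := ∀ (K : Type) [Field K] [NumberField K]
  (S : Set (HeightOneSpectrum (𝓞 K))), S.Finite → ∀ m : ℕ, 3 ≤ m →
  ∀ ε : ℝ, 0 < ε → ∃ C : ℝ, ∀ X y H : ℝ, 1 ≤ X → 1 ≤ y → 1 ≤ H →
  (TwoPts K S m X y H).Finite ∧ ((TwoPts K S m X y H).ncard : ℝ) ≤
    C * y * X ^ (2 / (m : ℝ) + ε) * (1 + Real.log H)

/-- the logarithmic height of a rational number -/
noncomputable def ht (r : ℚ) : ℝ := Real.log (max |(r.num : ℝ)| (r.den : ℝ))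

/-- Philippon's inequality -/
def Holds (B : ℕ) (α β ε : ℝ) (x y : ℚ) : Prop :=
  Real.log |((x * y ^ B + 1).num : ℝ)| ≤ α * B * ht x + ε * B * ht y +
    B * (α * B + ε) * (β + ∑ p ∈ (x * y ^ B + 1).num.natAbs.primeFactors, Real.log (p : ℝ))

/-- the exceptions `y` for given `x` -/
def Exc (B : ℕ) (α β ε : ℝ) (x : ℚ) (z Y : ℝ) : Set ℚ :=
  {y | y ≠ 0 ∧ x * y ^ B + 1 ≠ 0 ∧ ht y ≤ Real.log Y ∧
    (∀ p ∈ (x * y ^ B + 1).num.natAbs.primeFactors, (p : ℝ) ≤ z) ∧ ¬ Holds B α β ε x y}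

/-- the count of the exceptions -/
def ExcS : Prop := ∀ (B : ℕ) (α β ε : ℝ) (x : ℚ), 3 ≤ B → 1 ≤ α → 0 ≤ β → 0 < ε → ε < 1 / 2 →
  x ≠ 0 → ∀ δ : ℝ, 0 < δ → ∃ C : ℝ, ∀ z Y : ℝ, 1 ≤ z → 1 ≤ Y → (Exc B α β ε x z Y).Finite ∧
    ((Exc B α β ε x z Y).ncard : ℝ) ≤ C * z * Y ^ (2 * (1 - ε) / (B * (α * B + ε)) + δ)

end Pool.Agent.TH876.TM
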