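import Mathlib
import Pool.Agent.TH876.TM.Def3

set_option autoImplicit false

/-!
# Philippon's inequality for a given `x`: the count of the exceptions
-/

namespace Pool.Agent.TH876.TM

open NumberField IsDedekindDomain Finset Polynomial Pool.Agent.H691R3 Pool.Agent.TH876.Loc

private lemma Exc_deg (B : ℕ) (a b : ℤ) (ha : a ≠ 0) :
    (C a * X ^ B + C b : ℤ[X]).natDegree = B := by
  rw [natDegree_add_C, natDegree_C_mul_X_pow B a ha]

private lemma Exc_sqf (B : ℕ) (hB : 3 ≤ B) (a b : ℤ) (ha : a ≠ 0) (hb : b ≠ 0) :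
    Squarefree ((C a * X ^ B + C b : ℤ[X]).map (Int.castRingHom ℚ)) := by
  have ha' : (a : ℚ) ≠ 0 := by exact_mod_cast ha
  have hb' : (b : ℚ) ≠ 0 := by exact_mod_cast hb
  have h1 : (C a * X ^ B + C b : ℤ[X]).map (Int.castRingHom ℚ) =
      C (a : ℚ) * (X ^ B - C (-((b : ℚ) / a))) := by
    rw [Polynomial.map_add, Polynomial.map_mul, Polynomial.map_pow, Polynomial.map_X,
      Polynomial.map_C, Polynomial.map_C, C_neg, sub_neg_eq_add, mul_add, ← C_mul,
      mul_div_cancel₀ _ ha']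
    rfl
  rw [h1]
  refine (Polynomial.Separable.unit_mul (isUnit_C.2 ha'.isUnit)
    (separable_X_pow_sub_C _ ?_ ?_)).squarefree
  · have : B ≠ 0 := by omega
    exact_mod_cast this
  · rw [neg_ne_zero]
    exact div_ne_zero hb' ha'

private lemma Exc_sum (B : ℕ) (a b u v : ℤ) (ha : a ≠ 0) :
    ∑ i ∈ Finset.range ((C a * X ^ B + C b : ℤ[X]).natDegree + 1),
      (C a * X ^ B + C b : ℤ[X]).coeff i * u ^ i *
      v ^ ((C a * X ^ B + C b : ℤ[X]).natDegree - i) = a * u ^ B + b * v ^ B := by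
  rw [Exc_deg B a b ha]
  have h1 : ∀ i ∈ Finset.range (B + 1), (C a * X ^ B + C b : ℤ[X]).coeff i * u ^ i * v ^ (B - i) =
      (if i = B then a * (u ^ i * v ^ (B - i)) else 0) +
        (if i = 0 then b * (u ^ i * v ^ (B - i)) else 0) := by
    intro i _
    rw [coeff_add, coeff_C_mul, coeff_X_pow, coeff_C]
    split_ifs <;> ring
  rw [Finset.sum_congr rfl h1, Finset.sum_add_distrib, Finset.sum_ite_eq', Finset.sum_ite_eq',
    if_pos (Finset.mem_range.2 (by omega)), if_pos (Finset.mem_range.2 (by omega))]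
  simp

/-- the arithmetic of the numerator -/
private lemma Exc_num (B : ℕ) (x y : ℚ) (hx : x ≠ 0) (hy : y ≠ 0) (h : x * y ^ B + 1 ≠ 0) :
    x.num * y.num ^ B + (x.den : ℤ) * (y.den : ℤ) ^ B ≠ 0 ∧
    (x * y ^ B + 1).num ∣ x.num * y.num ^ B + (x.den : ℤ) * (y.den : ℤ) ^ B ∧
    ∀ p : ℕ, p.Prime → (p : ℤ) ∣ x.num * y.num ^ B + (x.den : ℤ) * (y.den : ℤ) ^ B →
      (p : ℤ) ∣ (x * y ^ B + 1).num ∨ (p : ℤ) ∣ x.num * (x.den : ℤ) := by
  obtain ⟨w, hw⟩ : ∃ w : ℤ, w = x.num * y.num ^ B + (x.den : ℤ) * (y.den : ℤ) ^ B := ⟨_, rfl⟩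
  obtain ⟨q, hq⟩ : ∃ q : ℚ, q = x * y ^ B + 1 := ⟨_, rfl⟩
  rw [← hw, ← hq]
  rw [← hq] at h
  have hb : (x.den : ℚ) ≠ 0 := by exact_mod_cast x.den_nz
  have hv : (y.den : ℚ) ≠ 0 := by exact_mod_cast y.den_nz
  have hD : (q.den : ℚ) ≠ 0 := by exact_mod_cast q.den_nz
  have hqe : q * ((x.den : ℚ) * (y.den : ℚ) ^ B) = (w : ℚ) := by
    have e1 : x * (x.den : ℚ) = x.num := Rat.mul_den_eq_num x
    have e2 : y * (y.den : ℚ) = y.num := Rat.mul_den_eq_num y
    rw [hw, hq]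
    push_cast
    rw [← e1, ← e2]
    ring
  have hN0 : q.num ≠ 0 := Rat.num_ne_zero.2 h
  have hid : q.num * ((x.den : ℤ) * (y.den : ℤ) ^ B) = w * (q.den : ℤ) := by
    have e3 : q * (q.den : ℚ) = q.num := Rat.mul_den_eq_num q
    have : (q.num : ℚ) * ((x.den : ℚ) * (y.den : ℚ) ^ B) = (w : ℚ) * (q.den : ℚ) := by
      rw [← hqe, ← e3]
      ring
    exact_mod_cast this
  have hw0 : w ≠ 0 := by
    intro h0
    rw [h0] at hqe
    have : q * ((x.den : ℚ) * (y.den : ℚ) ^ B) ≠ 0 :=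
      mul_ne_zero h (mul_ne_zero hb (pow_ne_zero _ hv))
    exact this (by rw [hqe]; simp)
  have hcop : IsCoprime q.num (q.den : ℤ) := by
    rw [Int.isCoprime_iff_nat_coprime]
    simpa using q.reduced
  have hdvd : q.num ∣ w := by
    refine hcop.dvd_of_dvd_mul_right ?_
    rw [← hid]
    exact dvd_mul_right _ _
  refine ⟨hw0, hdvd, fun p hp hpw => ?_⟩
  have hpz : Prime (p : ℤ) := Nat.prime_iff_prime_int.1 hp
  obtain ⟨g, hg⟩ := hdvd
  have hgD : (x.den : ℤ) * (y.den : ℤ) ^ B = g * (q.den : ℤ) := by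
    apply mul_left_cancel₀ hN0
    rw [hid, hg, mul_assoc]
  rw [hg] at hpw
  rcases hpz.dvd_or_dvd hpw with h1 | h1
  · exact Or.inl h1
  · right
    have h2 : (p : ℤ) ∣ (x.den : ℤ) * (y.den : ℤ) ^ B := by
      rw [hgD]
      exact h1.mul_right _
    rcases hpz.dvd_or_dvd h2 with h3 | h3
    · exact h3.mul_left _
    · have h4 : (p : ℤ) ∣ (y.den : ℤ) := hpz.dvd_of_dvd_pow h3
      have h5 : (p : ℤ) ∣ x.num * y.num ^ B := by
        have e1 : x.num * y.num ^ B = w - (x.den : ℤ) * (y.den : ℤ) ^ B := by rw [hw]; ring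
        rw [e1, hg]
        exact dvd_sub (h1.mul_left _) h2
      rcases hpz.dvd_or_dvd h5 with h6 | h6
      · exact h6.mul_right _
      · exfalso
        have h7 : (p : ℤ) ∣ y.num := hpz.dvd_of_dvd_pow h6
        have hcy : IsCoprime y.num (y.den : ℤ) := by
          rw [Int.isCoprime_iff_nat_coprime]
          simpa using y.reduced
        exact hpz.not_isUnit (hcy.isUnit_of_dvd' h7 h4)

private lemma Exc_rad (N w m : ℤ) (hN : N ≠ 0) (hm : m ≠ 0)
    (h : ∀ p : ℕ, p.Prime → (p : ℤ) ∣ w → (p : ℤ) ∣ N ∨ (p : ℤ) ∣ m) :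
    (∏ r ∈ w.natAbs.primeFactors, r) ≤ m.natAbs * ∏ r ∈ N.natAbs.primeFactors, r := by
  have h1 : w.natAbs.primeFactors ⊆ m.natAbs.primeFactors ∪ N.natAbs.primeFactors := by
    intro p hp
    have hpp := Nat.prime_of_mem_primeFactors hp
    have hpd : (p : ℤ) ∣ w := Int.natCast_dvd.2 (Nat.dvd_of_mem_primeFactors hp)
    rw [Finset.mem_union]
    rcases h p hpp hpd with h2 | h2
    · right
      exact Nat.mem_primeFactors.2 ⟨hpp, Int.natCast_dvd.1 h2, by simpa using hN⟩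
    · left
      exact Nat.mem_primeFactors.2 ⟨hpp, Int.natCast_dvd.1 h2, by simpa using hm⟩
  calc (∏ r ∈ w.natAbs.primeFactors, r) ≤ ∏ r ∈ m.natAbs.primeFactors ∪ N.natAbs.primeFactors, r := by
        refine Finset.prod_le_prod_of_subset_of_one_le' h1 fun i hi _ => ?_
        rcases Finset.mem_union.1 hi with hi | hi
        · exact (Nat.prime_of_mem_primeFactors hi).one_le
        · exact (Nat.prime_of_mem_primeFactors hi).one_le
    _ ≤ (∏ r ∈ m.natAbs.primeFactors, r) * ∏ r ∈ N.natAbs.primeFactors, r := by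
        rw [← Finset.prod_union_inter]
        refine Nat.le_mul_of_pos_right _ (Finset.prod_pos fun i hi => ?_)
        exact (Nat.prime_of_mem_primeFactors (Finset.mem_inter.1 hi).1).pos
    _ ≤ m.natAbs * ∏ r ∈ N.natAbs.primeFactors, r :=
        Nat.mul_le_mul_right _ (Nat.le_of_dvd (Int.natAbs_pos.2 hm) (Nat.prod_primeFactors_dvd _))

private lemma Exc_ht_nonneg (r : ℚ) : 0 ≤ ht r := by
  unfold ht
  apply Real.log_nonneg
  apply le_max_of_le_right
  exact_mod_cast r.den_pos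

private lemma Exc_exp_ht (r : ℚ) : Real.exp (ht r) = max |(r.num : ℝ)| (r.den : ℝ) := by
  unfold ht
  apply Real.exp_log
  apply lt_max_of_lt_right
  exact_mod_cast r.den_pos

/-- the size of the numerator -/
private lemma Exc_size (B : ℕ) (x y : ℚ) (hx : x ≠ 0) (hy : y ≠ 0) (h : x * y ^ B + 1 ≠ 0) :
    Real.log |((x * y ^ B + 1).num : ℝ)| ≤ Real.log 2 + ht x + B * ht y := by
  obtain ⟨h0, h1, -⟩ := Exc_num B x y hx hy h
  have hN0 : (x * y ^ B + 1).num ≠ 0 := Rat.num_ne_zero.2 h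
  have h2 : |((x * y ^ B + 1).num : ℝ)| ≤
      |((x.num * y.num ^ B + (x.den : ℤ) * (y.den : ℤ) ^ B : ℤ) : ℝ)| := by
    rw [← Int.cast_abs, ← Int.cast_abs]
    have := Int.natAbs_dvd_natAbs.2 h1
    have h3 := Nat.le_of_dvd (Int.natAbs_pos.2 h0) this
    have h4 : |(x * y ^ B + 1).num| ≤ |x.num * y.num ^ B + (x.den : ℤ) * (y.den : ℤ) ^ B| := by
      rw [Int.abs_eq_natAbs, Int.abs_eq_natAbs]
      exact_mod_cast h3
    exact_mod_cast h4
  have h5 : |((x.num * y.num ^ B + (x.den : ℤ) * (y.den : ℤ) ^ B : ℤ) : ℝ)| ≤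
      2 * (Real.exp (ht x) * Real.exp (ht y) ^ B) := by
    push_cast
    refine (abs_add_le _ _).trans ?_
    rw [abs_mul, abs_mul, abs_pow, abs_pow, Exc_exp_ht, Exc_exp_ht, Nat.abs_cast, Nat.abs_cast]
    have i1 : |(x.num : ℝ)| * |(y.num : ℝ)| ^ B ≤
        max |(x.num : ℝ)| (x.den : ℝ) * max |(y.num : ℝ)| (y.den : ℝ) ^ B :=
      mul_le_mul (le_max_left _ _) (pow_le_pow_left₀ (abs_nonneg _) (le_max_left _ _) B)
        (by positivity) (le_max_of_le_left (abs_nonneg _))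
    have i2 : (x.den : ℝ) * (y.den : ℝ) ^ B ≤
        max |(x.num : ℝ)| (x.den : ℝ) * max |(y.num : ℝ)| (y.den : ℝ) ^ B :=
      mul_le_mul (le_max_right _ _) (pow_le_pow_left₀ (Nat.cast_nonneg _) (le_max_right _ _) B)
        (by positivity) (le_max_of_le_left (abs_nonneg _))
    linarith
  have hpos : 0 < |((x * y ^ B + 1).num : ℝ)| := abs_pos.2 (by exact_mod_cast hN0)
  refine (Real.log_le_log hpos (h2.trans h5)).trans (le_of_eq ?_)
  rw [Real.log_mul (by norm_num) (by positivity), Real.log_mul (by positivity) (by positivity),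
    Real.log_pow, Real.log_exp, Real.log_exp]
  ring

private lemma Exc_radN (B : ℕ) (α β ε : ℝ) (x y : ℚ) (z Y : ℝ) (hB : 3 ≤ B) (hα : 1 ≤ α)
    (hβ : 0 ≤ β) (hε : 0 < ε) (hε1 : ε < 1 / 2) (hx : x ≠ 0) (hY : 1 ≤ Y)
    (hy : y ∈ Exc B α β ε x z Y) :
    ((∏ r ∈ (x * y ^ B + 1).num.natAbs.primeFactors, r : ℕ) : ℝ) ≤
      2 * Y ^ ((1 - ε) / (α * B + ε)) := by
  obtain ⟨hy0, hxy, hht, -, hno⟩ := hy
  unfold Holds at hno
  rw [not_le] at hno
  have hsz := Exc_size B x y hx hy0 hxy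
  obtain ⟨S, hS⟩ : ∃ S, S = ∑ p ∈ (x * y ^ B + 1).num.natAbs.primeFactors, Real.log (p : ℝ) :=
    ⟨_, rfl⟩
  rw [← hS] at hno
  have hB3 : (3 : ℝ) ≤ B := by exact_mod_cast hB
  have hBpos : (0 : ℝ) < B := by linarith
  have hq : 0 < α * B + ε := by positivity
  have hq3 : 3 ≤ α * B + ε := by nlinarith
  have hxh := Exc_ht_nonneg x
  have hyh := Exc_ht_nonneg y
  have hl2 : 0 < Real.log 2 := Real.log_pos (by norm_num)
  have hlY : 0 ≤ Real.log Y := Real.log_nonneg hY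
  -- B (αB + ε) S ≤ log 2 + B (1-ε) ht y
  have h1 : B * (α * B + ε) * S ≤ Real.log 2 + B * (1 - ε) * ht y := by
    have e1 : ht x ≤ α * B * ht x := by
      have : 1 ≤ α * B := by nlinarith
      nlinarith
    have e2 : 0 ≤ B * (α * B + ε) * β := by positivity
    nlinarith
  have h2 : S ≤ Real.log 2 + (1 - ε) / (α * B + ε) * Real.log Y := by
    have e1 : B * (α * B + ε) * S ≤ B * (α * B + ε) * (Real.log 2 + (1 - ε) / (α * B + ε) * Real.log Y) := by
      have e2 : B * (α * B + ε) * (Real.log 2 + (1 - ε) / (α * B + ε) * Real.log Y) =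
          B * (α * B + ε) * Real.log 2 + B * (1 - ε) * Real.log Y := by
        field_simp
      rw [e2]
      have e3 : B * (1 - ε) * ht y ≤ B * (1 - ε) * Real.log Y :=
        mul_le_mul_of_nonneg_left hht (mul_nonneg hBpos.le (by linarith))
      have e4 : Real.log 2 ≤ B * (α * B + ε) * Real.log 2 := by
        have : 1 ≤ B * (α * B + ε) := by nlinarith
        nlinarith
      linarith
    exact le_of_mul_le_mul_left e1 (by positivity)
  have h3 : ((∏ r ∈ (x * y ^ B + 1).num.natAbs.primeFactors, r : ℕ) : ℝ) = Real.exp S := by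
    have hne : ∀ p ∈ (x * y ^ B + 1).num.natAbs.primeFactors, ((p : ℕ) : ℝ) ≠ 0 := fun p hp => by
      exact_mod_cast (Nat.prime_of_mem_primeFactors hp).ne_zero
    have e1 : S = Real.log ((∏ r ∈ (x * y ^ B + 1).num.natAbs.primeFactors, r : ℕ) : ℝ) := by
      rw [hS, Nat.cast_prod, Real.log_prod hne]
    rw [e1, Real.exp_log]
    rw [Nat.cast_prod]
    exact Finset.prod_pos fun p hp => by
      exact_mod_cast (Nat.prime_of_mem_primeFactors hp).pos
  rw [h3]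
  refine (Real.exp_le_exp.2 h2).trans (le_of_eq ?_)
  rw [Real.exp_add, Real.exp_log (by norm_num), Real.rpow_def_of_pos (by linarith), mul_comm (Real.log Y)]

theorem exc (h : PairsS) : ExcS := by
  intro B α β ε x hB hα hβ hε hε1 hx δ hδ
  obtain ⟨a, ha⟩ : ∃ a : ℤ, a = x.num := ⟨_, rfl⟩
  obtain ⟨b, hb⟩ : ∃ b : ℤ, b = (x.den : ℤ) := ⟨_, rfl⟩
  have ha0 : a ≠ 0 := by rw [ha]; exact Rat.num_ne_zero.2 hx
  have hb0 : b ≠ 0 := by rw [hb]; exact_mod_cast x.den_nz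
  obtain ⟨g, hg⟩ : ∃ g : ℤ[X], g = C a * X ^ B + C b := ⟨_, rfl⟩
  have hgd : g.natDegree = B := by rw [hg]; exact Exc_deg B a b ha0
  obtain ⟨C0, hC0⟩ := h g (by rw [hg]; exact Exc_sqf B hB a b ha0 hb0) (by rw [hgd]; exact hB)
    (δ / 2) (by positivity)
  rw [hgd] at hC0
  obtain ⟨m, hm⟩ : ∃ m : ℝ, m = ((a * b).natAbs : ℝ) := ⟨_, rfl⟩
  have hm1 : 1 ≤ m := by
    rw [hm]
    exact_mod_cast Int.natAbs_pos.2 (mul_ne_zero ha0 hb0)
  obtain ⟨e, he⟩ : ∃ e : ℝ, e = 2 / (B : ℝ) + δ / 2 := ⟨_, rfl⟩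
  rw [← he] at hC0
  have hB3 : (3 : ℝ) ≤ B := by exact_mod_cast hB
  have hq : 0 < α * B + ε := by positivity
  have hq3 : 3 ≤ α * B + ε := by nlinarith
  obtain ⟨κ, hκ⟩ : ∃ κ : ℝ, κ = (1 - ε) / (α * B + ε) := ⟨_, rfl⟩
  have hκ0 : 0 ≤ κ := by rw [hκ]; exact div_nonneg (by linarith) hq.le
  have hκ1 : κ ≤ 1 := by rw [hκ, div_le_one hq]; linarith
  have he0 : 0 ≤ e := by rw [he]; positivity
  refine ⟨max C0 0 * m * (2 * m) ^ e * (1 + 2 / δ), fun z Y hz hY => ?_⟩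
  have hYp : 0 < Y := by linarith
  have hYκ : 1 ≤ Y ^ κ := Real.one_le_rpow hY hκ0
  obtain ⟨hfin, hcard⟩ := hC0 (m * (2 * Y ^ κ)) (m * z) (max 1 (Real.log Y)) (by nlinarith)
    (by nlinarith) (le_max_left _ _)
  have hmaps : ∀ y ∈ Exc B α β ε x z Y, ((y.num, (y.den : ℤ)) : ℤ × ℤ) ∈
      Pairs g (m * (2 * Y ^ κ)) (m * z) (max 1 (Real.log Y)) := by
    intro y hy
    have hrad := Exc_radN B α β ε x y z Y hB hα hβ hε hε1 hx hY hy
    rw [← hκ] at hrad
    obtain ⟨hy0, hxy, hht, hpz, -⟩ := hy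
    obtain ⟨h0, h1, h2⟩ := Exc_num B x y hx hy0 hxy
    rw [← ha, ← hb] at h0 h1 h2
    have hN0 : (x * y ^ B + 1).num ≠ 0 := Rat.num_ne_zero.2 hxy
    refine ⟨?_, ?_, a * y.num ^ B + b * (y.den : ℤ) ^ B, h0, ?_, ?_, ?_, ?_⟩
    · show IsCoprime y.num (y.den : ℤ)
      rw [Int.isCoprime_iff_nat_coprime]
      simpa using y.reduced
    · show (0 : ℤ) < (y.den : ℤ)
      exact_mod_cast y.den_pos
    · rw [hg, Exc_sum B a b _ _ ha0]
    · have e1 := Exc_rad _ _ _ hN0 (mul_ne_zero ha0 hb0) h2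
      have e2 : ((∏ r ∈ (a * y.num ^ B + b * (y.den : ℤ) ^ B).natAbs.primeFactors, r : ℕ) : ℝ) ≤
          ((a * b).natAbs : ℝ) *
            ((∏ r ∈ (x * y ^ B + 1).num.natAbs.primeFactors, r : ℕ) : ℝ) := by
        exact_mod_cast e1
      refine e2.trans ?_
      rw [← hm]
      exact mul_le_mul_of_nonneg_left hrad (by linarith)
    · intro r hr
      have hrp := Nat.prime_of_mem_primeFactors hr
      have hrd : (r : ℤ) ∣ a * y.num ^ B + b * (y.den : ℤ) ^ B :=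
        Int.natCast_dvd.2 (Nat.dvd_of_mem_primeFactors hr)
      rcases h2 r hrp hrd with h3 | h3
      · have := hpz r (Nat.mem_primeFactors.2 ⟨hrp, Int.natCast_dvd.1 h3, by simpa using hN0⟩)
        nlinarith
      · have e3 : r ≤ (a * b).natAbs :=
          Nat.le_of_dvd (Int.natAbs_pos.2 (mul_ne_zero ha0 hb0)) (Int.natCast_dvd.1 h3)
        have e4 : (r : ℝ) ≤ m := by rw [hm]; exact_mod_cast e3
        nlinarith
    · have e5 : Real.log (max |((y.num : ℤ) : ℝ)| |(((y.den : ℤ)) : ℝ)|) = ht y := by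
        unfold ht
        rw [Int.cast_natCast, Nat.abs_cast]
      show Real.log (max |((y.num : ℤ) : ℝ)| |(((y.den : ℤ)) : ℝ)|) ≤ max 1 (Real.log Y)
      rw [e5]
      exact hht.trans (le_max_right _ _)
  have hinj : Set.InjOn (fun y : ℚ => ((y.num, (y.den : ℤ)) : ℤ × ℤ)) (Exc B α β ε x z Y) := by
    intro y1 _ y2 _ h12
    simp only [Prod.mk.injEq, Nat.cast_inj] at h12
    exact Rat.ext h12.1 h12.2
  refine ⟨Set.Finite.of_injOn hmaps hinj hfin, ?_⟩
  have hc : ((Exc B α β ε x z Y).ncard : ℝ) ≤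
      ((Pairs g (m * (2 * Y ^ κ)) (m * z) (max 1 (Real.log Y))).ncard : ℝ) := by
    exact_mod_cast Set.ncard_le_ncard_of_injOn _ hmaps hinj hfin
  refine (hc.trans hcard).trans ?_
  have hlog : 1 + Real.log (max 1 (Real.log Y)) ≤ (1 + 2 / δ) * Y ^ (δ / 2) := by
    have i1 : 0 < max 1 (Real.log Y) := lt_of_lt_of_le one_pos (le_max_left _ _)
    have i2 := Real.log_le_sub_one_of_pos i1
    have i3 : Real.log Y ≤ Y ^ (δ / 2) / (δ / 2) := Real.log_le_rpow_div hYp.le (by positivity)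
    have i4 : 1 ≤ Y ^ (δ / 2) := Real.one_le_rpow hY (by positivity)
    have i5 : Y ^ (δ / 2) / (δ / 2) = 2 / δ * Y ^ (δ / 2) := by field_simp
    have i6 : 0 ≤ 2 / δ * Y ^ (δ / 2) := by positivity
    have i7 : max 1 (Real.log Y) ≤ (1 + 2 / δ) * Y ^ (δ / 2) := by
      apply max_le
      · linarith
      · linarith
    linarith
  have hpow : (m * (2 * Y ^ κ)) ^ e ≤ (2 * m) ^ e * Y ^ (2 * (1 - ε) / (B * (α * B + ε)) + δ / 2) := by
    have j1 : m * (2 * Y ^ κ) = (2 * m) * Y ^ κ := by ring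
    rw [j1, Real.mul_rpow (by positivity) (by positivity), ← Real.rpow_mul hYp.le]
    apply mul_le_mul_of_nonneg_left _ (by positivity)
    apply Real.rpow_le_rpow_of_exponent_le hY
    have j2 : κ * (2 / (B : ℝ)) = 2 * (1 - ε) / (B * (α * B + ε)) := by
      rw [hκ]
      field_simp
    rw [he, mul_add, j2]
    have : κ * (δ / 2) ≤ 1 * (δ / 2) := mul_le_mul_of_nonneg_right hκ1 (by positivity)
    linarith
  have hA : C0 * (m * z) * (m * (2 * Y ^ κ)) ^ e * (1 + Real.log (max 1 (Real.log Y))) ≤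
      max C0 0 * (m * z) * (m * (2 * Y ^ κ)) ^ e * (1 + Real.log (max 1 (Real.log Y))) := by
    have k1 : 0 ≤ 1 + Real.log (max 1 (Real.log Y)) := by
      have := Real.log_nonneg (le_max_left 1 (Real.log Y))
      linarith
    have k2 : 0 ≤ (m * (2 * Y ^ κ)) ^ e := by positivity
    have k3 : C0 * (m * z) ≤ max C0 0 * (m * z) :=
      mul_le_mul_of_nonneg_right (le_max_left _ _) (by positivity)
    exact mul_le_mul_of_nonneg_right (mul_le_mul_of_nonneg_right k3 k2) k1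
  refine hA.trans ?_
  have hM0 : 0 ≤ max C0 0 := le_max_right _ _
  calc max C0 0 * (m * z) * (m * (2 * Y ^ κ)) ^ e * (1 + Real.log (max 1 (Real.log Y))) ≤
      max C0 0 * (m * z) * ((2 * m) ^ e * Y ^ (2 * (1 - ε) / (B * (α * B + ε)) + δ / 2)) *
        ((1 + 2 / δ) * Y ^ (δ / 2)) := by
        apply mul_le_mul _ hlog _ (by positivity)
        · exact mul_le_mul_of_nonneg_left hpow (by positivity)
        · have := Real.log_nonneg (le_max_left 1 (Real.log Y))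
          linarith
    _ = max C0 0 * m * (2 * m) ^ e * (1 + 2 / δ) * z *
        (Y ^ (2 * (1 - ε) / (B * (α * B + ε)) + δ / 2) * Y ^ (δ / 2)) := by ring
    _ = _ := by
        rw [← Real.rpow_add hYp]
        congr 2
        ring

end Pool.Agent.TH876.TM
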