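import Mathlib
import Pool.Agent.TH876.TM.Def

set_option autoImplicit false

/-!
# Extension of an absolute value to a finite extension
-/

namespace Pool.Agent.TH876.TM

open NumberField IsDedekindDomain Finset Polynomial Pool.Agent.H691R3 Pool.Agent.TH876.Loc

theorem Ext_fv_exp {K : Type} [Field K] [NumberField K] (v : Pr K) {x : K} {n : ℤ}
    (h : v.valuation K x = WithZero.exp n) : fv v x = (Nv v) ^ n := by
  have h1 : fv v x = _ := NumberField.FinitePlace.norm_embedding' (v := v) (x := x)
  rw [h, WithZeroMulInt.toNNReal_neg_apply _ WithZero.exp_ne_zero] at h1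
  refine h1.trans ?_
  push_cast
  rfl

/-- a power of a nonarchimedean absolute value -/
theorem Ext_rpow {L : Type} [Field L] (b : AbsoluteValue L ℝ)
    (hb : ∀ z w : L, b (z + w) ≤ max (b z) (b w)) (s : ℝ) (hs : 0 < s) :
    ∃ a : AbsoluteValue L ℝ, (∀ z, a z = b z ^ s) ∧
      ∀ z w : L, a (z + w) ≤ max (a z) (a w) := by
  have hmax : ∀ z w : L, b (z + w) ^ s ≤ max (b z ^ s) (b w ^ s) := by
    intro z w
    rcases le_max_iff.1 (hb z w) with h | h
    · exact le_max_of_le_left (Real.rpow_le_rpow (b.nonneg _) h hs.le)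
    · exact le_max_of_le_right (Real.rpow_le_rpow (b.nonneg _) h hs.le)
  refine ⟨{ toFun := fun z => b z ^ s
            map_mul' := ?_
            nonneg' := ?_
            eq_zero' := ?_
            add_le' := ?_ }, fun z => rfl, hmax⟩
  · intro z w
    rw [map_mul, Real.mul_rpow (b.nonneg _) (b.nonneg _)]
  · intro z
    exact Real.rpow_nonneg (b.nonneg _) _
  · intro z
    rw [Real.rpow_eq_zero (b.nonneg _) hs.ne']
    exact b.eq_zero
  · intro z w
    refine (hmax z w).trans ?_
    exact max_le_add_of_nonneg (Real.rpow_nonneg (b.nonneg _) _) (Real.rpow_nonneg (b.nonneg _) _)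

variable (K : Type) [Field K] [NumberField K]

theorem ext : ExtS K := by
  intro v L _ _ hfin
  haveI : CharZero L := charZero_of_injective_algebraMap (algebraMap K L).injective
  haveI : NumberField L := NumberField.of_module_finite K L
  rcases v with w | v
  · obtain ⟨W, hW⟩ := InfinitePlace.comap_surjective (k := K) (K := L) w
    refine ⟨W.1, ?_, ?_⟩
    · intro z
      show W.1 (algebraMap K L z) = w.1 z
      rw [← hW]
      rfl
    · intro z y
      show W.1 (z + y) ≤ 2 * max (W.1 z) (W.1 y)
      refine (W.1.add_le z y).trans ?_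
      have h1 := le_max_left (W.1 z) (W.1 y)
      have h2 := le_max_right (W.1 z) (W.1 y)
      linarith
  · haveI : v.asIdeal.IsMaximal := v.isMaximal
    obtain ⟨Q, hQ, hQv⟩ :=
      Ideal.exists_maximal_ideal_liesOver_of_isIntegral (S := 𝓞 L) v.asIdeal
    have hQ0 : Q ≠ ⊥ := Ideal.ne_bot_of_liesOver_of_ne_bot v.ne_bot Q
    let w : HeightOneSpectrum (𝓞 L) := ⟨Q, hQ.isPrime, hQ0⟩
    haveI : w.asIdeal.LiesOver v.asIdeal := hQv
    obtain ⟨e, he⟩ : ∃ e : ℕ, e = v.asIdeal.ramificationIdx' w.asIdeal := ⟨_, rfl⟩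
    have he0 : e ≠ 0 := by
      rw [he]
      exact Ideal.IsDedekindDomain.ramificationIdx'_ne_zero_of_liesOver w.asIdeal v.ne_bot
    have hval : ∀ z : K, v.valuation K z ^ e = w.valuation L (algebraMap K L z) := by
      intro z
      rw [he]
      exact HeightOneSpectrum.valuation_liesOver L v w z
    have hv := log_Nv_pos v
    have hw := log_Nv_pos w
    have hv0 : 0 < Nv v := lt_of_lt_of_le two_pos (two_le_Nv v)
    have hw0 : 0 < Nv w := lt_of_lt_of_le two_pos (two_le_Nv w)
    have heR : (0 : ℝ) < e := by exact_mod_cast Nat.pos_of_ne_zero he0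
    obtain ⟨s, hs⟩ : ∃ s : ℝ, s = Real.log (Nv v) / (e * Real.log (Nv w)) := ⟨_, rfl⟩
    have hs0 : 0 < s := by rw [hs]; positivity
    obtain ⟨a, ha, hna⟩ := Ext_rpow (fv w) (fv_na w) s hs0
    refine ⟨a, ?_, ?_⟩
    · intro z
      show a (algebraMap K L z) = fv v z
      rw [ha]
      by_cases hz : z = 0
      · rw [hz, map_zero, map_zero, map_zero, Real.zero_rpow hs0.ne']
      · have hz1 : v.valuation K z ≠ 0 := (Valuation.ne_zero_iff _).mpr hz
        obtain ⟨n, hn⟩ : ∃ n : ℤ, v.valuation K z = WithZero.exp n :=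
          ⟨WithZero.log (v.valuation K z), (WithZero.exp_log hz1).symm⟩
        have hn' : w.valuation L (algebraMap K L z) = WithZero.exp ((e : ℤ) * n) := by
          rw [← hval, hn, ← WithZero.exp_nsmul]
          simp
        rw [Ext_fv_exp v hn, Ext_fv_exp w hn', ← Real.rpow_intCast, ← Real.rpow_intCast,
          ← Real.rpow_mul hw0.le, Real.rpow_def_of_pos hw0, Real.rpow_def_of_pos hv0]
        congr 1
        rw [hs]
        push_cast
        field_simp
    · intro z y
      show a (z + y) ≤ 1 * max (a z) (a y)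
      rw [one_mul]
      exact hna z y

end Pool.Agent.TH876.TM
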