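import Mathlib
import Pool.Agent.TH876.TM.Def

set_option autoImplicit false

/-!
# The gap principle and the product formula
-/

namespace Pool.Agent.TH876.TM

open NumberField IsDedekindDomain Finset Polynomial Pool.Agent.H691R3 Pool.Agent.TH876.Loc

section aux

variable {K : Type} [Field K] [NumberField K]

theorem Glob_height (x : K) {V : Finset (Pr K)} (hV : ∀ v, v ∉ V → fv v x ≤ 1) :
    ∑ v ∈ Spl V, hl v x = Height.logHeight₁ x := by
  rw [NumberField.logHeight₁_eq, sum_Spl]
  congr 1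
  · refine Finset.sum_congr rfl fun w _ => ?_
    rw [Real.posLog_eq_log_max_one (apply_nonneg _ _), max_comm]
    rfl
  · have h1 : ∑ᶠ v : Pr K, Real.log (max (fv v x) 1) = ∑ v ∈ V, hl (Sum.inr v : Pl K) x := by
      rw [finsum_eq_sum_of_support_subset (s := V)]
      · refine Finset.sum_congr rfl fun v _ => ?_
        show _ = 1 * Real.log (max (fv v x) 1)
        rw [one_mul]
      · intro v hv
        by_contra h
        rw [Function.mem_support] at hv
        apply hv
        rw [max_eq_right (hV v h), Real.log_one]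
    rw [← h1, ← finsum_comp_equiv (FinitePlace.equivHeightOneSpectrum (K := K)).symm]
    refine finsum_congr fun v => ?_
    rw [Real.posLog_eq_log_max_one (apply_nonneg _ _), max_comm]
    rfl

theorem Glob_fin (x : K) : {v : Pr K | ¬ fv v x ≤ 1}.Finite := by
  by_cases hx : x = 0
  · refine Set.Finite.subset Set.finite_empty ?_
    intro v hv
    apply hv
    rw [hx, map_zero]
    exact zero_le_one
  · refine (fv_support_finite hx).subset ?_
    intro v hv h
    exact hv h.le

/-- a finite set of primes outside which `x` is integral and `z` is a unit -/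
theorem Glob_big (x y z : K) (hz : z ≠ 0) (W : Finset (Pr K)) : ∃ V : Finset (Pr K), W ⊆ V ∧
    (∀ v, v ∉ V → fv v x ≤ 1) ∧ (∀ v, v ∉ V → fv v y ≤ 1) ∧ ∀ v, v ∉ V → fv v z = 1 := by
  classical
  refine ⟨W ∪ ((Glob_fin x).toFinset ∪ ((Glob_fin y).toFinset ∪ (fv_support_finite hz).toFinset)),
    Finset.subset_union_left, fun v hv => ?_, fun v hv => ?_, fun v hv => ?_⟩ <;>
  · rw [Finset.mem_union, Finset.mem_union, Finset.mem_union, not_or, not_or, not_or,
      Set.Finite.mem_toFinset, Set.Finite.mem_toFinset, Set.Finite.mem_toFinset] at hv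
    first
      | exact not_not.mp hv.2.1
      | exact not_not.mp hv.2.2.1
      | exact not_not.mp hv.2.2.2

theorem Glob_lam {f : K[X]} (q : ℕ) {x : K} (hx : f.eval x ≠ 0) {V : Finset (Pr K)}
    (h1 : ∀ v, v ∉ V → fv v x ≤ 1) (h2 : ∀ v, v ∉ V → fv v (f.eval x) = 1) :
    ∑ v ∈ Spl V, lam f q v x = q * Height.logHeight₁ x := by
  unfold lam
  rw [Finset.sum_sub_distrib, ← Finset.mul_sum, Glob_height x h1, sum_lg hx h2, sub_zero]

theorem Glob_ds {x y : K} (hxy : x ≠ y) {V : Finset (Pr K)}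
    (h1 : ∀ v, v ∉ V → fv v x ≤ 1) (h2 : ∀ v, v ∉ V → fv v y ≤ 1)
    (h3 : ∀ v, v ∉ V → fv v (x - y) = 1) :
    ∑ v ∈ Spl V, ds v x y = Height.logHeight₁ x + Height.logHeight₁ y := by
  unfold ds
  rw [Finset.sum_sub_distrib, Finset.sum_add_distrib, Glob_height x h1, Glob_height y h2,
    sum_lg (sub_ne_zero.mpr hxy) h3, sub_zero]

theorem Glob_ds_nonneg (v : Pr K) {x y : K} (hxy : x ≠ y) : 0 ≤ ds (Sum.inr v : Pl K) x y := by
  show 0 ≤ 1 * Real.log (max (fv v x) 1) + 1 * Real.log (max (fv v y) 1) -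
    1 * Real.log (fv v (x - y))
  rw [one_mul, one_mul, one_mul]
  have h0 : 0 < fv v (x - y) := (fv v).pos (sub_ne_zero.mpr hxy)
  have hx1 : (1 : ℝ) ≤ max (fv v x) 1 := le_max_right _ _
  have hy1 : (1 : ℝ) ≤ max (fv v y) 1 := le_max_right _ _
  have h1 : fv v (x - y) ≤ max (fv v x) 1 * max (fv v y) 1 := by
    have h2 := fv_na v x (-y)
    rw [← sub_eq_add_neg, (fv v).map_neg] at h2
    refine h2.trans (max_le ?_ ?_)
    · calc fv v x ≤ max (fv v x) 1 * 1 := by rw [mul_one]; exact le_max_left _ _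
        _ ≤ _ := mul_le_mul_of_nonneg_left hy1 (by linarith)
    · calc fv v y ≤ 1 * max (fv v y) 1 := by rw [one_mul]; exact le_max_left _ _
        _ ≤ _ := mul_le_mul_of_nonneg_right hx1 (by linarith)
  have h2 := Real.log_le_log h0 h1
  rw [Real.log_mul (by linarith) (by linarith)] at h2
  linarith

open Classical in
theorem Glob_tot {S0 T : Finset (Pr K)} (h : Disjoint T S0) (g : Pl K → ℝ) :
    tot S0 T g = ∑ v ∈ Spl (T ∪ S0), g v := by
  unfold tot
  rw [sum_Spl, Finset.sum_union h]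
  ring

/-- enlarging the set of primes -/
theorem Glob_mono {A V : Finset (Pr K)} (h : A ⊆ V) (g : Pl K → ℝ)
    (hg : ∀ v, v ∉ A → 0 ≤ g (Sum.inr v : Pl K)) : ∑ v ∈ Spl A, g v ≤ ∑ v ∈ Spl V, g v := by
  refine Finset.sum_le_sum_of_subset_of_nonneg (Spl_mono h) ?_
  rintro (w | v) _ hv
  · exact absurd (inl_mem_Spl _ w) hv
  · rw [inr_mem_Spl] at hv
    exact hg v hv

theorem Glob_eq {A V : Finset (Pr K)} (h : A ⊆ V) (g : Pl K → ℝ)
    (hg : ∀ v, v ∉ A → g (Sum.inr v : Pl K) = 0) : ∑ v ∈ Spl A, g v = ∑ v ∈ Spl V, g v := by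
  refine Finset.sum_subset (Spl_mono h) ?_
  rintro (w | v) _ hv
  · exact absurd (inl_mem_Spl _ w) hv
  · rw [inr_mem_Spl] at hv
    exact hg v hv

end aux

variable (K : Type) [Field K] [NumberField K]

theorem glob : GlobS K := by
  classical
  intro f q S0 c typ hs
  refine ⟨c * (S0.card + Fintype.card (InfinitePlace K)), ?_, ?_, ?_, ?_⟩
  · have := hs.c0
    positivity
  · intro x y T hx hy hxy hT htyp
    obtain ⟨V, hV, h1, h2, h3⟩ := Glob_big x y (x - y) (sub_ne_zero.mpr hxy) (T ∪ S0)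
    rw [← Glob_ds hxy h1 h2 h3]
    have h4 := Glob_mono hV (fun v => ds v x y) (fun v _ => Glob_ds_nonneg v hxy)
    have h5 : tot S0 T (fun v => min (lam f q v x) (lam f q v y)) ≤
        tot S0 T (fun v => ds v x y) + c * (S0.card + Fintype.card (InfinitePlace K)) := by
      unfold tot
      have e1 : ∑ v ∈ T, min (lam f q (Sum.inr v : Pl K) x) (lam f q (Sum.inr v : Pl K) y) ≤
          ∑ v ∈ T, ds (Sum.inr v : Pl K) x y := by
        refine Finset.sum_le_sum fun v hv => ?_
        exact hs.gap0 v (Finset.disjoint_left.mp hT hv) x y hx hy hxy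
          (htyp _ (Or.inl ((inr_mem_Spl T v).mpr hv)))
      have e2 : ∑ v ∈ S0, min (lam f q (Sum.inr v : Pl K) x) (lam f q (Sum.inr v : Pl K) y) ≤
          ∑ v ∈ S0, (ds (Sum.inr v : Pl K) x y + c) := by
        refine Finset.sum_le_sum fun v hv => ?_
        exact hs.gap _ x y hx hy hxy (htyp _ (Or.inr ((inr_mem_Spl S0 v).mpr hv)))
      have e3 : ∑ w : InfinitePlace K,
          min (lam f q (Sum.inl w : Pl K) x) (lam f q (Sum.inl w : Pl K) y) ≤
          ∑ w : InfinitePlace K, (ds (Sum.inl w : Pl K) x y + c) := by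
        refine Finset.sum_le_sum fun w _ => ?_
        exact hs.gap _ x y hx hy hxy (htyp _ (Or.inl (inl_mem_Spl T w)))
      rw [Finset.sum_add_distrib, Finset.sum_const, nsmul_eq_mul] at e2 e3
      rw [Finset.card_univ] at e3
      linarith
    rw [Glob_tot hT (fun v => ds v x y)] at h5
    linarith
  · intro x T hx hT
    obtain ⟨V, hV, h1, -, h3⟩ := Glob_big x x (f.eval x) hx (T ∪ S0)
    rw [← Glob_lam q hx h1 h3, Glob_tot hT]
    refine Glob_mono hV (fun v => lam f q v x) fun v hv => ?_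
    rw [Finset.mem_union, not_or] at hv
    exact hs.nonneg v hv.2 x hx
  · intro x hx
    obtain ⟨V, hV, h1, -, h3⟩ := Glob_big x x (f.eval x) hx S0
    have h4 : ∀ v, v ∉ V → lam f q (Sum.inr v : Pl K) x = 0 := by
      intro v hv
      show (q : ℝ) * (1 * Real.log (max (fv v x) 1)) - 1 * Real.log (fv v (f.eval x)) = 0
      rw [max_eq_right (h1 v hv), h3 v hv, Real.log_one]
      ring
    have hB : ∀ v, v ∈ V.filter (fun v => v ∉ S0 ∧ 0 < lam f q (Sum.inr v : Pl K) x) ↔
        v ∉ S0 ∧ 0 < lam f q (Sum.inr v : Pl K) x := by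
      intro v
      rw [Finset.mem_filter]
      refine ⟨fun h => h.2, fun h => ⟨?_, h⟩⟩
      by_contra hv
      exact absurd (h4 v hv) h.2.ne'
    have hd : Disjoint (V.filter (fun v => v ∉ S0 ∧ 0 < lam f q (Sum.inr v : Pl K) x)) S0 := by
      rw [Finset.disjoint_left]
      intro v hv
      exact ((hB v).mp hv).1
    refine ⟨V.filter (fun v => v ∉ S0 ∧ 0 < lam f q (Sum.inr v : Pl K) x), hB, ?_⟩
    rw [← Glob_lam q hx h1 h3, Glob_tot hd]
    refine Glob_eq ?_ (fun v => lam f q v x) fun v hv => ?_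
    · exact Finset.union_subset (Finset.filter_subset _ _) hV
    · rw [Finset.mem_union, not_or, hB] at hv
      have h5 := hs.nonneg v hv.2 x hx
      have h6 : ¬ 0 < lam f q (Sum.inr v : Pl K) x := fun h => hv.1 ⟨hv.2, h⟩
      exact le_antisymm (not_lt.mp h6) h5

end Pool.Agent.TH876.TM
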