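import Mathlib
import Pool.Agent.TH876.TM.Def

set_option autoImplicit false

/-!
# The local data from the extension of absolute values
-/

namespace Pool.Agent.TH876.TM

open NumberField IsDedekindDomain Finset Polynomial Pool.Agent.H691R3 Pool.Agent.TH876.Loc

/-- the normalised distance of `x` from the `i`-th zero (from infinity if `n ≤ i`) -/
noncomputable def Local_E {L : Type} [Field L] (a : AbsoluteValue L ℝ) (n : ℕ) (α : ℕ → L) (i : ℕ)
    (x : L) : ℝ := if i < n then a (x - α i) / max (a x) 1 else 1 / max (a x) 1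

/-- the constants at one place -/
structure Local_H {L : Type} [Field L] (a : AbsoluteValue L ℝ) (n : ℕ) (α : ℕ → L)
    (C A κ : ℝ) : Prop where
  C1 : 1 ≤ C
  A1 : 1 ≤ A
  k0 : 0 < κ
  k1 : κ ≤ 1
  tri : ∀ z w, a (z + w) ≤ C * max (a z) (a w)
  hA : ∀ i < n, a (α i) ≤ A
  hk : ∀ i < n, ∀ j < n, i ≠ j → κ ≤ a (α i - α j)

section one

variable {L : Type} [Field L] {a : AbsoluteValue L ℝ} {n : ℕ} {α : ℕ → L} {C A κ : ℝ}

theorem Local_M0 (a : AbsoluteValue L ℝ) (x : L) : 0 < max (a x) 1 :=
  lt_of_lt_of_le one_pos (le_max_right _ _)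

theorem Local_sub (h : Local_H a n α C A κ) (z w : L) : a (z - w) ≤ C * max (a z) (a w) := by
  have h1 := h.tri z (-w)
  rwa [← sub_eq_add_neg, a.map_neg] at h1

theorem Local_E_pos (i : ℕ) (x : L) (hx : i < n → x ≠ α i) : 0 < Local_E a n α i x := by
  unfold Local_E
  split_ifs with hi
  · exact div_pos (a.pos (sub_ne_zero.2 (hx hi))) (Local_M0 a x)
  · exact div_pos one_pos (Local_M0 a x)

theorem Local_E_le (h : Local_H a n α C A κ) (i : ℕ) (x : L) : Local_E a n α i x ≤ C * A := by
  have hM := Local_M0 a x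
  have hM1 : 1 ≤ max (a x) 1 := le_max_right _ _
  have hC := h.C1
  have hA := h.A1
  unfold Local_E
  split_ifs with hi
  · rw [div_le_iff₀ hM]
    refine (Local_sub h _ _).trans ?_
    rw [mul_assoc]
    refine mul_le_mul_of_nonneg_left (max_le ?_ ?_) (by linarith)
    · have h1 : a x ≤ max (a x) 1 := le_max_left _ _
      nlinarith
    · have h1 := h.hA i hi
      nlinarith
  · rw [div_le_iff₀ hM]
    nlinarith [mul_le_mul hC hA zero_le_one (by linarith)]

theorem Local_M_le (h : Local_H a n α C A κ) {i : ℕ} (hi : i < n) (x : L) :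
    max (a x) 1 ≤ C * max (a (x - α i)) A := by
  have h1 := h.tri (x - α i) (α i)
  rw [sub_add_cancel] at h1
  have hC := h.C1
  have hA := h.A1
  have h2 : max (a (x - α i)) (a (α i)) ≤ max (a (x - α i)) A :=
    max_le_max le_rfl (h.hA i hi)
  refine max_le (h1.trans (mul_le_mul_of_nonneg_left h2 (by linarith))) ?_
  have h3 : 1 ≤ max (a (x - α i)) A := hA.trans (le_max_right _ _)
  nlinarith

theorem Local_b1 (h : Local_H a n α C A κ) : κ / (C ^ 2 * A) * C ≤ 1 := by
  have hC := h.C1
  have hA := h.A1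
  have h1 : 0 < C ^ 2 * A := by positivity
  rw [div_mul_eq_mul_div, div_le_one h1]
  nlinarith [h.k1, h.k0, mul_le_mul hC hA zero_le_one (by linarith), mul_pos (lt_of_lt_of_le one_pos hC) (lt_of_lt_of_le one_pos hA)]

theorem Local_sep_aux (h : Local_H a n α C A κ) {i j : ℕ} (hij : i ≠ j) (hi : i < n)
    (x : L) : κ / (C ^ 2 * A) ≤ max (Local_E a n α i x) (Local_E a n α j x) := by
  have hM := Local_M0 a x
  have hC := h.C1
  have hA := h.A1
  have hC0 : 0 < C := by linarith
  have hA0 : 0 < A := by linarith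
  have hk0 := h.k0
  have hk1 := h.k1
  have hb1 := Local_b1 h
  have hb0 : 0 < κ / (C ^ 2 * A) := by positivity
  have hML := Local_M_le h hi x
  by_cases h1 : A ≤ a (x - α i)
  · refine le_max_of_le_left ?_
    unfold Local_E
    rw [if_pos hi, le_div_iff₀ hM]
    rw [max_eq_left h1] at hML
    calc κ / (C ^ 2 * A) * max (a x) 1 ≤ κ / (C ^ 2 * A) * (C * a (x - α i)) :=
          mul_le_mul_of_nonneg_left hML hb0.le
      _ = κ / (C ^ 2 * A) * C * a (x - α i) := by ring
      _ ≤ 1 * a (x - α i) := mul_le_mul_of_nonneg_right hb1 (a.nonneg _)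
      _ = a (x - α i) := one_mul _
  · rw [max_eq_right (not_le.1 h1).le] at hML
    by_cases hj : j < n
    · have h2 := Local_sub h (x - α j) (x - α i)
      have h3 : x - α j - (x - α i) = α i - α j := by ring
      rw [h3] at h2
      have h4 := (h.hk i hi j hj hij).trans h2
      unfold Local_E
      rw [if_pos hi, if_pos hj, max_div_div_right hM.le, le_div_iff₀ hM,
        div_mul_eq_mul_div, div_le_iff₀ (by positivity), max_comm (a (x - α i)) (a (x - α j))]
      calc κ * max (a x) 1 ≤ (C * max (a (x - α j)) (a (x - α i))) * (C * A) :=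
            mul_le_mul h4 hML hM.le (mul_nonneg hC0.le (le_max_of_le_left (a.nonneg _)))
        _ = max (a (x - α j)) (a (x - α i)) * (C ^ 2 * A) := by ring
    · refine le_max_of_le_right ?_
      unfold Local_E
      rw [if_neg hj, le_div_iff₀ hM]
      calc κ / (C ^ 2 * A) * max (a x) 1 ≤ κ / (C ^ 2 * A) * (C * A) :=
            mul_le_mul_of_nonneg_left hML hb0.le
        _ = κ / C := by field_simp
        _ ≤ 1 := by
          rw [div_le_one hC0]
          linarith

theorem Local_sep (h : Local_H a n α C A κ) {i j : ℕ} (hij : i ≠ j) (hi : i ≤ n) (hj : j ≤ n)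
    (x : L) : κ / (C ^ 2 * A) ≤ max (Local_E a n α i x) (Local_E a n α j x) := by
  rcases Nat.lt_or_ge i n with h1 | h1
  · exact Local_sep_aux h hij h1 x
  · have h2 : j < n := by omega
    rw [max_comm]
    exact Local_sep_aux h hij.symm h2 x

theorem Local_gap (h : Local_H a n α C A κ) (i : ℕ) (x y : L) :
    a (x - y) ≤ C * max (Local_E a n α i x) (Local_E a n α i y) *
      (max (a x) 1 * max (a y) 1) := by
  have hM := Local_M0 a x
  have hN := Local_M0 a y
  have hM1 : 1 ≤ max (a x) 1 := le_max_right _ _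
  have hN1 : 1 ≤ max (a y) 1 := le_max_right _ _
  have hC := h.C1
  rw [mul_assoc]
  by_cases hi : i < n
  · have h2 := Local_sub h (x - α i) (y - α i)
    have h3 : x - α i - (y - α i) = x - y := by ring
    rw [h3] at h2
    refine h2.trans (mul_le_mul_of_nonneg_left ?_ (by linarith))
    rw [max_mul_of_nonneg _ _ (by positivity)]
    unfold Local_E
    rw [if_pos hi, if_pos hi]
    refine max_le_max ?_ ?_
    · have h4 : a (x - α i) / max (a x) 1 * (max (a x) 1 * max (a y) 1) =
          a (x - α i) * max (a y) 1 := by field_simp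
      rw [h4]
      exact le_mul_of_one_le_right (a.nonneg _) hN1
    · have h4 : a (y - α i) / max (a y) 1 * (max (a x) 1 * max (a y) 1) =
          a (y - α i) * max (a x) 1 := by field_simp
      rw [h4]
      exact le_mul_of_one_le_right (a.nonneg _) hM1
  · refine (Local_sub h x y).trans (mul_le_mul_of_nonneg_left ?_ (by linarith))
    rw [max_mul_of_nonneg _ _ (by positivity)]
    unfold Local_E
    rw [if_neg hi, if_neg hi, max_comm]
    refine max_le_max ?_ ?_
    · have h4 : 1 / max (a x) 1 * (max (a x) 1 * max (a y) 1) = max (a y) 1 := by field_simp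
      rw [h4]
      exact le_max_left _ _
    · have h4 : 1 / max (a y) 1 * (max (a x) 1 * max (a y) 1) = max (a x) 1 := by field_simp
      rw [h4]
      exact le_max_left _ _

/-- the local intersection number, without the multiplicity -/
noncomputable def Local_lam (a : AbsoluteValue L ℝ) (n q : ℕ) (α : ℕ → L) (l x : L) : ℝ :=
  q * Real.log (max (a x) 1) - Real.log (a (l * ∏ i ∈ range n, (x - α i)))

theorem Local_sum (q : ℕ) (hq : n ≤ q) (hq' : q ≤ n + 1) {l x : L} (hl : l ≠ 0)
    (hx : ∀ i < n, x ≠ α i) : Local_lam a n q α l x =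
      - Real.log (a l) - ∑ i ∈ range q, Real.log (Local_E a n α i x) := by
  have hM := Local_M0 a x
  have h1 : ∀ i ∈ range n, Real.log (Local_E a n α i x) =
      Real.log (a (x - α i)) - Real.log (max (a x) 1) := by
    intro i hi
    have hi' := Finset.mem_range.1 hi
    unfold Local_E
    rw [if_pos hi', Real.log_div (a.pos (sub_ne_zero.2 (hx i hi'))).ne' hM.ne']
  have h2 : Real.log (a (l * ∏ i ∈ range n, (x - α i))) =
      Real.log (a l) + ∑ i ∈ range n, Real.log (a (x - α i)) := by
    rw [map_mul, Real.log_mul (a.pos hl).ne', map_prod, Real.log_prod]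
    · intro i hi
      exact (a.pos (sub_ne_zero.2 (hx i (Finset.mem_range.1 hi)))).ne'
    · rw [map_prod]
      exact Finset.prod_ne_zero_iff.2 fun i hi =>
        (a.pos (sub_ne_zero.2 (hx i (Finset.mem_range.1 hi)))).ne'
  have h3 : ∑ i ∈ range n, Real.log (Local_E a n α i x) =
      ∑ i ∈ range n, Real.log (a (x - α i)) - n * Real.log (max (a x) 1) := by
    rw [Finset.sum_congr rfl h1, Finset.sum_sub_distrib, Finset.sum_const, Finset.card_range,
      nsmul_eq_mul]
  unfold Local_lam
  rw [h2]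
  rcases Nat.lt_or_ge n q with h4 | h4
  · have h5 : q = n + 1 := by omega
    subst h5
    rw [Finset.sum_range_succ, h3]
    have h6 : Real.log (Local_E a n α n x) = - Real.log (max (a x) 1) := by
      unfold Local_E
      rw [if_neg (lt_irrefl n), Real.log_div one_ne_zero hM.ne', Real.log_one, zero_sub]
    rw [h6]
    push_cast
    ring
  · have h5 : q = n := by omega
    subst h5
    rw [h3]
    ring

/-- the logarithm of the constant -/
noncomputable def Local_k (C A κ : ℝ) : ℝ := Real.log (C ^ 2 * A / κ)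

theorem Local_k_nonneg (h : Local_H a n α C A κ) : 0 ≤ Local_k C A κ := by
  have hC := h.C1
  have hA := h.A1
  refine Real.log_nonneg ?_
  rw [le_div_iff₀ h.k0, one_mul]
  have h1 : 1 ≤ C ^ 2 * A := by nlinarith [mul_le_mul hC hA zero_le_one (by linarith)]
  exact h.k1.trans h1

theorem Local_logE_le (h : Local_H a n α C A κ) (i : ℕ) (x : L) (hx : i < n → x ≠ α i) :
    Real.log (Local_E a n α i x) ≤ Local_k C A κ := by
  have hC := h.C1
  have hA := h.A1
  refine Real.log_le_log (Local_E_pos i x hx) ((Local_E_le h i x).trans ?_)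
  rw [le_div_iff₀ h.k0]
  have h1 : C * A * κ ≤ C * A * 1 := mul_le_mul_of_nonneg_left h.k1 (by positivity)
  have h2 : C * A ≤ C ^ 2 * A := by
    rw [pow_two, mul_assoc]
    exact le_mul_of_one_le_left (by positivity) hC
  linarith

theorem Local_logC_le (h : Local_H a n α C A κ) : Real.log C ≤ Local_k C A κ := by
  have hC := h.C1
  have hA := h.A1
  refine Real.log_le_log (by linarith) ?_
  rw [le_div_iff₀ h.k0]
  have h1 : C * κ ≤ C * 1 := mul_le_mul_of_nonneg_left h.k1 (by positivity)
  have h2 : C ≤ C ^ 2 * A := by nlinarith [mul_le_mul hC hA zero_le_one (by linarith)]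
  linarith

theorem Local_low (h : Local_H a n α C A κ) (q : ℕ) (hq : n ≤ q) (hq' : q ≤ n + 1) {l x : L}
    (hl : l ≠ 0) (hx : ∀ i < n, x ≠ α i) :
    -(|Real.log (a l)| + (q + 1) * Local_k C A κ) ≤ Local_lam a n q α l x := by
  rw [Local_sum q hq hq' hl hx]
  have h1 : ∑ i ∈ range q, Real.log (Local_E a n α i x) ≤ ∑ _i ∈ range q, Local_k C A κ :=
    Finset.sum_le_sum fun i _ => Local_logE_le h i x (hx i)
  rw [Finset.sum_const, Finset.card_range, nsmul_eq_mul] at h1
  have h2 := le_abs_self (Real.log (a l))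
  have h3 := Local_k_nonneg h
  linarith

theorem Local_up (h : Local_H a n α C A κ) (q : ℕ) (hq : n ≤ q) (hq' : q ≤ n + 1) {l x : L}
    (hl : l ≠ 0) (hx : ∀ i < n, x ≠ α i) {t : ℕ} (ht : t < q)
    (hmin : ∀ i < q, Local_E a n α t x ≤ Local_E a n α i x) :
    Local_lam a n q α l x ≤ |Real.log (a l)| + q * Local_k C A κ -
      Real.log (Local_E a n α t x) := by
  rw [Local_sum q hq hq' hl hx]
  have hC := h.C1
  have hA := h.A1
  have hb0 : 0 < κ / (C ^ 2 * A) := by have := h.k0; positivity
  have h1 : ∀ i ∈ (range q).erase t, -Local_k C A κ ≤ Real.log (Local_E a n α i x) := by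
    intro i hi
    obtain ⟨h2, h3⟩ := Finset.mem_erase.1 hi
    have h4 := Finset.mem_range.1 h3
    have h5 := Local_sep h h2 (by omega : i ≤ n) (by omega : t ≤ n) x
    rw [max_eq_left (hmin i h4)] at h5
    have h6 := Real.log_le_log hb0 h5
    have h7 : Real.log (κ / (C ^ 2 * A)) = -Local_k C A κ := by
      unfold Local_k
      rw [← Real.log_inv, inv_div]
    rwa [h7] at h6
  have h2 := Finset.sum_le_sum h1
  rw [Finset.sum_const, Finset.card_erase_of_mem (Finset.mem_range.2 ht), Finset.card_range,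
    nsmul_eq_mul] at h2
  have h3 := Finset.add_sum_erase (range q) (fun i => Real.log (Local_E a n α i x))
    (Finset.mem_range.2 ht)
  have h4 := neg_abs_le (Real.log (a l))
  have h5 := Local_k_nonneg h
  have h6 : ((q - 1 : ℕ) : ℝ) ≤ q := by exact_mod_cast Nat.sub_le q 1
  have h7 := mul_le_mul_of_nonneg_right h6 h5
  have h8 : ((q - 1 : ℕ) : ℝ) * -Local_k C A κ = -(((q - 1 : ℕ) : ℝ) * Local_k C A κ) := by ring
  rw [h8] at h2
  linarith

theorem Local_min (h : Local_H a n α C A κ) (q : ℕ) (hq : n ≤ q) (hq' : q ≤ n + 1) {l x y : L}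
    (hl : l ≠ 0) (hx : ∀ i < n, x ≠ α i) (hy : ∀ i < n, y ≠ α i) (hxy : x ≠ y) {t : ℕ}
    (ht : t < q) (hmx : ∀ i < q, Local_E a n α t x ≤ Local_E a n α i x)
    (hmy : ∀ i < q, Local_E a n α t y ≤ Local_E a n α i y) :
    min (Local_lam a n q α l x) (Local_lam a n q α l y) ≤
      (Real.log (max (a x) 1) + Real.log (max (a y) 1) - Real.log (a (x - y))) +
        (|Real.log (a l)| + (q + 1) * Local_k C A κ) := by
  have hM := Local_M0 a x
  have hN := Local_M0 a y
  have hC := h.C1
  have h1 := Local_up h q hq hq' hl hx ht hmx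
  have h2 := Local_up h q hq hq' hl hy ht hmy
  have hEx := Local_E_pos (a := a) t x (hx t)
  have hEy := Local_E_pos (a := a) t y (hy t)
  have h3 := Real.log_le_log (a.pos (sub_ne_zero.2 hxy)) (Local_gap h t x y)
  have hmax : 0 < max (Local_E a n α t x) (Local_E a n α t y) := lt_max_of_lt_left hEx
  rw [Real.log_mul (by positivity) (by positivity), Real.log_mul (by positivity) hmax.ne',
    Real.log_mul hM.ne' hN.ne'] at h3
  have h4 := Local_logC_le h
  rcases le_total (Local_E a n α t x) (Local_E a n α t y) with h5 | h5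
  · rw [max_eq_right h5] at h3
    refine (min_le_right _ _).trans ?_
    linarith
  · rw [max_eq_left h5] at h3
    refine (min_le_left _ _).trans ?_
    linarith

end one


section two

variable {K : Type} [Field K] [NumberField K]

theorem Local_sum_le {L : Type} [Field L] {a : AbsoluteValue L ℝ}
    (ha : ∀ z w, a (z + w) ≤ max (a z) (a w)) {ι : Type} (s : Finset ι) (f : ι → L) (B : ℝ)
    (hB : 0 ≤ B) (h : ∀ i ∈ s, a (f i) ≤ B) : a (∑ i ∈ s, f i) ≤ B := by
  classical
  induction s using Finset.induction_on with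
  | empty => simpa using hB
  | insert i s hi ih =>
    rw [Finset.sum_insert hi]
    refine (ha _ _).trans (max_le (h i (Finset.mem_insert_self _ _)) (ih ?_))
    exact fun j hj => h j (Finset.mem_insert_of_mem hj)

theorem Local_fin_K (z : K) : ∃ S : Finset (Pr K), ∀ v : Pr K, v ∉ S → fv v z ≤ 1 := by
  by_cases hz : z = 0
  · exact ⟨∅, fun v _ => by rw [hz, map_zero]; exact zero_le_one⟩
  · refine ⟨(fv_support_finite hz).toFinset, fun v hv => ?_⟩
    rw [Set.Finite.mem_toFinset] at hv
    have h1 : fv v z = 1 := by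
      by_contra h
      exact hv h
    exact h1.le

theorem Local_fin_one {L : Type} [Field L] [Algebra K L] [FiniteDimensional K L] (β : L) :
    ∃ S : Finset (Pr K), ∀ v : Pr K, v ∉ S → ∀ a : AbsoluteValue L ℝ,
      (∀ z : K, a (algebraMap K L z) = fv v z) → (∀ z w : L, a (z + w) ≤ max (a z) (a w)) →
      a β ≤ 1 := by
  classical
  obtain ⟨p, hp⟩ : ∃ p : K[X], p = minpoly K β := ⟨_, rfl⟩
  have hint : IsIntegral K β := IsIntegral.of_finite K β
  have hmon : p.Monic := hp ▸ minpoly.monic hint
  have hdeg : 0 < p.natDegree := hp ▸ minpoly.natDegree_pos hint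
  have hroot : aeval β p = 0 := hp ▸ minpoly.aeval K β
  choose S hS using fun i : ℕ => Local_fin_K (p.coeff i)
  refine ⟨(range p.natDegree).biUnion S, fun v hv a hav ha => ?_⟩
  by_contra hβ
  rw [not_le] at hβ
  rw [aeval_eq_sum_range, Finset.sum_range_succ, hmon.coeff_natDegree, one_smul] at hroot
  have h1 : β ^ p.natDegree = -∑ i ∈ range p.natDegree, p.coeff i • β ^ i := by
    rw [eq_neg_iff_add_eq_zero, add_comm]
    exact hroot
  have h2 : a (β ^ p.natDegree) ≤ a β ^ (p.natDegree - 1) := by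
    rw [h1, a.map_neg]
    refine Local_sum_le ha _ _ _ (pow_nonneg (a.nonneg _) _) fun i hi => ?_
    have hi' := Finset.mem_range.1 hi
    rw [Algebra.smul_def, map_mul, hav, map_pow]
    have h3 : fv v (p.coeff i) ≤ 1 := by
      refine hS i v fun h => hv ?_
      exact Finset.mem_biUnion.2 ⟨i, hi, h⟩
    calc fv v (p.coeff i) * a β ^ i ≤ 1 * a β ^ (p.natDegree - 1) :=
          mul_le_mul h3 (pow_le_pow_right₀ hβ.le (by omega)) (pow_nonneg (a.nonneg _) _)
            zero_le_one
      _ = a β ^ (p.natDegree - 1) := one_mul _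
  rw [map_pow] at h2
  have h4 : a β ^ (p.natDegree - 1) < a β ^ p.natDegree :=
    pow_lt_pow_right₀ hβ (by omega)
  linarith

theorem Local_fin {L : Type} [Field L] [Algebra K L] [FiniteDimensional K L] (T : Finset L) :
    ∃ S : Finset (Pr K), ∀ v : Pr K, v ∉ S → ∀ a : AbsoluteValue L ℝ,
      (∀ z : K, a (algebraMap K L z) = fv v z) → (∀ z w : L, a (z + w) ≤ max (a z) (a w)) →
      ∀ β ∈ T, a β ≤ 1 := by
  classical
  choose S hS using fun β : L => Local_fin_one (K := K) β
  refine ⟨T.biUnion S, fun v hv a hav ha β hβ => hS β v (fun h => hv ?_) a hav ha⟩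
  exact Finset.mem_biUnion.2 ⟨β, hβ, h⟩

/-- the zeros -/
theorem Local_roots {f : K[X]} (hf : Squarefree f) : ∃ α : ℕ → f.SplittingField,
    (∀ i < f.natDegree, ∀ j < f.natDegree, i ≠ j → α i ≠ α j) ∧
    f.map (algebraMap K f.SplittingField) = C (algebraMap K f.SplittingField f.leadingCoeff) *
      ∏ i ∈ range f.natDegree, (X - C (α i)) := by
  classical
  have hsplit := SplittingField.splits f
  have hsep : (f.map (algebraMap K f.SplittingField)).Separable :=
    (PerfectField.separable_iff_squarefree.2 hf).map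
  have hnd := nodup_roots hsep
  obtain ⟨R, hR⟩ : ∃ R : Finset f.SplittingField,
      R.val = (f.map (algebraMap K f.SplittingField)).roots := ⟨⟨_, hnd⟩, rfl⟩
  have hcard : R.card = f.natDegree := by
    rw [Finset.card_def, hR, ← hsplit.natDegree_eq_card_roots, natDegree_map]
  let e := R.equivFinOfCardEq hcard
  refine ⟨fun i => if h : i < f.natDegree then (e.symm ⟨i, h⟩ : f.SplittingField) else 0, ?_, ?_⟩
  · intro i hi j hj hij h
    simp only [dif_pos hi, dif_pos hj] at h
    have h1 := e.symm.injective (Subtype.ext h)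
    exact hij (congrArg Fin.val h1)
  · conv_lhs => rw [hsplit.eq_prod_roots]
    rw [leadingCoeff_map]
    congr 1
    rw [← hR]
    change ∏ x ∈ R, (X - C x) = _
    rw [← Finset.prod_coe_sort, ← Equiv.prod_comp e.symm, Finset.prod_range]
    refine Finset.prod_congr rfl fun i _ => ?_
    change X - C ((e.symm i : R) : f.SplittingField) = X - C (if h : (i : ℕ) < f.natDegree then
      ((e.symm ⟨i, h⟩ : R) : f.SplittingField) else 0)
    rw [dif_pos i.2]

theorem Local_exists (h : ExtS K) (f : K[X]) (hf : f ≠ 0) (α : ℕ → f.SplittingField)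
    (hα : ∀ i < f.natDegree, ∀ j < f.natDegree, i ≠ j → α i ≠ α j) :
    ∃ (S0 : Finset (Pr K)) (a : Pl K → AbsoluteValue f.SplittingField ℝ) (A κ : Pl K → ℝ),
      (∀ v z, a v (algebraMap K f.SplittingField z) = av v z) ∧
      (∀ v, Local_H (a v) f.natDegree α (cv v) (A v) (κ v)) ∧
      ∀ v : Pr K, v ∉ S0 → A (Sum.inr v) = 1 ∧ κ (Sum.inr v) = 1 ∧
        av (Sum.inr v : Pl K) f.leadingCoeff = 1 := by
  classical
  obtain ⟨n, hn⟩ : ∃ n, n = f.natDegree := ⟨_, rfl⟩
  rw [← hn] at hα ⊢
  choose a ha1 ha2 using fun v => h v f.SplittingField inferInstance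
  obtain ⟨S0, hS0⟩ := Local_fin (K := K) ((((range n).image α) ∪
    ((range n ×ˢ range n).image fun p => (α p.1 - α p.2)⁻¹)) ∪
    {algebraMap K f.SplittingField f.leadingCoeff,
      algebraMap K f.SplittingField f.leadingCoeff⁻¹})
  have hex : ∀ v : Pl K, ∃ A κ : ℝ, Local_H (a v) n α (cv v) A κ ∧
      ∀ w : Pr K, v = Sum.inr w → w ∉ S0 → A = 1 ∧ κ = 1 ∧
        av (Sum.inr w : Pl K) f.leadingCoeff = 1 := by
    intro v
    by_cases hv : ∃ w : Pr K, v = Sum.inr w ∧ w ∉ S0
    · obtain ⟨w, rfl, hw⟩ := hv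
      have h1 := hS0 w hw (a (Sum.inr w)) (ha1 (Sum.inr w)) (fun z u => by
        have h2 := ha2 (Sum.inr w) z u
        have h3 : cv (Sum.inr w : Pl K) = 1 := rfl
        rwa [h3, one_mul] at h2)
      refine ⟨1, 1, ⟨one_le_cv _, le_rfl, one_pos, le_rfl, ha2 _, fun i hi => ?_,
        fun i hi j hj hij => ?_⟩, fun u hu hu' => ⟨rfl, rfl, ?_⟩⟩
      · exact h1 _ (Finset.mem_union_left _ (Finset.mem_union_left _
          (Finset.mem_image_of_mem _ (Finset.mem_range.2 hi))))
      · have h2 := h1 (α i - α j)⁻¹ (Finset.mem_union_left _ (Finset.mem_union_right _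
          (Finset.mem_image.2 ⟨(i, j), Finset.mem_product.2
            ⟨Finset.mem_range.2 hi, Finset.mem_range.2 hj⟩, rfl⟩)))
        rw [map_inv₀] at h2
        have h3 := (a (Sum.inr w)).pos (sub_ne_zero.2 (hα i hi j hj hij))
        exact (inv_le_one₀ h3).1 h2
      · have hu2 : w = u := Sum.inr.inj hu
        subst hu2
        have h2 := h1 (algebraMap K f.SplittingField f.leadingCoeff)
          (Finset.mem_union_right _ (by simp))
        have h3 := h1 (algebraMap K f.SplittingField f.leadingCoeff⁻¹)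
          (Finset.mem_union_right _ (by simp))
        rw [ha1] at h2 h3
        rw [map_inv₀] at h3
        have h4 : 0 < av (Sum.inr w : Pl K) f.leadingCoeff :=
          (av _).pos (leadingCoeff_ne_zero.2 hf)
        exact le_antisymm h2 ((inv_le_one₀ h4).1 h3)
    · obtain ⟨B, hB⟩ := Finset.exists_le ((range n).image (fun i => a v (α i)) ∪
        (range n ×ˢ range n).image fun p => (a v (α p.1 - α p.2))⁻¹)
      have hB1 : 1 ≤ max B 1 := le_max_right _ _
      have hB0 : 0 < max B 1 := lt_of_lt_of_le one_pos hB1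
      refine ⟨max B 1, (max B 1)⁻¹, ⟨one_le_cv _, hB1, inv_pos.2 hB0, (inv_le_one₀ hB0).2 hB1,
        ha2 _, fun i hi => ?_, fun i hi j hj hij => ?_⟩, fun w hw hw' => (hv ⟨w, hw, hw'⟩).elim⟩
      · exact (hB _ (Finset.mem_union_left _ (Finset.mem_image_of_mem _
          (Finset.mem_range.2 hi)))).trans (le_max_left _ _)
      · have h2 := (hB (a v (α i - α j))⁻¹ (Finset.mem_union_right _
          (Finset.mem_image.2 ⟨(i, j), Finset.mem_product.2
            ⟨Finset.mem_range.2 hi, Finset.mem_range.2 hj⟩, rfl⟩))).trans (le_max_left B 1)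
        have h3 := (a v).pos (sub_ne_zero.2 (hα i hi j hj hij))
        exact (inv_le_comm₀ h3 hB0).1 h2
  choose A κ hAκ using hex
  exact ⟨S0, a, A, κ, ha1, fun v => (hAκ v).1, fun v hv => (hAκ (Sum.inr v)).2 v rfl hv⟩

end two

section three

variable (K : Type) [Field K] [NumberField K]

theorem local_sys (h : ExtS K) : LocalS K := by
  classical
  intro f q hq
  obtain ⟨hsq, hn1, hn2, hq1⟩ := hq
  have hf : f ≠ 0 := hsq.ne_zero
  obtain ⟨α, hα, hprod⟩ := Local_roots hsq
  obtain ⟨S0, a, A, κ, ha, hH, hS0⟩ := Local_exists h f hf α hα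
  obtain ⟨n, hn⟩ : ∃ n, n = f.natDegree := ⟨_, rfl⟩
  rw [← hn] at hα hprod hH hn1 hn2
  obtain ⟨l, hll⟩ : ∃ l, l = algebraMap K f.SplittingField f.leadingCoeff := ⟨_, rfl⟩
  have hl0 : l ≠ 0 := by
    rw [hll]
    exact (_root_.map_ne_zero (algebraMap K f.SplittingField)).2 (leadingCoeff_ne_zero.2 hf)
  have hev : ∀ x : K, algebraMap K f.SplittingField (f.eval x) =
      l * ∏ i ∈ range n, (algebraMap K f.SplittingField x - α i) := by
    intro x
    have h1 := congrArg (Polynomial.eval (algebraMap K f.SplittingField x)) hprod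
    rw [eval_map, eval₂_at_apply, eval_mul, eval_C, eval_prod, ← hll] at h1
    simpa using h1
  have hne : ∀ x : K, f.eval x ≠ 0 → ∀ i < n, algebraMap K f.SplittingField x ≠ α i := by
    intro x hx i hi h1
    apply hx
    have h2 := hev x
    rw [Finset.prod_eq_zero (Finset.mem_range.2 hi) (sub_eq_zero.2 h1), mul_zero] at h2
    exact (map_eq_zero _).1 h2
  have hlam : ∀ (v : Pl K) (x : K), lam f q v x =
      mt v * Local_lam (a v) n q α l (algebraMap K f.SplittingField x) := by
    intro v x
    unfold lam hl lg Local_lam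
    rw [← hev, ha, ha]
    ring
  have hds : ∀ (v : Pl K) (x y : K), ds v x y =
      mt v * (Real.log (max (a v (algebraMap K f.SplittingField x)) 1) +
        Real.log (max (a v (algebraMap K f.SplittingField y)) 1) -
        Real.log (a v (algebraMap K f.SplittingField x - algebraMap K f.SplittingField y))) := by
    intro v x y
    unfold ds hl lg
    rw [← map_sub, ha, ha, ha]
    ring
  have hmin : ∀ (v : Pl K) (x : K), ∃ t, t < q ∧ ∀ i < q,
      Local_E (a v) n α t (algebraMap K f.SplittingField x) ≤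
        Local_E (a v) n α i (algebraMap K f.SplittingField x) := by
    intro v x
    obtain ⟨t, ht, ht'⟩ := Finset.exists_min_image (range q)
      (fun i => Local_E (a v) n α i (algebraMap K f.SplittingField x))
      ⟨0, Finset.mem_range.2 (by omega)⟩
    exact ⟨t, Finset.mem_range.1 ht, fun i hi => ht' i (Finset.mem_range.2 hi)⟩
  choose typ htyp1 htyp2 using hmin
  obtain ⟨g, hg⟩ : ∃ g : Pl K → ℝ, g = fun v => Loc.mt v * (|Real.log (a v l)| +
    (q + 1) * Local_k (cv v) (A v) (κ v)) := ⟨_, rfl⟩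
  have hg0 : ∀ v, 0 ≤ g v := by
    intro v
    rw [hg]
    have h1 := Local_k_nonneg (hH v)
    have h2 := (mt_pos v).le
    exact mul_nonneg h2 (add_nonneg (abs_nonneg _) (mul_nonneg (by positivity) h1))
  have hgS : ∀ v : Pr K, v ∉ S0 → g (Sum.inr v) = 0 := by
    intro v hv
    obtain ⟨h1, h2, h3⟩ := hS0 v hv
    rw [hg]
    have h4 : cv (Sum.inr v : Pl K) = 1 := rfl
    simp only [h1, h2, h4]
    rw [hll, ha, h3]
    simp [Local_k]
  have hgc : ∀ v, g v ≤ ∑ w ∈ Spl S0, g w := by
    intro v
    by_cases hv : v ∈ Spl S0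
    · exact Finset.single_le_sum (f := g) (fun w _ => hg0 w) hv
    · have h1 : g v = 0 := by
        rcases v with w | v
        · exact (hv (inl_mem_Spl S0 w)).elim
        · exact hgS v fun h => hv ((inr_mem_Spl S0 v).2 h)
      rw [h1]
      exact Finset.sum_nonneg fun w _ => hg0 w
  have hlow : ∀ v x, f.eval x ≠ 0 → -g v ≤ lam f q v x := by
    intro v x hx
    rw [hlam, hg]
    have h1 := Local_low (hH v) q hn1 hn2 hl0 (hne x hx)
    have h2 := mul_le_mul_of_nonneg_left h1 (mt_pos v).le
    simp only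
    linarith
  have hgap : ∀ v x y, f.eval x ≠ 0 → f.eval y ≠ 0 → x ≠ y → typ v x = typ v y →
      min (lam f q v x) (lam f q v y) ≤ ds v x y + g v := by
    intro v x y hx hy hxy ht
    rw [hlam, hlam, hds, hg, ← mul_min_of_nonneg _ _ (mt_pos v).le]
    have h1 := Local_min (hH v) q hn1 hn2 hl0 (hne x hx) (hne y hy)
      (fun h => hxy ((algebraMap K f.SplittingField).injective h)) (htyp1 v x) (htyp2 v x)
      (by rw [ht]; exact htyp2 v y)
    have h2 := mul_le_mul_of_nonneg_left h1 (mt_pos v).le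
    simp only
    linarith
  refine ⟨S0, ∑ w ∈ Spl S0, g w, typ, Finset.sum_nonneg fun w _ => hg0 w, htyp1, ?_, ?_, ?_, ?_⟩
  · intro v x hx
    have h1 := hlow v x hx
    have h2 := hgc v
    linarith
  · intro v hv x hx
    have h1 := hlow (Sum.inr v) x hx
    rw [hgS v hv] at h1
    linarith
  · intro v x y hx hy hxy ht
    have h1 := hgap v x y hx hy hxy ht
    have h2 := hgc v
    linarith
  · intro v hv x y hx hy hxy ht
    have h1 := hgap (Sum.inr v) x y hx hy hxy ht
    rw [hgS v hv] at h1
    linarith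

end three

end Pool.Agent.TH876.TM
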