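import Mathlib
import Pool.Agent.TH876.TM.Def

set_option autoImplicit false

/-!
# Coprime pairs of integers with a small radical of the value of a form
-/

namespace Pool.Agent.TH876.TM

open NumberField IsDedekindDomain Finset Polynomial Pool.Agent.H691R3 Pool.Agent.TH876.Loc

theorem Pairs_pv_lt (v : Pr ℚ) : fv v ((pv v : ℕ) : ℚ) < 1 := by
  have h : fv v (((pv v : ℕ) : 𝓞 ℚ) : ℚ) < 1 :=
    (NumberField.FinitePlace.norm_lt_one_iff_mem ℚ v ((pv v : ℕ) : 𝓞 ℚ)).mpr (pv_mem v)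
  simpa using h

theorem Pairs_nat_le (v : Pr ℚ) (n : ℕ) : fv v (n : ℚ) ≤ 1 := fv_natCast_le v n

theorem Pairs_int_le (v : Pr ℚ) (n : ℤ) : fv v (n : ℚ) ≤ 1 := by
  obtain ⟨k, rfl | rfl⟩ := n.eq_nat_or_neg
  · simpa using Pairs_nat_le v k
  · rw [Int.cast_neg, AbsoluteValue.map_neg]
    simpa using Pairs_nat_le v k

/-- an integer which is not divisible by the prime below `v` -/
theorem Pairs_eq_one (v : Pr ℚ) (w : ℤ) (hw : ¬ pv v ∣ w.natAbs) : fv v (w : ℚ) = 1 := by
  have hp := pv_prime v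
  have hcop : IsCoprime (pv v : ℤ) w := by
    rw [Int.isCoprime_iff_nat_coprime]
    have h1 := (Nat.Prime.coprime_iff_not_dvd hp).2 hw
    simpa using h1
  obtain ⟨a, b, hab⟩ := hcop
  refine le_antisymm (Pairs_int_le v w) ?_
  by_contra hlt
  push Not at hlt
  have h1 : fv v (1 : ℚ) < 1 := by
    have h2 : (1 : ℚ) = (a : ℚ) * ((pv v : ℕ) : ℚ) + (b : ℚ) * (w : ℚ) := by
      have := congrArg (fun z : ℤ => (z : ℚ)) hab
      push_cast at this
      exact this.symm
    rw [h2]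
    refine (fv_na v _ _).trans_lt (max_lt ?_ ?_)
    · rw [map_mul]
      calc fv v (a : ℚ) * fv v ((pv v : ℕ) : ℚ) ≤ 1 * fv v ((pv v : ℕ) : ℚ) :=
            mul_le_mul_of_nonneg_right (Pairs_int_le v a) ((fv v).nonneg _)
        _ < 1 := by rw [one_mul]; exact Pairs_pv_lt v
    · rw [map_mul]
      calc fv v (b : ℚ) * fv v (w : ℚ) ≤ 1 * fv v (w : ℚ) :=
            mul_le_mul_of_nonneg_right (Pairs_int_le v b) ((fv v).nonneg _)
        _ < 1 := by rw [one_mul]; exact hlt
  rw [map_one] at h1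
  exact lt_irrefl _ h1

/-- the norm of a prime of `ℚ` -/
theorem Pairs_norm (v : Pr ℚ) : Nv v ≤ (pv v : ℝ) := by
  have h1 : v.asIdeal ∣ Ideal.span {((pv v : ℕ) : 𝓞 ℚ)} := by
    rw [Ideal.dvd_span_singleton]
    exact pv_mem v
  have h3 := Ideal.absNorm_dvd_absNorm_of_le (Ideal.le_of_dvd h1)
  rw [Ideal.absNorm_span_natCast, RingOfIntegers.rank, Module.finrank_self, pow_one] at h3
  unfold Nv
  exact_mod_cast Nat.le_of_dvd (pv_prime v).pos h3

/-- there is one prime above a rational prime -/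
theorem Pairs_inj {v w : Pr ℚ} (h : pv v = pv w) : v = w := by
  classical
  by_contra hne
  have h1 := card_above (pv w) ({v, w} : Finset (Pr ℚ)) (by
    intro u hu
    rcases Finset.mem_insert.1 hu with rfl | hu
    · exact h
    · rw [Finset.mem_singleton.1 hu])
  rw [Finset.card_pair hne, Module.finrank_self] at h1
  omega

/-- the value of the polynomial -/
theorem Pairs_eval (g : ℤ[X]) (a b : ℤ) (hb : 0 < b) (w : ℤ)
    (hw : w = ∑ i ∈ Finset.range (g.natDegree + 1), g.coeff i * a ^ i * b ^ (g.natDegree - i)) :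
    (g.map (Int.castRingHom ℚ)).eval ((a : ℚ) / b) * (b : ℚ) ^ g.natDegree = w := by
  have hb' : (b : ℚ) ≠ 0 := by exact_mod_cast hb.ne'
  rw [Polynomial.eval_map, Polynomial.eval₂_eq_sum_range, Finset.sum_mul, hw]
  push_cast
  refine Finset.sum_congr rfl fun i hi => ?_
  have hi' : i ≤ g.natDegree := Nat.lt_succ_iff.1 (Finset.mem_range.1 hi)
  have h1 : (b : ℚ) ^ g.natDegree = (b : ℚ) ^ i * (b : ℚ) ^ (g.natDegree - i) := by
    rw [← pow_add]; congr 1; omega
  rw [h1, div_pow]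
  simp only [eq_intCast]
  field_simp

theorem Pairs_lam (g : ℤ[X]) (a b : ℤ) (hb : 0 < b) (w : ℤ) (_hw0 : w ≠ 0)
    (hw : w = ∑ i ∈ Finset.range (g.natDegree + 1), g.coeff i * a ^ i * b ^ (g.natDegree - i))
    (v : Pr ℚ) (hl : 0 < lam (g.map (Int.castRingHom ℚ)) g.natDegree (Sum.inr v : Pl ℚ)
      ((a : ℚ) / b)) : pv v ∣ w.natAbs := by
  by_contra hd
  have h1 := Pairs_eq_one v w hd
  have hb' : (b : ℚ) ≠ 0 := by exact_mod_cast hb.ne'
  have h2 := Pairs_eval g a b hb w hw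
  have hB : 0 < fv v (b : ℚ) := (fv v).pos hb'
  have hf : fv v ((g.map (Int.castRingHom ℚ)).eval ((a : ℚ) / b)) =
      (fv v (b : ℚ) ^ g.natDegree)⁻¹ := by
    rw [← h2, map_mul, map_pow] at h1
    exact eq_inv_of_mul_eq_one_left h1
  have hm : max (fv v ((a : ℚ) / b)) 1 ≤ (fv v (b : ℚ))⁻¹ := by
    refine max_le ?_ ?_
    · rw [map_div₀, div_eq_mul_inv]
      calc fv v (a : ℚ) * (fv v (b : ℚ))⁻¹ ≤ 1 * (fv v (b : ℚ))⁻¹ :=
            mul_le_mul_of_nonneg_right (Pairs_int_le v a) (inv_nonneg.2 hB.le)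
        _ = _ := one_mul _
    · exact (one_le_inv₀ hB).2 (Pairs_int_le v b)
  have h3 : lam (g.map (Int.castRingHom ℚ)) g.natDegree (Sum.inr v : Pl ℚ) ((a : ℚ) / b) =
      g.natDegree * (1 * Real.log (max (fv v ((a : ℚ) / b)) 1)) -
        1 * Real.log (fv v ((g.map (Int.castRingHom ℚ)).eval ((a : ℚ) / b))) := rfl
  rw [h3, hf, Real.log_inv, Real.log_pow] at hl
  have h4 : Real.log (max (fv v ((a : ℚ) / b)) 1) ≤ - Real.log (fv v (b : ℚ)) := by
    rw [← Real.log_inv]
    exact Real.log_le_log (lt_of_lt_of_le one_pos (le_max_right _ _)) hm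
  have h5 := mul_le_mul_of_nonneg_left h4 (Nat.cast_nonneg (α := ℝ) g.natDegree)
  linarith

theorem Pairs_height (a b : ℤ) (hb : 0 < b) (hc : IsCoprime a b) (H : ℝ)
    (h : Real.log (max |(a : ℝ)| |(b : ℝ)|) ≤ H) : Height.logHeight₁ ((a : ℚ) / b) ≤ H := by
  have hcop : Nat.Coprime a.natAbs b.natAbs := by
    rw [← Int.isCoprime_iff_nat_coprime]
    exact hc
  have hn := Rat.num_div_eq_of_coprime hb hcop
  have hd := Rat.den_div_eq_of_coprime hb hcop
  rw [Rat.logHeight₁_eq_log_max, hn]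
  have hd' : ((a : ℚ) / b).den = b.natAbs := by
    have := hd
    omega
  rw [hd']
  have e1 : ((max a.natAbs b.natAbs : ℕ) : ℝ) = max |(a : ℝ)| |(b : ℝ)| := by
    rw [Nat.cast_max, Nat.cast_natAbs, Nat.cast_natAbs]
    push_cast
    rfl
  rw [e1]
  exact h

theorem pairs (h : CountS ℚ) : PairsS := by
  classical
  intro g hsq hq ε hε
  have hdeg : (g.map (Int.castRingHom ℚ)).natDegree = g.natDegree :=
    Polynomial.natDegree_map_eq_of_injective (RingHom.injective_int _) g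
  obtain ⟨C, hC, hcount⟩ := h (g.map (Int.castRingHom ℚ)) g.natDegree
    ⟨hsq, hdeg.le, by omega, by omega⟩ hq ∅ ε hε
  refine ⟨C, fun X y H hX hy hH => ?_⟩
  set φ : ℤ × ℤ → ℚ := fun p => (p.1 : ℚ) / p.2 with hφ
  have hinj : Set.InjOn φ (Pairs g X y H) := by
    intro p hp p' hp' hpp
    obtain ⟨hc, h0, -⟩ := hp
    obtain ⟨hc', h0', -⟩ := hp'
    have hcop : Nat.Coprime p.1.natAbs p.2.natAbs := by
      rw [← Int.isCoprime_iff_nat_coprime]
      exact hc
    have hcop' : Nat.Coprime p'.1.natAbs p'.2.natAbs := by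
      rw [← Int.isCoprime_iff_nat_coprime]
      exact hc'
    have hpp' : (p.1 : ℚ) / p.2 = (p'.1 : ℚ) / p'.2 := hpp
    refine Prod.ext ?_ ?_
    · rw [← Rat.num_div_eq_of_coprime h0 hcop, ← Rat.num_div_eq_of_coprime h0' hcop', hpp']
    · rw [← Rat.den_div_eq_of_coprime h0 hcop, ← Rat.den_div_eq_of_coprime h0' hcop', hpp']
  have hfin : ∀ F : Finset (ℤ × ℤ), (∀ p ∈ F, p ∈ Pairs g X y H) →
      (F.card : ℝ) ≤ C * y * X ^ (2 / (g.natDegree : ℝ) + ε) * (1 + Real.log H) := by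
    intro F hF
    have hcard : (F.image φ).card = F.card :=
      Finset.card_image_of_injOn fun p hp p' hp' => hinj (hF p hp) (hF p' hp')
    rw [← hcard]
    refine hcount X y H hX hy hH (F.image φ) ?_
    intro x hx
    obtain ⟨p, hp, rfl⟩ := Finset.mem_image.1 hx
    obtain ⟨hc, h0, w, hw0, hw, hr, hry, hlog⟩ := hF p hp
    have hev := Pairs_eval g p.1 p.2 h0 w hw
    refine ⟨?_, Pairs_height p.1 p.2 h0 hc H hlog, ?_⟩
    · intro hz
      have hz' : (g.map (Int.castRingHom ℚ)).eval ((p.1 : ℚ) / p.2) = 0 := hz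
      rw [hz', zero_mul] at hev
      exact hw0 (by exact_mod_cast hev.symm)
    · intro T hT
      have hdvd : ∀ v ∈ T, pv v ∈ w.natAbs.primeFactors := by
        intro v hv
        rw [Nat.mem_primeFactors]
        exact ⟨pv_prime v, Pairs_lam g p.1 p.2 h0 w hw0 hw v (hT v hv).2,
          Int.natAbs_ne_zero.2 hw0⟩
      constructor
      · calc nn T ≤ ∏ v ∈ T, (pv v : ℝ) := by
              unfold nn
              exact Finset.prod_le_prod (fun v _ => (Nv_pos v).le) fun v _ => Pairs_norm v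
          _ = ((∏ r ∈ T.image pv, r : ℕ) : ℝ) := by
              rw [Finset.prod_image (fun v _ v' _ hvv => Pairs_inj hvv)]
              push_cast
              rfl
          _ ≤ ((∏ r ∈ w.natAbs.primeFactors, r : ℕ) : ℝ) := by
              have : ∏ r ∈ T.image pv, r ≤ ∏ r ∈ w.natAbs.primeFactors, r := by
                refine Finset.prod_le_prod_of_subset_of_one_le' ?_ ?_
                · intro r hr'
                  obtain ⟨v, hv, rfl⟩ := Finset.mem_image.1 hr'
                  exact hdvd v hv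
                · intro r hr' _
                  exact (Nat.prime_of_mem_primeFactors hr').one_le
              exact_mod_cast this
          _ ≤ X := hr
      · intro v hv
        exact (Pairs_norm v).trans (hry _ (hdvd v hv))
  have hF : (Pairs g X y H).Finite := by
    by_contra hinf
    obtain ⟨n, hn⟩ := exists_nat_gt
      (C * y * X ^ (2 / (g.natDegree : ℝ) + ε) * (1 + Real.log H))
    obtain ⟨F, hFs, hFc⟩ := Set.Infinite.exists_subset_card_eq (s := Pairs g X y H) hinf n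
    have h1 := hfin F fun p hp => hFs hp
    rw [hFc] at h1
    linarith
  refine ⟨hF, ?_⟩
  rw [Set.ncard_eq_toFinset_card _ hF]
  exact hfin _ fun p hp => (Set.Finite.mem_toFinset hF).1 hp

end Pool.Agent.TH876.TM
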