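import Mathlib
import Pool.Agent.TH876.TM.Def
import Pool.Agent.TH876.KR.Cells

set_option autoImplicit false

/-!
# The count at one scale (job 5329)
-/

namespace Pool.Agent.TH876.TM

open NumberField IsDedekindDomain Finset Polynomial Pool.Agent.H691R3 Pool.Agent.TH876.Loc

section

variable {K : Type} [Field K] [NumberField K]

open Classical in
theorem Scale_tot {S0 T : Finset (Pr K)} (hd : Disjoint T S0) (g : Pl K → ℝ) :
    tot S0 T g = ∑ v ∈ Spl (T ∪ S0), g v := by
  unfold tot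
  rw [sum_Spl, Finset.sum_union hd]
  ring

open Classical in
/-- the points with the same types and cells -/
theorem Scale_pair {f : K[X]} {q : ℕ} {S0 : Finset (Pr K)} {typ : Pl K → K → ℕ} {c1 : ℝ}
    (hc1 : 0 ≤ c1) {k : ℕ} (hk : 1 ≤ k) {l : ℝ} (hl : 2 * k * c1 + 1 ≤ l) {T : Finset (Pr K)}
    (hd : Disjoint T S0) {x y : K} {N : ℝ} (hN : 0 < N) (hNc : N = (Spl (T ∪ S0)).card)
    (hgap : (∀ v : Pl K, v ∈ Spl T ∨ v ∈ Spl S0 → typ v x = typ v y) →
      tot S0 T (fun v => min (lam f q v x) (lam f q v y)) ≤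
        Height.logHeight₁ x + Height.logHeight₁ y + c1)
    (ht : ∀ v ∈ Spl (T ∪ S0), typ v x = typ v y)
    (hcell : ∀ v ∈ Spl (T ∪ S0), |lam f q v x - lam f q v y| ≤ l / (16 * k * N))
    (hx1 : l ≤ Height.logHeight₁ x)
    (hx3 : (2 + 1 / (k : ℝ)) * Height.logHeight₁ x ≤ tot S0 T (fun v => lam f q v x))
    (hy2 : Height.logHeight₁ y ≤ (1 + 1 / (8 * (k : ℝ))) * l) : False := by
  have hk0 : (1 : ℝ) ≤ k := by exact_mod_cast hk
  have h1 := hgap (by
    intro v hv
    apply ht
    rcases hv with hv | hv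
    · exact Spl_mono Finset.subset_union_left hv
    · exact Spl_mono Finset.subset_union_right hv)
  rw [Scale_tot hd] at h1 hx3
  have h2 : ∑ v ∈ Spl (T ∪ S0), lam f q v x - N * (l / (16 * k * N)) ≤
      ∑ v ∈ Spl (T ∪ S0), min (lam f q v x) (lam f q v y) := by
    rw [hNc, ← nsmul_eq_mul, ← Finset.sum_const, ← Finset.sum_sub_distrib]
    refine Finset.sum_le_sum fun v hv => ?_
    have h3 := hcell v hv
    rw [hNc] at h3
    have h4 := abs_le.1 h3
    have h5 : 0 ≤ l / (16 * k * ((Spl (T ∪ S0)).card : ℝ)) := (abs_nonneg _).trans h3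
    rw [le_min_iff]
    constructor
    · linarith
    · linarith
  have h3 : N * (l / (16 * k * N)) = l / (16 * k) := by field_simp
  rw [h3] at h2
  obtain ⟨hX, hXd⟩ : ∃ hX, hX = Height.logHeight₁ x := ⟨_, rfl⟩
  obtain ⟨hY, hYd⟩ : ∃ hY, hY = Height.logHeight₁ y := ⟨_, rfl⟩
  rw [← hXd] at h1 hx1 hx3
  rw [← hYd] at h1 hy2
  have h4 : hX / k ≤ l / (16 * k) + l / (8 * k) + c1 := by
    have e1 : (2 + 1 / (k : ℝ)) * hX = 2 * hX + hX / k := by ring
    have e2 : (1 + 1 / (8 * (k : ℝ))) * l = l + l / (8 * k) := by ring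
    rw [e1] at hx3
    rw [e2] at hy2
    linarith
  have h5 := mul_le_mul_of_nonneg_left h4 (by linarith : (0 : ℝ) ≤ k)
  have e3 : (k : ℝ) * (hX / k) = hX := by field_simp
  have e4 : (k : ℝ) * (l / (16 * k) + l / (8 * k) + c1) = l / 16 + l / 8 + k * c1 := by
    field_simp
  rw [e3, e4] at h5
  have h6 : 0 ≤ k * c1 := mul_nonneg (by linarith) hc1
  linarith

end

variable (K : Type) [Field K] [NumberField K]

open Classical in
theorem scale (h : GlobS K) : ScaleS K := by
  intro f q S0 c typ hs k hk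
  obtain ⟨c1, hc1, G1, G2, -⟩ := h f q S0 c typ hs
  obtain ⟨w0⟩ : Nonempty (InfinitePlace K) := inferInstance
  have hq : 1 ≤ q := lt_of_le_of_lt (Nat.zero_le _) (hs.typ_lt (Sum.inl w0) 0)
  have hk0 : (1 : ℝ) ≤ k := by exact_mod_cast hk
  have hc0 := hs.c0
  obtain ⟨n0, hn0⟩ : ∃ n0, n0 = (Spl S0).card := ⟨_, rfl⟩
  have hn0c : 0 ≤ (n0 : ℝ) * c := mul_nonneg (Nat.cast_nonneg _) hc0
  have hkc : 0 ≤ 2 * k * c1 := mul_nonneg (by linarith) hc1
  refine ⟨(q * 2 ^ (16 * k * (2 * q + 1) + 1)) ^ (n0 + 1), 2 * k * c1 + n0 * c + 1,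
    Nat.one_le_iff_ne_zero.2 (by positivity), by linarith, ?_⟩
  intro l T F hl hd hF
  have hl0 : 0 < l := by linarith
  -- the places
  set P := Spl (T ∪ S0) with hP
  have hcard : P.card ≤ (n0 + 1) * (T.card + 1) := by
    have e1 : P.card = n0 + T.card := by
      rw [hP, card_Spl, Finset.card_union_of_disjoint hd, hn0, card_Spl]
      omega
    rw [e1]
    nlinarith [Nat.zero_le (n0 * T.card)]
  have hP1 : 1 ≤ P.card := Finset.card_pos.2 ⟨Sum.inl w0, inl_mem_Spl _ w0⟩
  obtain ⟨N, hN⟩ : ∃ N, N = P.card := ⟨_, rfl⟩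
  have hN1 : 1 ≤ N := by omega
  have hNR : (1 : ℝ) ≤ N := by exact_mod_cast hN1
  obtain ⟨s, hsd⟩ : ∃ s : ℝ, s = 16 * k * N / l := ⟨_, rfl⟩
  have hs0 : 0 < s := by rw [hsd]; positivity
  -- offsets
  set o : Pl K → ℝ := fun v => if v ∈ Spl S0 then c else 0 with ho
  have hpos : ∀ x ∈ F, ∀ v ∈ P, 0 ≤ lam f q v x + o v := by
    intro x hx v hv
    have hfx := (hF x hx).1
    simp only [ho]
    split_ifs with hv0
    · have := hs.low v x hfx
      linarith
    · rcases v with w | v
      · exact absurd (inl_mem_Spl S0 w) hv0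
      · rw [inr_mem_Spl] at hv0
        rw [add_zero]
        exact hs.nonneg v hv0 x hfx
  have hosum : ∑ v ∈ P, o v = n0 * c := by
    simp only [ho]
    rw [Finset.sum_ite_mem, Finset.inter_eq_right.2 (Spl_mono Finset.subset_union_right),
      Finset.sum_const, nsmul_eq_mul, hn0]
  -- types and cells
  let a1 : K → (P → Fin q) := fun x v => ⟨typ v.1 x, hs.typ_lt _ _⟩
  let a2 : K → (P → ℕ) := fun x v => ⌊(lam f q v.1 x + o v.1) * s⌋₊
  have hinj : Set.InjOn (fun x => (a1 x, a2 x)) (F : Set K) := by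
    intro x hx y hy hxy
    have e1 : a1 x = a1 y := congrArg Prod.fst hxy
    have e2 : a2 x = a2 y := congrArg Prod.snd hxy
    by_contra hne
    obtain ⟨fx, x1, x2, x3⟩ := hF x hx
    obtain ⟨fy, y1, y2, y3⟩ := hF y hy
    refine Scale_pair (f := f) (q := q) (typ := typ) hc1 hk (by linarith) hd (x := x) (y := y)
      (N := N) (by linarith) (by rw [hN]) (G1 x y T fx fy hne hd) ?_ ?_ x1 x3 y2
    · intro v hv
      have := congrFun e1 ⟨v, hv⟩
      exact congrArg Fin.val this
    · intro v hv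
      have h1 := congrFun e2 ⟨v, hv⟩
      have h2 := KR.floor_close hs0 (hpos x hx v hv) (hpos y hy v hv) h1
      have h3 : lam f q v x + o v - (lam f q v y + o v) = lam f q v x - lam f q v y := by ring
      rw [h3] at h2
      refine h2.trans (le_of_eq ?_)
      rw [hsd, one_div_div]
  -- the number of cells
  have hB : ∀ g ∈ F.image a2, ∑ v, g v ≤ 16 * k * (2 * q + 1) * N := by
    intro g hg
    obtain ⟨x, hx, rfl⟩ := Finset.mem_image.1 hg
    obtain ⟨fx, x1, x2, x3⟩ := hF x hx
    have h1 : ((∑ v, a2 x v : ℕ) : ℝ) ≤ 16 * k * (2 * q + 1) * N := by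
      rw [Nat.cast_sum]
      calc ∑ v : P, (a2 x v : ℝ) ≤ ∑ v : P, (lam f q v.1 x + o v.1) * s :=
            Finset.sum_le_sum fun v _ =>
              Nat.floor_le (mul_nonneg (hpos x hx v.1 v.2) hs0.le)
        _ = (∑ v ∈ P, (lam f q v x + o v)) * s := by
            rw [← Finset.sum_mul]
            congr 1
            exact Finset.sum_coe_sort P (fun v => lam f q v x + o v)
        _ = (tot S0 T (fun v => lam f q v x) + n0 * c) * s := by
            rw [Finset.sum_add_distrib, hosum, Scale_tot hd]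
        _ ≤ ((2 * q + 1) * l) * s := by
            refine mul_le_mul_of_nonneg_right ?_ hs0.le
            have h2 := G2 x T fx hd
            have h3 : Height.logHeight₁ x ≤ 2 * l := by
              refine x2.trans (mul_le_mul_of_nonneg_right ?_ hl0.le)
              have : 1 / (8 * (k : ℝ)) ≤ 1 := by
                rw [div_le_one (by positivity)]
                linarith
              linarith
            have h4 : (q : ℝ) * Height.logHeight₁ x ≤ q * (2 * l) :=
              mul_le_mul_of_nonneg_left h3 (Nat.cast_nonneg _)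
            linarith
        _ = 16 * k * (2 * q + 1) * N := by rw [hsd]; field_simp
    exact_mod_cast h1
  have h2 := count_fun (16 * k * (2 * q + 1) * N) (F.image a2) hB
  rw [Fintype.card_coe, ← hN] at h2
  have h2' : (F.image a2).card ≤ 2 ^ (16 * k * (2 * q + 1) * N + N) := by exact_mod_cast h2
  have h3 : F.card ≤ (Fintype.card (P → Fin q)) * (F.image a2).card := by
    rw [← Finset.card_univ, ← Finset.card_product]
    refine Finset.card_le_card_of_injOn (fun x => (a1 x, a2 x)) ?_ hinj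
    intro x hx
    rw [Finset.mem_coe, Finset.mem_product]
    exact ⟨Finset.mem_univ _, Finset.mem_image_of_mem _ hx⟩
  rw [Fintype.card_fun, Fintype.card_fin, Fintype.card_coe, ← hN] at h3
  have h4 : F.card ≤ (q * 2 ^ (16 * k * (2 * q + 1) + 1)) ^ N := by
    refine h3.trans ((Nat.mul_le_mul_left _ h2').trans (le_of_eq ?_))
    rw [mul_pow, ← pow_mul]
    congr 2
    ring
  have h5 : F.card ≤ ((q * 2 ^ (16 * k * (2 * q + 1) + 1)) ^ (n0 + 1)) ^ (T.card + 1) := by
    refine h4.trans ?_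
    rw [← pow_mul]
    apply Nat.pow_le_pow_right (Nat.one_le_iff_ne_zero.2 (by positivity))
    omega
  exact_mod_cast h5

end Pool.Agent.TH876.TM
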