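import Mathlib
import Pool.Agent.TH876.TM.Def
import Pool.Agent.TH876.FH.Def

set_option autoImplicit false

/-!
# Pencils of elliptic curves: definitions and statements of the parts
-/

namespace Pool.Agent.TH876.TM

open NumberField IsDedekindDomain Finset Polynomial Pool.Agent.H691R3 Pool.Agent.TH876.Loc
open Pool.Agent.TH876.FH (faltings IsPeriod GoodAt badNorm)

open Classical in
/-- the number of the different poles of the rational function `P / Q`, `P` and `Q` coprime -/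
noncomputable def poles {K : Type} [Field K] (P Q : K[X]) : ℕ :=
  (Q.map (algebraMap K (AlgebraicClosure K))).roots.toFinset.card +
    if Q.natDegree < P.natDegree then 1 else 0

/-- the squarefree form of the poles -/
def PoleS : Prop := ∀ (K : Type) [Field K] [CharZero K] (P Q : K[X]), Q ≠ 0 → 1 ≤ poles P Q →
  ∃ f : K[X], Form f (poles P Q) ∧ f ∣ Q ∧
    (poles P Q = f.natDegree + if Q.natDegree < P.natDegree then 1 else 0)

/-- the height of a value of a rational function -/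
def ValS : Prop := ∀ (K : Type) [Field K] [NumberField K] (P Q : K[X]), IsCoprime P Q →
  1 ≤ max P.natDegree Q.natDegree → ∃ c : ℝ, 0 ≤ c ∧ ∀ t : K, Q.eval t ≠ 0 →
    Height.logHeight₁ t ≤ Height.logHeight₁ (P.eval t / Q.eval t) + c

/-- the primes at which `t` meets the poles -/
def MeetS : Prop := ∀ (K : Type) [Field K] [NumberField K] (P Q f : K[X]) (q : ℕ), IsCoprime P Q →
  Q ≠ 0 → Form f q → f ∣ Q → (q = f.natDegree + if Q.natDegree < P.natDegree then 1 else 0) →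
  ∃ S1 : Finset (Pr K), ∀ v : Pr K, v ∉ S1 → ∀ t : K, Q.eval t ≠ 0 →
    0 < lam f q (Sum.inr v : Pl K) t → 1 < v.valuation K (P.eval t / Q.eval t)

/-- the modular invariant of a curve with good reduction is integral -/
def GoodS : Prop := ∀ (K : Type) [Field K] [NumberField K] (E : WeierstrassCurve K), E.Δ ≠ 0 →
  {v : HeightOneSpectrum (𝓞 K) | ¬ GoodAt v E}.Finite ∧
  ∀ v : HeightOneSpectrum (𝓞 K), GoodAt v E → v.valuation K (E.c₄ ^ 3 / E.Δ) ≤ 1

/-- the parameters `t` for which some elliptic curve with modular invariant `P(t) / Q(t)` has product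
of the norms of the bad primes at most `X`, bad primes of norm at most `y` and stable Faltings
height at most `H` -/
def Pencil (K : Type) [Field K] [NumberField K] (P Q : K[X]) (X y H : ℝ) : Set K :=
  {t | Q.eval t ≠ 0 ∧ ∃ (E : WeierstrassCurve K) (τ : InfinitePlace K → UpperHalfPlane),
    E.Δ ≠ 0 ∧ E.c₄ ^ 3 / E.Δ = P.eval t / Q.eval t ∧ IsPeriod (P.eval t / Q.eval t) τ ∧
    badNorm E ≤ X ∧ (∀ v, ¬ GoodAt v E → (Ideal.absNorm v.asIdeal : ℝ) ≤ y) ∧
    faltings (P.eval t / Q.eval t) τ ≤ H}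

/-- the count -/
def PencilS : Prop := ∀ (K : Type) [Field K] [NumberField K] (P Q : K[X]), IsCoprime P Q →
  Q ≠ 0 → 3 ≤ poles P Q → ∀ ε : ℝ, 0 < ε → ∃ C : ℝ, ∀ X y H : ℝ, 1 ≤ X → 1 ≤ y → 1 ≤ H →
  (Pencil K P Q X y H).Finite ∧ ((Pencil K P Q X y H).ncard : ℝ) ≤
    C * y * X ^ (2 / (poles P Q : ℝ) + ε) * (1 + Real.log H)

/-- the violators of `h_F(E) ≤ κ log R + c` with `h_F(E) ≤ log B` -/
def PencilViol (K : Type) [Field K] [NumberField K] (P Q : K[X]) (κ c y B : ℝ) : Set K :=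
  {t | Q.eval t ≠ 0 ∧ ∃ (E : WeierstrassCurve K) (τ : InfinitePlace K → UpperHalfPlane),
    E.Δ ≠ 0 ∧ E.c₄ ^ 3 / E.Δ = P.eval t / Q.eval t ∧ IsPeriod (P.eval t / Q.eval t) τ ∧
    (∀ v, ¬ GoodAt v E → (Ideal.absNorm v.asIdeal : ℝ) ≤ y) ∧
    faltings (P.eval t / Q.eval t) τ ≤ Real.log B ∧
    κ * Real.log (badNorm E) + c < faltings (P.eval t / Q.eval t) τ}

/-- the count of violators -/
def PencilViolS : Prop := ∀ (K : Type) [Field K] [NumberField K] (P Q : K[X]), IsCoprime P Q →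
  Q ≠ 0 → 3 ≤ poles P Q → ∀ κ c δ : ℝ, 0 < κ → 0 < δ → ∃ C : ℝ, ∀ y B : ℝ, 1 ≤ y → 1 ≤ B →
  (PencilViol K P Q κ c y B).Finite ∧ ((PencilViol K P Q κ c y B).ncard : ℝ) ≤
    C * y * B ^ (2 / ((poles P Q : ℝ) * κ) + δ)

end Pool.Agent.TH876.TM
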