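import Mathlib
import Pool.Agent.TH876.TM.Def2

set_option autoImplicit false

/-!
# The modular invariant of a curve with good reduction is integral
-/

namespace Pool.Agent.TH876.TM

open NumberField IsDedekindDomain Finset Polynomial Pool.Agent.H691R3 Pool.Agent.TH876.Loc

private theorem Good_nat {K : Type} [Field K] {Γ : Type} [LinearOrderedCommGroupWithZero Γ]
    (v : Valuation K Γ) (n : ℕ) : v (n : K) ≤ 1 := by
  induction n with
  | zero => simp
  | succ n ih =>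
    push_cast
    exact (v.map_add _ _).trans (max_le ih (by simp))

private theorem Good_c4 {K : Type} [Field K] {Γ : Type} [LinearOrderedCommGroupWithZero Γ]
    (v : Valuation K Γ) (W : WeierstrassCurve K) (h1 : v W.a₁ ≤ 1) (h2 : v W.a₂ ≤ 1)
    (h3 : v W.a₃ ≤ 1) (h4 : v W.a₄ ≤ 1) : v W.c₄ ≤ 1 := by
  have hm : ∀ {x y : K}, v x ≤ 1 → v y ≤ 1 → v (x * y) ≤ 1 := fun hx hy => by
    rw [map_mul]; exact mul_le_one' hx hy
  have hp : ∀ {x : K} (n : ℕ), v x ≤ 1 → v (x ^ n) ≤ 1 := fun n hx => by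
    rw [map_pow]; exact pow_le_one' hx n
  have ha : ∀ {x y : K}, v x ≤ 1 → v y ≤ 1 → v (x + y) ≤ 1 := fun hx hy =>
    (v.map_add _ _).trans (max_le hx hy)
  have hs : ∀ {x y : K}, v x ≤ 1 → v y ≤ 1 → v (x - y) ≤ 1 := fun hx hy =>
    (v.map_sub _ _).trans (max_le hx hy)
  have n2 : v (2 : K) ≤ 1 := by exact_mod_cast Good_nat v 2
  have n4 : v (4 : K) ≤ 1 := by exact_mod_cast Good_nat v 4
  have n24 : v (24 : K) ≤ 1 := by exact_mod_cast Good_nat v 24
  rw [WeierstrassCurve.c₄, WeierstrassCurve.b₂, WeierstrassCurve.b₄]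
  exact hs (hp 2 (ha (hp 2 h1) (hm n4 h2))) (hm n24 (ha (hm n2 h4) (hm h1 h3)))

private theorem Good_j {K : Type} [Field K] (E : WeierstrassCurve K)
    (C : WeierstrassCurve.VariableChange K) :
    (C • E).c₄ ^ 3 / (C • E).Δ = E.c₄ ^ 3 / E.Δ := by
  rw [WeierstrassCurve.variableChange_c₄, WeierstrassCurve.variableChange_Δ]
  have hu : ((C.u⁻¹ : Kˣ) : K) ^ 12 ≠ 0 := pow_ne_zero _ (Units.ne_zero _)
  rw [mul_pow, ← pow_mul]
  exact mul_div_mul_left _ _ hu

theorem good : GoodS := by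
  intro K _ _ E hE
  constructor
  · have hf := fun k : K => HeightOneSpectrum.Support.finite (𝓞 K) k
    refine ((hf E.a₁).union ((hf E.a₂).union ((hf E.a₃).union ((hf E.a₄).union
      ((hf E.a₆).union ((hf E.Δ).union (hf E.Δ⁻¹))))))).subset ?_
    intro v hv
    by_contra hc
    simp only [HeightOneSpectrum.Support, Set.mem_union, Set.mem_ofPred_eq, not_or, not_lt] at hc
    obtain ⟨c1, c2, c3, c4, c6, c7, c8⟩ := hc
    apply hv
    refine ⟨1, ?_⟩
    rw [one_smul]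
    refine ⟨c1, c2, c3, c4, c6, le_antisymm c7 ?_⟩
    have h0 : v.valuation K E.Δ ≠ 0 := (Valuation.ne_zero_iff _).2 hE
    rw [map_inv₀] at c8
    exact (inv_le_one₀ (zero_lt_iff.2 h0)).1 c8
  · rintro v ⟨C, h1, h2, h3, h4, h6, hD⟩
    rw [← Good_j E C, map_div₀, hD, div_one, map_pow]
    exact pow_le_one' (Good_c4 _ _ h1 h2 h3 h4) 3

end Pool.Agent.TH876.TM

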