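import Mathlib
import Pool.Agent.TH876.TM.Def2

set_option autoImplicit false

/-!
# TM-MEET (job 5423, helper900): the primes at which the parameter meets the poles
-/

namespace Pool.Agent.TH876.TM

open NumberField IsDedekindDomain Finset Polynomial Pool.Agent.H691R3 Pool.Agent.TH876.Loc

section Aux

variable {K : Type} [Field K] [NumberField K]

private theorem Meet_val (v : Pr K) (x : K) :
    fv v x = ((WithZeroMulInt.toNNReal (NumberField.HeightOneSpectrum.absNorm_ne_zero v)
      (v.valuation K x) : NNReal) : ℝ) :=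
  NumberField.FinitePlace.norm_embedding' (v := v) (x := x)

private theorem Meet_le_one (v : Pr K) (x : K) : v.valuation K x ≤ 1 ↔ fv v x ≤ 1 := by
  rw [Meet_val, NNReal.coe_le_one]
  exact (WithZeroMulInt.toNNReal_le_one_iff
    (NumberField.HeightOneSpectrum.one_lt_absNorm_nnreal v)).symm

/-- all nonzero coefficients of `G` are units at `v` -/
private def Meet_ok (v : Pr K) (G : K[X]) : Prop := ∀ i ∈ G.support, fv v (G.coeff i) = 1

private theorem Meet_fin (G : K[X]) : {v : Pr K | ¬ Meet_ok v G}.Finite := by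
  have e : {v : Pr K | ¬ Meet_ok v G} ⊆ ⋃ i ∈ G.support, {v : Pr K | fv v (G.coeff i) ≠ 1} := by
    intro v hv
    rw [Set.mem_ofPred_eq, Meet_ok] at hv
    push Not at hv
    obtain ⟨i, hi, h⟩ := hv
    exact Set.mem_biUnion (x := i) (by exact_mod_cast hi) h
  refine Set.Finite.subset (G.support.finite_toSet.biUnion fun i hi => ?_) e
  exact fv_support_finite (Polynomial.mem_support_iff.1 (by exact_mod_cast hi))

private theorem Meet_coeff {v : Pr K} {G : K[X]} (h : Meet_ok v G) (i : ℕ) :
    fv v (G.coeff i) ≤ 1 := by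
  by_cases hi : i ∈ G.support
  · exact (h i hi).le
  · rw [Polynomial.notMem_support_iff.1 hi, map_zero]
    exact zero_le_one

private theorem Meet_int {v : Pr K} {G : K[X]} (h : Meet_ok v G) {t : K} (ht : fv v t ≤ 1) :
    fv v (G.eval t) ≤ 1 := by
  rw [Polynomial.eval_eq_sum_range]
  refine fv_sum_le v _ _ 1 zero_le_one fun i _ => ?_
  rw [map_mul, map_pow]
  exact mul_le_one₀ (Meet_coeff h i) (pow_nonneg ((fv v).nonneg _) _)
    (pow_le_one₀ ((fv v).nonneg _) ht)

private theorem Meet_add (v : Pr K) {a b : K} (h : fv v a < fv v b) :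
    fv v (a + b) = fv v b := by
  refine le_antisymm ((fv_na v _ _).trans (max_le h.le le_rfl)) ?_
  have h1 : fv v b ≤ max (fv v (a + b)) (fv v (-a)) := by
    have h2 := fv_na v (a + b) (-a)
    have e : a + b + -a = b := by ring
    rwa [e] at h2
  rw [(fv v).map_neg] at h1
  rcases le_max_iff.1 h1 with h5 | h5
  · exact h5
  · exact absurd h (not_lt.2 h5)

private theorem Meet_big {v : Pr K} {G : K[X]} (h : Meet_ok v G) (hG : G ≠ 0) {t : K}
    (ht : 1 < fv v t) : fv v (G.eval t) = fv v t ^ G.natDegree := by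
  have h0 : fv v (G.coeff G.natDegree * t ^ G.natDegree) = fv v t ^ G.natDegree := by
    rw [map_mul, map_pow, h _ (Polynomial.natDegree_mem_support_of_nonzero hG), one_mul]
  rcases Nat.eq_zero_or_pos G.natDegree with hd | hd
  · rw [Polynomial.eval_eq_sum_range, hd, Finset.sum_range_one]
    rw [hd] at h0
    exact h0
  have h1 : fv v (∑ i ∈ Finset.range G.natDegree, G.coeff i * t ^ i) ≤
      fv v t ^ (G.natDegree - 1) := by
    refine fv_sum_le v _ _ _ (pow_nonneg ((fv v).nonneg _) _) fun i hi => ?_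
    rw [map_mul, map_pow]
    have hi' : i ≤ G.natDegree - 1 := by
      have := Finset.mem_range.1 hi
      omega
    calc fv v (G.coeff i) * fv v t ^ i ≤ 1 * fv v t ^ (G.natDegree - 1) :=
          mul_le_mul (Meet_coeff h i) (pow_le_pow_right₀ ht.le hi')
            (pow_nonneg ((fv v).nonneg _) _) zero_le_one
      _ = fv v t ^ (G.natDegree - 1) := one_mul _
  have h2 : fv v t ^ (G.natDegree - 1) < fv v t ^ G.natDegree :=
    pow_lt_pow_right₀ ht (by omega)
  have h3 : fv v (∑ i ∈ Finset.range G.natDegree, G.coeff i * t ^ i) <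
      fv v (G.coeff G.natDegree * t ^ G.natDegree) := by
    rw [h0]
    exact lt_of_le_of_lt h1 h2
  rw [Polynomial.eval_eq_sum_range, Finset.sum_range_succ, ← h0]
  exact Meet_add v h3

private theorem Meet_hl (v : Pr K) (t : K) :
    hl (Sum.inr v : Pl K) t = Real.log (max (fv v t) 1) := by
  show (1 : ℝ) * Real.log (max (fv v t) 1) = _
  rw [one_mul]

private theorem Meet_lg (v : Pr K) (t : K) :
    lg (Sum.inr v : Pl K) t = Real.log (fv v t) := by
  show (1 : ℝ) * Real.log (fv v t) = _
  rw [one_mul]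

end Aux

theorem meet : MeetS := by
  classical
  intro K _ _ P Q f q hPQ hQ hF hfQ hq
  obtain ⟨R, hR⟩ := hfQ
  obtain ⟨u, w, huw⟩ := hPQ
  have hf0 : f ≠ 0 := fun h => hQ (by rw [hR, h, zero_mul])
  refine ⟨(Meet_fin P).toFinset ∪ ((Meet_fin Q).toFinset ∪ ((Meet_fin f).toFinset ∪
    ((Meet_fin R).toFinset ∪ ((Meet_fin u).toFinset ∪ (Meet_fin w).toFinset)))), ?_⟩
  intro v hv t hQt hlam
  simp only [Finset.mem_union, Set.Finite.mem_toFinset, Set.mem_ofPred_eq, not_or, not_not] at hv
  obtain ⟨kP, kQ, kf, kR, ku, kw⟩ := hv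
  have hft : f.eval t ≠ 0 := by
    intro h
    apply hQt
    rw [hR, Polynomial.eval_mul, h, zero_mul]
  have hft0 : 0 < fv v (f.eval t) := (fv v).pos hft
  have hQt0 : 0 < fv v (Q.eval t) := (fv v).pos hQt
  have hgoal : 1 < fv v (P.eval t / Q.eval t) → 1 < v.valuation K (P.eval t / Q.eval t) := by
    intro h
    by_contra hc
    exact absurd h (not_lt.2 ((Meet_le_one v _).1 (not_lt.1 hc)))
  apply hgoal
  rw [map_div₀, one_lt_div hQt0]
  have hlam' : 0 < (q : ℝ) * Real.log (max (fv v t) 1) - Real.log (fv v (f.eval t)) := by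
    have h := hlam
    unfold lam at h
    rwa [Meet_hl, Meet_lg] at h
  rcases le_or_gt (fv v t) 1 with ht | ht
  · rw [max_eq_right ht, Real.log_one, mul_zero, zero_sub, Left.neg_pos_iff] at hlam'
    have h1 : fv v (f.eval t) < 1 := by
      by_contra hc
      exact absurd hlam' (not_lt.2 (Real.log_nonneg (not_lt.1 hc)))
    have h2 : fv v (Q.eval t) < 1 := by
      rw [hR, Polynomial.eval_mul, map_mul]
      exact mul_lt_one_of_nonneg_of_lt_one_left ((fv v).nonneg _) h1 (Meet_int kR ht)
    have h3 : fv v (w.eval t * Q.eval t) < 1 := by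
      rw [map_mul, mul_comm]
      exact mul_lt_one_of_nonneg_of_lt_one_left ((fv v).nonneg _) h2 (Meet_int kw ht)
    have h4 : u.eval t * P.eval t + w.eval t * Q.eval t = 1 := by
      have := congrArg (Polynomial.eval t) huw
      rwa [Polynomial.eval_add, Polynomial.eval_mul, Polynomial.eval_mul,
        Polynomial.eval_one] at this
    have h5 : 1 ≤ fv v (P.eval t) := by
      by_contra hc
      rw [not_le] at hc
      have h6 : fv v (u.eval t * P.eval t) < 1 := by
        rw [map_mul, mul_comm]
        exact mul_lt_one_of_nonneg_of_lt_one_left ((fv v).nonneg _) hc (Meet_int ku ht)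
      have h7 := fv_na v (u.eval t * P.eval t) (w.eval t * Q.eval t)
      rw [h4, map_one] at h7
      exact absurd (max_lt h6 h3) (not_lt.2 h7)
    exact lt_of_lt_of_le h2 h5
  · have hl0 : 0 < Real.log (fv v t) := Real.log_pos ht
    rw [max_eq_left ht.le, Meet_big kf hf0 ht, Real.log_pow, ← sub_mul] at hlam'
    have h1 : (0 : ℝ) < (q : ℝ) - f.natDegree := by
      by_contra hc
      exact absurd hlam' (not_lt.2 (mul_nonpos_of_nonpos_of_nonneg (not_lt.1 hc) hl0.le))
    have h2 : f.natDegree < q := by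
      have : (f.natDegree : ℝ) < q := by linarith
      exact_mod_cast this
    have h3 : Q.natDegree < P.natDegree := by
      by_contra hc
      rw [if_neg hc] at hq
      omega
    have hP0 : P ≠ 0 := by
      rintro rfl
      rw [Polynomial.natDegree_zero] at h3
      omega
    rw [Meet_big kP hP0 ht, Meet_big kQ hQ ht]
    exact pow_lt_pow_right₀ ht h3

end Pool.Agent.TH876.TM
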