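import Mathlib
import Pool.Agent.TH876.TM.Def2

set_option autoImplicit false

/-!
# Pencils of elliptic curves: assembly (job 5425)
-/

namespace Pool.Agent.TH876.TM

open NumberField IsDedekindDomain Finset Polynomial Pool.Agent.H691R3 Pool.Agent.TH876.Loc

private lemma Pencil_log {a b : ℝ} (ha : 1 ≤ a) (hb : 1 ≤ b) :
    1 + Real.log (a * b) ≤ (1 + Real.log a) * (1 + Real.log b) := by
  rw [Real.log_mul (by positivity) (by positivity)]
  nlinarith [mul_nonneg (Real.log_nonneg ha) (Real.log_nonneg hb)]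

private lemma Pencil_fin {α : Type} {S : Set α} {B : ℝ}
    (h : ∀ F : Finset α, (∀ x ∈ F, x ∈ S) → (F.card : ℝ) ≤ B) :
    S.Finite ∧ (S.ncard : ℝ) ≤ B := by
  have hfin : S.Finite := by
    by_contra hinf
    obtain ⟨F, hF, hcard⟩ := Set.Infinite.exists_subset_card_eq hinf (⌈B⌉₊ + 1)
    have h1 := h F (fun x hx => hF (Finset.mem_coe.2 hx))
    rw [hcard] at h1
    have h2 := Nat.le_ceil B
    push_cast at h1
    linarith
  refine ⟨hfin, ?_⟩
  rw [Set.ncard_eq_toFinset_card S hfin]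
  exact h hfin.toFinset (fun x hx => by simpa using hx)

private lemma Pencil_one_le {K : Type} [Field K] [NumberField K] (E : WeierstrassCurve K) :
    1 ≤ FH.badNorm E := by
  have key : ∀ v : HeightOneSpectrum (𝓞 K), (1 : ℝ) ≤ (Ideal.absNorm v.asIdeal : ℝ) :=
    fun v => one_le_Nv v
  unfold FH.badNorm
  refine finprod_mem_induction (fun x : ℝ => 1 ≤ x) le_rfl ?_ ?_
  · intro x y hx hy
    nlinarith
  · intro v _
    exact key v

theorem pencil (h1 : ∀ (K : Type) [Field K] [NumberField K], CountS K)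
    (h2 : Pool.Agent.TH876.FH.HjS) (h3 : PoleS) (h4 : ValS) (h5 : MeetS) (h6 : GoodS) : PencilS := by
  intro K _ _ P Q hcop hQ hp ε hε
  obtain ⟨f, hform, hfQ, hq⟩ := h3 K P Q hQ (by omega)
  have hdeg : 1 ≤ max P.natDegree Q.natDegree := by
    have e1 : f.natDegree ≤ Q.natDegree := natDegree_le_of_dvd hfQ hQ
    have e2 : 2 ≤ f.natDegree := by
      by_contra hcon
      split_ifs at hq <;> omega
    exact le_max_of_le_right (by omega)
  obtain ⟨c, hc, hval⟩ := h4 K P Q hcop hdeg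
  obtain ⟨S1, hS1⟩ := h5 K P Q f (poles P Q) hcop hQ hform hfQ hq
  obtain ⟨C, hC0, hC⟩ := h1 K f (poles P Q) hform hp S1 ε hε
  obtain ⟨c1, hc1⟩ := (h2 K).1 1 one_pos
  have hn : (0 : ℝ) < Module.finrank ℚ K := by exact_mod_cast Module.finrank_pos
  set n : ℝ := (Module.finrank ℚ K : ℝ) with hnd
  set C1 : ℝ := 24 * n + |c1| + c + 1 with hC1
  have hC11 : 1 ≤ C1 := by
    have : 0 ≤ 24 * n + |c1| + c := by positivity
    linarith
  refine ⟨C * (1 + Real.log C1), ?_⟩
  intro X y H hX hy hH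
  have hCH : 1 ≤ C1 * H := by nlinarith
  have hb : C * y * X ^ (2 / (poles P Q : ℝ) + ε) * (1 + Real.log (C1 * H)) ≤
      C * (1 + Real.log C1) * y * X ^ (2 / (poles P Q : ℝ) + ε) * (1 + Real.log H) := by
    have e1 : 0 ≤ C * y * X ^ (2 / (poles P Q : ℝ) + ε) := by positivity
    calc C * y * X ^ (2 / (poles P Q : ℝ) + ε) * (1 + Real.log (C1 * H)) ≤
          C * y * X ^ (2 / (poles P Q : ℝ) + ε) * ((1 + Real.log C1) * (1 + Real.log H)) :=
          mul_le_mul_of_nonneg_left (Pencil_log hC11 hH) e1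
      _ = _ := by ring
  refine Pencil_fin fun F hF => ?_
  refine le_trans (hC X y (C1 * H) hX hy hCH F ?_) hb
  intro t ht
  obtain ⟨hQt, E, τ, hΔ, hj, hper, hbad, hyb, hHt⟩ := hF t ht
  obtain ⟨hfinb, hgood⟩ := h6 K E hΔ
  refine ⟨?_, ?_, ?_⟩
  · intro h0
    obtain ⟨g, hg⟩ := hfQ
    apply hQt
    rw [hg, eval_mul, h0, zero_mul]
  · have e1 := hval t hQt
    have e2 := hc1 _ τ hper
    have e3 : 24 * n * FH.faltings (P.eval t / Q.eval t) τ ≤ 24 * n * H :=
      mul_le_mul_of_nonneg_left hHt (by positivity)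
    have e4 := le_abs_self c1
    have e5 : |c1| ≤ |c1| * H := le_mul_of_one_le_right (abs_nonneg _) hH
    have e6 : c ≤ c * H := le_mul_of_one_le_right hc hH
    have e7 : C1 * H = 24 * n * H + |c1| * H + c * H + H := by
      rw [hC1]
      ring
    rw [e7]
    have e8 : Height.logHeight₁ (P.eval t / Q.eval t) ≤
        24 * n * FH.faltings (P.eval t / Q.eval t) τ + c1 := by
      refine e2.trans (le_of_eq ?_)
      ring
    linarith
  · intro T hT
    have hTb : ∀ v ∈ T, ¬ FH.GoodAt v E := by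
      intro v hv hgv
      obtain ⟨hv1, hv2⟩ := hT v hv
      have e1 := hS1 v hv1 t hQt hv2
      have e2 := hgood v hgv
      rw [hj] at e2
      exact absurd e1 (not_lt.2 e2)
    refine ⟨?_, fun v hv => hyb v (hTb v hv)⟩
    refine le_trans ?_ hbad
    have hbn : FH.badNorm E = nn hfinb.toFinset := by
      unfold FH.badNorm
      rw [finprod_mem_eq_finite_toFinset_prod _ hfinb]
      rfl
    rw [hbn]
    refine nn_mono fun v hv => ?_
    rw [Set.Finite.mem_toFinset]
    exact hTb v hv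

theorem pencilViol (h : PencilS) : PencilViolS := by
  intro K _ _ P Q hcop hQ hp κ c δ hκ hδ
  obtain ⟨q, hqd⟩ : ∃ q : ℝ, q = (poles P Q : ℝ) := ⟨_, rfl⟩
  have hq0 : 0 < q := by
    rw [hqd]
    exact_mod_cast (show 0 < poles P Q by omega)
  obtain ⟨C, hC⟩ := h K P Q hcop hQ hp (κ * δ / 2) (by positivity)
  rw [← hqd] at hC
  rw [← hqd]
  set A : ℝ := 1 + Real.exp (-c / κ) with hA
  have hA1 : 1 ≤ A := by
    have := Real.exp_pos (-c / κ)
    linarith
  set a : ℝ := δ / 2 with ha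
  have ha0 : 0 < a := by positivity
  refine ⟨|C| * A ^ (2 / q + κ * δ / 2) * (1 + 1 / a), fun y B hy hB => ?_⟩
  have hB0 : 0 < B := by linarith
  have hlB : 0 ≤ Real.log B := Real.log_nonneg hB
  have hBk : 1 ≤ B ^ (1 / κ) := Real.one_le_rpow hB (by positivity)
  set X : ℝ := A * B ^ (1 / κ) with hX
  have hX1 : 1 ≤ X := by nlinarith
  set H : ℝ := 1 + Real.log B with hH
  have hH1 : 1 ≤ H := by linarith
  obtain ⟨hfin, hcard⟩ := hC X y H hX1 hy hH1
  have hsub : PencilViol K P Q κ c y B ⊆ Pencil K P Q X y H := by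
    rintro t ⟨hQt, E, τ, hΔ, hj, hper, hyb, hHt, hbad⟩
    refine ⟨hQt, E, τ, hΔ, hj, hper, ?_, hyb, by linarith⟩
    have hpos : 0 < FH.badNorm E := lt_of_lt_of_le one_pos (Pencil_one_le E)
    have h7 : κ * Real.log (FH.badNorm E) < Real.log B - c := by linarith
    have h8 : Real.log (FH.badNorm E) ≤ (Real.log B - c) / κ := by
      rw [le_div_iff₀ hκ]
      linarith
    have h9 := (Real.log_le_iff_le_exp hpos).1 h8
    refine h9.trans ?_
    have h10 : Real.exp ((Real.log B - c) / κ) = Real.exp (-c / κ) * B ^ (1 / κ) := by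
      rw [Real.rpow_def_of_pos hB0, ← Real.exp_add]
      congr 1
      field_simp
      ring
    rw [h10, hX]
    refine mul_le_mul_of_nonneg_right ?_ (by linarith)
    linarith
  refine ⟨hfin.subset hsub, ?_⟩
  have h6 : (PencilViol K P Q κ c y B).ncard ≤ (Pencil K P Q X y H).ncard :=
    Set.ncard_le_ncard hsub hfin
  have hXt : X ^ (2 / q + κ * δ / 2) = A ^ (2 / q + κ * δ / 2) * B ^ (2 / q / κ + δ / 2) := by
    rw [hX, Real.mul_rpow (by linarith) (by linarith), ← Real.rpow_mul hB0.le]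
    congr 2
    field_simp
  have hlog : 1 + Real.log H ≤ (1 + 1 / a) * B ^ (δ / 2) := by
    have e1 : Real.log H ≤ Real.log B := by
      have := Real.log_le_sub_one_of_pos (show 0 < H by linarith)
      linarith
    have e2 : Real.log B ≤ B ^ a / a := Real.log_le_rpow_div hB0.le ha0
    have e3 : 1 ≤ B ^ a := Real.one_le_rpow hB ha0.le
    have : (1 + 1 / a) * B ^ a = B ^ a + B ^ a / a := by ring
    rw [← ha]
    linarith
  have hlg : 0 ≤ 1 + Real.log H := by
    have := Real.log_nonneg hH1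
    positivity
  have hXn : 0 ≤ X ^ (2 / q + κ * δ / 2) := Real.rpow_nonneg (by linarith) _
  calc ((PencilViol K P Q κ c y B).ncard : ℝ) ≤ ((Pencil K P Q X y H).ncard : ℝ) := by
        exact_mod_cast h6
    _ ≤ C * y * X ^ (2 / q + κ * δ / 2) * (1 + Real.log H) := hcard
    _ ≤ |C| * y * X ^ (2 / q + κ * δ / 2) * (1 + Real.log H) := by
        gcongr
        exact le_abs_self C
    _ ≤ |C| * y * X ^ (2 / q + κ * δ / 2) * ((1 + 1 / a) * B ^ (δ / 2)) := by
        gcongr
    _ = |C| * A ^ (2 / q + κ * δ / 2) * (1 + 1 / a) * y *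
          (B ^ (2 / q / κ + δ / 2) * B ^ (δ / 2)) := by
        rw [hXt]; ring
    _ = |C| * A ^ (2 / q + κ * δ / 2) * (1 + 1 / a) * y *
          B ^ (2 / (q * κ) + δ) := by
        rw [← Real.rpow_add hB0]
        congr 2
        field_simp
        ring

end Pool.Agent.TH876.TM
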