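import Mathlib
import Pool.Agent.TH876.TM.Def2

set_option autoImplicit false

/-!
# The squarefree polynomial of the poles
-/

namespace Pool.Agent.TH876.TM

open NumberField IsDedekindDomain Finset Polynomial Pool.Agent.H691R3 Pool.Agent.TH876.Loc

open Classical in
theorem Pole_card {K : Type} [Field K] [CharZero K] (Q : K[X]) (hQ : Q ≠ 0) :
    ∃ f : K[X], Squarefree f ∧ f ∣ Q ∧
      (Q.map (algebraMap K (AlgebraicClosure K))).roots.toFinset.card = f.natDegree := by
  obtain ⟨f, hf⟩ : ∃ f : K[X], f = UniqueFactorizationMonoid.radical Q := ⟨_, rfl⟩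
  have hsq : Squarefree f := by rw [hf]; exact UniqueFactorizationMonoid.squarefree_radical
  have hdvd : f ∣ Q := by rw [hf]; exact UniqueFactorizationMonoid.radical_dvd_self
  have hf0 : f ≠ 0 := by rw [hf]; exact UniqueFactorizationMonoid.radical_ne_zero
  obtain ⟨n, hn⟩ := UniqueFactorizationMonoid.exists_dvd_radical_self_pow hQ
  rw [← hf] at hn
  have hinj : Function.Injective (algebraMap K (AlgebraicClosure K)) :=
    (algebraMap K (AlgebraicClosure K)).injective
  have hQm : Q.map (algebraMap K (AlgebraicClosure K)) ≠ 0 := (Polynomial.map_ne_zero_iff hinj).2 hQ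
  have hfm : f.map (algebraMap K (AlgebraicClosure K)) ≠ 0 := (Polynomial.map_ne_zero_iff hinj).2 hf0
  have hroots : (Q.map (algebraMap K (AlgebraicClosure K))).roots.toFinset =
      (f.map (algebraMap K (AlgebraicClosure K))).roots.toFinset := by
    ext x
    rw [Multiset.mem_toFinset, Multiset.mem_toFinset, mem_roots hQm, mem_roots hfm]
    constructor
    · intro hx
      have h1 : Q.map (algebraMap K (AlgebraicClosure K)) ∣
          (f.map (algebraMap K (AlgebraicClosure K))) ^ n := by
        rw [← Polynomial.map_pow]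
        exact Polynomial.map_dvd _ hn
      have h2 := hx.dvd h1
      have h3 : (f.map (algebraMap K (AlgebraicClosure K))).eval x ^ n = 0 := by
        rw [← Polynomial.eval_pow]
        exact h2
      exact eq_zero_of_pow_eq_zero h3
    · intro hx
      exact hx.dvd (Polynomial.map_dvd _ hdvd)
  have hsep : (f.map (algebraMap K (AlgebraicClosure K))).Separable :=
    (PerfectField.separable_iff_squarefree.2 hsq).map
  refine ⟨f, hsq, hdvd, ?_⟩
  rw [hroots, Multiset.toFinset_card_of_nodup (nodup_roots hsep),
    Polynomial.splits_iff_card_roots.1 (IsAlgClosed.splits _), Polynomial.natDegree_map]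

theorem pole : PoleS := by
  intro K _ _ P Q hQ hp
  obtain ⟨f, hsq, hdvd, hcard⟩ := Pole_card Q hQ
  have h : poles P Q = f.natDegree + if Q.natDegree < P.natDegree then 1 else 0 := by
    unfold poles
    rw [hcard]
  refine ⟨f, ⟨hsq, ?_, ?_, hp⟩, hdvd, h⟩
  · rw [h]
    exact Nat.le_add_right _ _
  · rw [h]
    split_ifs
    · exact le_rfl
    · exact Nat.le_succ _

end Pool.Agent.TH876.TM
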