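import Mathlib
import Pool.Agent.TH876.TM.Def2

set_option autoImplicit false

/-!
# The height of a value of a rational function
-/

namespace Pool.Agent.TH876.TM

open NumberField IsDedekindDomain Finset Polynomial Pool.Agent.H691R3 Pool.Agent.TH876.Loc

section aux

variable {K : Type} [Field K]

/-- Bezout relations for the powers of the variable -/
theorem Val_rel {P Q : K[X]} (hPQ : IsCoprime P Q) {d n : ℕ} (hd : 1 ≤ d) (hP : P.natDegree = d)
    (hQ : Q.natDegree ≤ d) (hn : 2 * d ≤ n) :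
    ∃ A B : K[X], A * P + B * Q = X ^ n ∧ A.natDegree ≤ n - d ∧ B.natDegree ≤ n - d := by
  obtain ⟨u, w, huw⟩ := hPQ
  have hP0 : P ≠ 0 := by
    rintro rfl
    rw [Polynomial.natDegree_zero] at hP
    omega
  have hB : ((X ^ n * w) % P).natDegree < d := by
    rw [← hP]
    exact Polynomial.natDegree_mod_lt _ (by omega)
  have hdiv : P * ((X ^ n * w) / P) + (X ^ n * w) % P = X ^ n * w := EuclideanDomain.div_add_mod _ _
  have hrel : (X ^ n * u + (X ^ n * w) / P * Q) * P + (X ^ n * w) % P * Q = X ^ n := by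
    linear_combination Q * hdiv + X ^ n * huw
  refine ⟨X ^ n * u + (X ^ n * w) / P * Q, (X ^ n * w) % P, hrel, ?_, by omega⟩
  obtain ⟨A, hA⟩ : ∃ A, A = X ^ n * u + (X ^ n * w) / P * Q := ⟨_, rfl⟩
  obtain ⟨B, hB'⟩ : ∃ B, B = (X ^ n * w) % P := ⟨_, rfl⟩
  rw [← hA, ← hB'] at hrel
  rw [← hB'] at hB
  rw [← hA]
  by_cases hA0 : A = 0
  · rw [hA0, Polynomial.natDegree_zero]
    exact Nat.zero_le _
  · have h1 : (A * P).natDegree = A.natDegree + d := by
      rw [Polynomial.natDegree_mul hA0 hP0, hP]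
    have h2 : A * P = X ^ n - B * Q := by linear_combination hrel
    have h3 : (A * P).natDegree ≤ n := by
      rw [h2]
      refine (Polynomial.natDegree_sub_le _ _).trans (max_le (Polynomial.natDegree_X_pow_le n) ?_)
      refine Polynomial.natDegree_mul_le.trans ?_
      omega
    omega

/-- homogenization -/
noncomputable def Val_hom (A : K[X]) (M : ℕ) : MvPolynomial (Fin 2) K :=
  ∑ i ∈ Finset.range (M + 1), MvPolynomial.C (A.coeff i) * MvPolynomial.X 0 ^ i *
    MvPolynomial.X 1 ^ (M - i)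

theorem Val_isHom (A : K[X]) (M : ℕ) : (Val_hom A M).IsHomogeneous M := by
  refine MvPolynomial.IsHomogeneous.sum _ _ _ fun i hi => ?_
  have h1 := ((MvPolynomial.isHomogeneous_C (Fin 2) (A.coeff i)).mul
    ((MvPolynomial.isHomogeneous_X K (0 : Fin 2)).pow i)).mul
      ((MvPolynomial.isHomogeneous_X K (1 : Fin 2)).pow (M - i))
  have h2 : 0 + 1 * i + 1 * (M - i) = M := by
    rw [Finset.mem_range] at hi
    omega
  rwa [h2] at h1

theorem Val_eval {A : K[X]} {M : ℕ} (h : A.natDegree ≤ M) (t : K) :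
    (Val_hom A M).eval ![t, 1] = A.eval t := by
  unfold Val_hom
  rw [map_sum, Polynomial.eval_eq_sum_range' (Nat.lt_succ_of_le h)]
  refine Finset.sum_congr rfl fun i _ => ?_
  simp

end aux

theorem Val_main {K : Type} [Field K] [NumberField K] {P Q : K[X]} {d n : ℕ} (hd : 1 ≤ d)
    (hP : P.natDegree ≤ d) (hQ : Q.natDegree ≤ d) (hn : d ≤ n) {A B u w : K[X]}
    (h0 : A * P + B * Q = X ^ n) (h1 : u * P + w * Q = 1) (hA : A.natDegree ≤ n - d)
    (hB : B.natDegree ≤ n - d) (hu : u.natDegree ≤ n - d) (hw : w.natDegree ≤ n - d) :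
    ∃ c : ℝ, 0 ≤ c ∧ ∀ t : K,
      Height.logHeight₁ t ≤ Height.logHeight₁ (P.eval t / Q.eval t) + c := by
  obtain ⟨C0, hC⟩ := Height.logHeight_eval_ge' (K := K) (M := n - d) (N := d)
    (q := fun a : Fin 2 × Fin 2 => Val_hom ((![![A, B], ![u, w]] : Fin 2 → Fin 2 → K[X]) a.1 a.2)
      (n - d)) (fun a => Val_isHom _ _)
  refine ⟨|C0|, abs_nonneg _, fun t => ?_⟩
  have hrel : ∀ k : Fin 2, ∑ i : Fin 2,
      (Val_hom ((![![A, B], ![u, w]] : Fin 2 → Fin 2 → K[X]) k i) (n - d)).eval ![t, 1] *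
      ((![Val_hom P d, Val_hom Q d] : Fin 2 → MvPolynomial (Fin 2) K) i).eval ![t, 1] =
        (![t, 1] : Fin 2 → K) k ^ (n - d + d) := by
    intro k
    fin_cases k
    · simp only [Fin.sum_univ_two, Fin.zero_eta, Fin.isValue, Matrix.cons_val_zero,
        Matrix.cons_val_one]
      rw [Val_eval hA, Val_eval hB, Val_eval hP, Val_eval hQ, Nat.sub_add_cancel hn]
      have h2 := congrArg (Polynomial.eval t) h0
      rwa [Polynomial.eval_add, Polynomial.eval_mul, Polynomial.eval_mul, Polynomial.eval_pow,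
        Polynomial.eval_X] at h2
    · simp only [Fin.sum_univ_two, Fin.mk_one, Fin.isValue, Matrix.cons_val_zero,
        Matrix.cons_val_one]
      rw [Val_eval hu, Val_eval hw, Val_eval hP, Val_eval hQ, one_pow]
      have h2 := congrArg (Polynomial.eval t) h1
      rwa [Polynomial.eval_add, Polynomial.eval_mul, Polynomial.eval_mul,
        Polynomial.eval_one] at h2
  have h := hC ![Val_hom P d, Val_hom Q d] hrel
  have hfun : (fun i => ((![Val_hom P d, Val_hom Q d] : Fin 2 → MvPolynomial (Fin 2) K) i).eval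
      ![t, 1]) = ![P.eval t, Q.eval t] := by
    funext i
    fin_cases i
    · exact Val_eval hP t
    · exact Val_eval hQ t
  rw [hfun, ← Height.logHeight₁_eq_logHeight, ← Height.logHeight₁_div_eq_logHeight] at h
  have h3 := Height.zero_le_logHeight₁ t
  have h4 : (1 : ℝ) ≤ d := by exact_mod_cast hd
  have h5 := neg_abs_le C0
  nlinarith

theorem val : ValS := by
  intro K _ _ P Q hPQ hd
  obtain ⟨u, w, huw⟩ := hPQ
  obtain ⟨n, hn1, hn2, hn3⟩ : ∃ n : ℕ, 2 * max P.natDegree Q.natDegree ≤ n ∧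
      u.natDegree ≤ n - max P.natDegree Q.natDegree ∧
      w.natDegree ≤ n - max P.natDegree Q.natDegree :=
    ⟨2 * max P.natDegree Q.natDegree + u.natDegree + w.natDegree, by omega, by omega, by omega⟩
  have key : ∃ A B : K[X], A * P + B * Q = X ^ n ∧
      A.natDegree ≤ n - max P.natDegree Q.natDegree ∧
      B.natDegree ≤ n - max P.natDegree Q.natDegree := by
    rcases le_total Q.natDegree P.natDegree with h | h
    · exact Val_rel ⟨u, w, huw⟩ hd (max_eq_left h).symm (le_max_right _ _) hn1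
    · obtain ⟨A, B, h1, h2, h3⟩ := Val_rel (P := Q) (Q := P) ⟨w, u, by rw [add_comm]; exact huw⟩ hd
        (max_eq_right h).symm (le_max_left _ _) hn1
      exact ⟨B, A, by rw [add_comm]; exact h1, h3, h2⟩
  obtain ⟨A, B, h0, hA, hB⟩ := key
  obtain ⟨c, hc0, hc⟩ := Val_main hd (le_max_left _ _) (le_max_right _ _) (by omega) h0 huw hA hB
    hn2 hn3
  exact ⟨c, hc0, fun t _ => hc t⟩

end Pool.Agent.TH876.TM
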