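import Mathlib
import Pool.Agent.TH876.TM.Def

set_option autoImplicit false

/-!
# The stacky line from the count of small values of forms
-/

namespace Pool.Agent.TH876.TM

open NumberField IsDedekindDomain Finset Polynomial Pool.Agent.H691R3 Pool.Agent.TH876.Loc

section Aux

variable {K : Type} [Field K] [NumberField K]

private theorem Main_val (v : Pr K) (x : K) :
    fv v x = ((WithZeroMulInt.toNNReal (NumberField.HeightOneSpectrum.absNorm_ne_zero v)
      (v.valuation K x) : NNReal) : ℝ) :=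
  NumberField.FinitePlace.norm_embedding' (v := v) (x := x)

private theorem Main_lt_one (v : Pr K) (x : K) : v.valuation K x < 1 ↔ fv v x < 1 := by
  rw [Main_val, NNReal.coe_lt_one]
  exact (WithZeroMulInt.toNNReal_lt_one_iff
    (NumberField.HeightOneSpectrum.one_lt_absNorm_nnreal v)).symm

private theorem Main_le_one (v : Pr K) (x : K) : v.valuation K x ≤ 1 ↔ fv v x ≤ 1 := by
  rw [Main_val, NNReal.coe_le_one]
  exact (WithZeroMulInt.toNNReal_le_one_iff
    (NumberField.HeightOneSpectrum.one_lt_absNorm_nnreal v)).symm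

private theorem Main_eq_one (v : Pr K) (x : K) : v.valuation K x = 1 ↔ fv v x = 1 := by
  constructor
  · intro h
    refine le_antisymm ((Main_le_one v x).1 h.le) (not_lt.1 fun h' => ?_)
    exact absurd ((Main_lt_one v x).2 h') (by rw [h]; exact lt_irrefl _)
  · intro h
    refine le_antisymm ((Main_le_one v x).2 h.le) (not_lt.1 fun h' => ?_)
    exact absurd ((Main_lt_one v x).1 h') (by rw [h]; exact lt_irrefl _)

private theorem Main_max (v : Pr K) (x : K) :
    ((WithZeroMulInt.toNNReal (NumberField.HeightOneSpectrum.absNorm_ne_zero v)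
      (max (v.valuation K x) 1) : NNReal) : ℝ) = max (fv v x) 1 := by
  rcases le_total (v.valuation K x) 1 with h | h
  · rw [max_eq_right h, map_one, max_eq_right ((Main_le_one v x).1 h)]
    rfl
  · have h1 : 1 ≤ fv v x := by
      by_contra hc
      have := (Main_lt_one v x).2 (not_le.1 hc)
      exact absurd h (not_le.2 this)
    rw [max_eq_left h, max_eq_left h1, ← Main_val]

private theorem Main_lt (v : Pr K) (x z : K) (n : ℕ) (h : fv v z < max (fv v x) 1 ^ n) :
    v.valuation K z < max (v.valuation K x) 1 ^ n := by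
  rw [← (WithZeroMulInt.toNNReal_strictMono
    (NumberField.HeightOneSpectrum.one_lt_absNorm_nnreal v)).lt_iff_lt, map_pow,
    ← NNReal.coe_lt_coe, NNReal.coe_pow]
  have h1 := Main_max v x
  have h2 := Main_val v z
  rw [h2, ← h1] at h
  exact h

private theorem Main_max_pow {t : ℝ} (ht : 0 ≤ t) (m : ℕ) : max (t ^ m) 1 = max t 1 ^ m := by
  rcases le_total t 1 with h | h
  · rw [max_eq_right h, one_pow, max_eq_right (pow_le_one₀ ht h)]
  · rw [max_eq_left h, max_eq_left (one_le_pow₀ h)]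

private theorem Main_form {g : K[X]} (hg : Squarefree g) (hg0 : g.eval 0 ≠ 0) {m : ℕ} (hm : 1 ≤ m)
    (h3 : 3 ≤ m * g.natDegree) {a : K} (ha : a ≠ 0) :
    Form (g.comp (C a * X ^ m)) (m * g.natDegree) := by
  have hdeg : (g.comp (C a * X ^ m)).natDegree = g.natDegree * m := by
    rw [natDegree_comp, natDegree_C_mul_X_pow m a ha]
  refine ⟨?_, ?_, ?_, by omega⟩
  · rw [← PerfectField.separable_iff_squarefree] at hg ⊢
    unfold Polynomial.Separable at hg ⊢
    obtain ⟨u, w, huw⟩ := hg
    have h1 : IsCoprime (g.comp (C a * X ^ m)) ((derivative g).comp (C a * X ^ m)) := by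
      refine ⟨u.comp (C a * X ^ m), w.comp (C a * X ^ m), ?_⟩
      have := congrArg (fun p : K[X] => p.comp (C a * X ^ m)) huw
      simpa [add_comp, mul_comp] using this
    have hc : (g.comp (C a * X ^ m)).coeff 0 ≠ 0 := by
      rw [coeff_zero_eq_eval_zero, eval_comp]
      simpa [zero_pow (by omega : m ≠ 0)] using hg0
    have h2 : IsCoprime (g.comp (C a * X ^ m)) (X : K[X]) := by
      set f := g.comp (C a * X ^ m) with hf
      refine ⟨C (f.coeff 0)⁻¹, -(C (f.coeff 0)⁻¹ * divX f), ?_⟩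
      have h4 := divX_mul_X_add f
      have h5 : C (f.coeff 0)⁻¹ * C (f.coeff 0) = (1 : K[X]) := by
        rw [← C_mul, inv_mul_cancel₀ hc, C_1]
      calc C (f.coeff 0)⁻¹ * f + -(C (f.coeff 0)⁻¹ * divX f) * X
          = C (f.coeff 0)⁻¹ * (f - divX f * X) := by ring
        _ = C (f.coeff 0)⁻¹ * C (f.coeff 0) := by
            congr 1
            linear_combination (-1 : K[X]) * h4
        _ = 1 := h5
    have hder : derivative (g.comp (C a * X ^ m)) =
        (C a * C (m : K)) * X ^ (m - 1) * (derivative g).comp (C a * X ^ m) := by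
      rw [derivative_comp, derivative_C_mul, derivative_X_pow]
      simp only [map_natCast]
      ring
    rw [hder]
    have hunit : IsCoprime (g.comp (C a * X ^ m)) (C a * C (m : K)) := by
      have hm0 : (m : K) ≠ 0 := by exact_mod_cast (by omega : m ≠ 0)
      refine ⟨0, C (a * m)⁻¹, ?_⟩
      rw [zero_mul, zero_add, ← C_mul, ← C_mul, inv_mul_cancel₀ (mul_ne_zero ha hm0), C_1]
    exact (hunit.mul_right (h2.pow_right)).mul_right h1
  · rw [hdeg, mul_comm]
  · rw [hdeg, mul_comm]; omega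

private theorem Main_lam (f : K[X]) (q : ℕ) (v : Pr K) (x : K) :
    lam f q (Sum.inr v : Pl K) x =
      q * Real.log (max (fv v x) 1) - Real.log (fv v (f.eval x)) := by
  unfold lam hl lg
  show (q : ℝ) * (1 * _) - 1 * _ = _
  rw [one_mul, one_mul]
  rfl

end Aux

theorem main (K : Type) [Field K] [NumberField K] (h1 : CountS K) (h2 : SelS K) : MainS K := by
  classical
  intro S hS m g hg hg0 h3 ε hε
  have hm : 1 ≤ m := by
    by_contra hc
    have : m = 0 := by omega
    rw [this, zero_mul] at h3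
    omega
  obtain ⟨A, S1, hSS1, hA, hsel⟩ := h2 S hS m hm
  obtain ⟨fa, hfa⟩ : ∃ fa : K → K[X], fa = fun a => g.comp (C a * X ^ m) := ⟨_, rfl⟩
  have hfe : ∀ a r : K, (fa a).eval r = g.eval (a * r ^ m) := by
    intro a r
    rw [hfa]
    simp [eval_comp]
  -- the counts for the classes
  have hcount : ∀ a ∈ A, ∃ c : ℝ, 0 < c ∧ ∀ X y H : ℝ, 1 ≤ X → 1 ≤ y → 1 ≤ H → ∀ F : Finset K,
      (∀ x ∈ F, (fa a).eval x ≠ 0 ∧ Height.logHeight₁ x ≤ H ∧
        ∀ T : Finset (Pr K), (∀ v ∈ T, v ∉ S1 ∧
          0 < lam (fa a) (m * g.natDegree) (Sum.inr v : Pl K) x) → nn T ≤ X ∧ ∀ v ∈ T, Nv v ≤ y) →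
      (F.card : ℝ) ≤ c * y * X ^ (2 / ((m * g.natDegree : ℕ) : ℝ) + ε) * (1 + Real.log H) := by
    intro a ha
    refine h1 (fa a) (m * g.natDegree) ?_ h3 S1 ε hε
    rw [hfa]
    exact Main_form hg hg0 hm h3 (hA a ha).1
  choose! cc hcc using hcount
  obtain ⟨w, hw⟩ : ∃ w : ℝ, w = ∑ a ∈ A, Height.logHeight₁ a := ⟨_, rfl⟩
  have hw0 : 0 ≤ w := by
    rw [hw]
    exact Finset.sum_nonneg fun a _ => Height.zero_le_logHeight₁ a
  have hwa : ∀ a ∈ A, Height.logHeight₁ a ≤ w := by
    intro a ha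
    rw [hw]
    exact Finset.single_le_sum (f := fun a => Height.logHeight₁ a)
      (fun a _ => Height.zero_le_logHeight₁ a) ha
  have hlw : 0 ≤ Real.log (1 + w) := Real.log_nonneg (by linarith)
  refine ⟨(∑ a ∈ A, cc a) * (1 + Real.log (1 + w)), ?_⟩
  intro Y y H hX hy hH
  have hX0 : 0 < Y := by linarith
  have hy0 : 0 < y := by linarith
  have hlH : 0 ≤ Real.log H := Real.log_nonneg hH
  have hH'1 : 1 ≤ (1 + w) * H := by nlinarith
  have key : ∀ x ∈ Pts S m g Y y H, ∃ a r : K, a ∈ A ∧ x = a * r ^ m ∧ (fa a).eval r ≠ 0 ∧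
      Height.logHeight₁ r ≤ (1 + w) * H ∧ ∀ T : Finset (Pr K), (∀ v ∈ T, v ∉ S1 ∧
          0 < lam (fa a) (m * g.natDegree) (Sum.inr v : Pl K) r) →
        nn T ≤ Y ∧ ∀ v ∈ T, Nv v ≤ y := by
    rintro x ⟨hx0, hgx, hval, hexp, hsm, hht⟩
    obtain ⟨a, ha, r, hr0, hxr⟩ := hsel x hx0 hval
    obtain ⟨ha0, hav⟩ := hA a ha
    have hev : (fa a).eval r = g.eval x := by rw [hfe, ← hxr]
    refine ⟨a, r, ha, hxr, by rw [hev]; exact hgx, ?_, ?_⟩
    · have e1 : r ^ m = x * a⁻¹ := by
        rw [hxr]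
        field_simp
      have e2 := Height.logHeight₁_pow r m
      rw [e1] at e2
      have e3 := Height.logHeight₁_mul_le x a⁻¹
      rw [Height.logHeight₁_inv] at e3
      have e4 := Height.zero_le_logHeight₁ r
      have e5 : (1 : ℝ) ≤ m := by exact_mod_cast hm
      have e6 := hwa a ha
      nlinarith
    · intro T hT
      have hT' : ∀ v ∈ T, v ∉ S ∧
          v.valuation K (g.eval x) < max (v.valuation K x) 1 ^ g.natDegree := by
        intro v hv
        obtain ⟨h4, h5⟩ := hT v hv
        refine ⟨fun h6 => h4 (hSS1 v h6), ?_⟩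
        apply Main_lt
        rw [Main_lam, hev] at h5
        have hfa1 : fv v a = 1 := (Main_eq_one v a).1 (hav v h4)
        have hfx : fv v x = fv v r ^ m := by
          rw [hxr, map_mul, map_pow, hfa1, one_mul]
        have h7 : max (fv v x) 1 ^ g.natDegree = max (fv v r) 1 ^ (m * g.natDegree) := by
          rw [hfx, Main_max_pow ((fv v).nonneg _), pow_mul]
        rw [h7]
        have h8 : 0 < max (fv v r) 1 := lt_of_lt_of_le one_pos (le_max_right _ _)
        rw [← Real.log_lt_log_iff ((fv v).pos hgx) (pow_pos h8 _), Real.log_pow]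
        linarith
      refine ⟨?_, fun v hv => hsm v (hT' v hv).1 (hT' v hv).2⟩
      obtain ⟨I, hI⟩ : ∃ I : Set (Pr K), I = {v : Pr K | v ∉ S ∧
        v.valuation K (g.eval x) < max (v.valuation K x) 1 ^ g.natDegree} := ⟨_, rfl⟩
      have hIf : I.Finite := by
        refine ((fv_support_finite hgx).union (fv_support_finite hx0)).subset ?_
        intro v hv
        rw [hI] at hv
        by_contra hc
        rw [Set.mem_union, not_or, Set.mem_ofPred_eq, Set.mem_ofPred_eq, not_not, not_not] at hc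
        have h9 := hv.2
        rw [(Main_eq_one v _).2 hc.1, (Main_eq_one v _).2 hc.2, max_self, one_pow] at h9
        exact lt_irrefl _ h9
      have hc : ∑ᶠ v ∈ {v : HeightOneSpectrum (𝓞 K) | v ∉ S ∧
          v.valuation K (g.eval x) < max (v.valuation K x) 1 ^ g.natDegree},
          Real.log (Ideal.absNorm v.asIdeal : ℝ) = Real.log (nn hIf.toFinset) := by
        have hln : Real.log (nn hIf.toFinset) = ∑ v ∈ hIf.toFinset, Real.log (Nv v) := by
          unfold nn
          rw [Real.log_prod (fun v _ => (Nv_pos v).ne')]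
        rw [hln, ← finsum_mem_coe_finset, Set.Finite.coe_toFinset, hI]
        rfl
      rw [hc, Real.exp_log (nn_pos _)] at hexp
      refine (nn_mono ?_).trans hexp
      intro v hv
      rw [Set.Finite.mem_toFinset, hI]
      exact hT' v hv
  choose! α ρ hαA hαρ hαe hαh hαT using key
  obtain ⟨B, hB⟩ : ∃ B : ℝ, B = (∑ a ∈ A, cc a) * y *
    Y ^ (2 / ((m * g.natDegree : ℕ) : ℝ) + ε) * (1 + Real.log ((1 + w) * H)) := ⟨_, rfl⟩
  have hbound : ∀ G : Finset K, (G : Set K) ⊆ Pts S m g Y y H → (G.card : ℝ) ≤ B := by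
    intro G hG
    have e1 := Finset.card_eq_sum_card_fiberwise (s := G) (t := A) (f := α)
      (fun x hx => hαA x (hG hx))
    rw [e1, Nat.cast_sum, hB, Finset.sum_mul, Finset.sum_mul, Finset.sum_mul]
    refine Finset.sum_le_sum fun a ha => ?_
    have e2 : (G.filter fun x => α x = a).card = ((G.filter fun x => α x = a).image ρ).card := by
      rw [Finset.card_image_of_injOn]
      intro x hx z hz hxz
      rw [Finset.mem_coe, Finset.mem_filter] at hx hz
      have f1 := hαρ x (hG hx.1)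
      have f2 := hαρ z (hG hz.1)
      rw [f1, f2, hx.2, hz.2]
      rw [hxz]
    rw [e2]
    refine (hcc a ha).2 Y y ((1 + w) * H) hX hy hH'1 _ ?_
    intro t ht
    obtain ⟨x, hx, rfl⟩ := Finset.mem_image.1 ht
    rw [Finset.mem_filter] at hx
    have hxP := hG hx.1
    obtain ⟨hx1, hx2⟩ := hx
    subst hx2
    exact ⟨hαe x hxP, hαh x hxP, hαT x hxP⟩
  have hfin : (Pts S m g Y y H).Finite := by
    by_contra hinf
    obtain ⟨G, hGV, hGc⟩ := Set.Infinite.exists_subset_card_eq hinf (⌊B⌋₊ + 1)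
    have e1 := hbound G hGV
    have e2 := Nat.lt_floor_add_one B
    rw [hGc] at e1
    push_cast at e1
    linarith
  refine ⟨hfin, ?_⟩
  rw [Set.ncard_eq_toFinset_card _ hfin]
  refine (hbound hfin.toFinset (by rw [Set.Finite.coe_toFinset])).trans ?_
  rw [hB, Real.log_mul (by linarith) (by linarith)]
  have e1 : 1 + (Real.log (1 + w) + Real.log H) ≤ (1 + Real.log (1 + w)) * (1 + Real.log H) := by
    nlinarith [mul_nonneg hlw hlH]
  have hcc0 : 0 ≤ ∑ a ∈ A, cc a := Finset.sum_nonneg fun a ha => (hcc a ha).1.le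
  have e2 : ((m * g.natDegree : ℕ) : ℝ) = (m : ℝ) * g.natDegree := by push_cast; ring
  rw [e2]
  calc (∑ a ∈ A, cc a) * y * Y ^ (2 / ((m : ℝ) * g.natDegree) + ε) *
        (1 + (Real.log (1 + w) + Real.log H))
      ≤ (∑ a ∈ A, cc a) * y * Y ^ (2 / ((m : ℝ) * g.natDegree) + ε) *
        ((1 + Real.log (1 + w)) * (1 + Real.log H)) :=
        mul_le_mul_of_nonneg_left e1 (by positivity)
    _ = _ := by ring

end Pool.Agent.TH876.TM
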