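import Mathlib
import Pool.Agent.TH876.TM.Def

set_option autoImplicit false

/-!
# TM-SEL (job 5331, helper460): the finitely many classes modulo `m`-th powers
-/

namespace Pool.Agent.TH876.TM

open NumberField IsDedekindDomain Finset Polynomial Pool.Agent.H691R3 Pool.Agent.TH876.Loc

section Aux

variable {K : Type} [Field K] [NumberField K]

private theorem Sel_val (v : Pr K) (x : K) :
    fv v x = ((WithZeroMulInt.toNNReal (NumberField.HeightOneSpectrum.absNorm_ne_zero v)
      (v.valuation K x) : NNReal) : ℝ) :=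
  NumberField.FinitePlace.norm_embedding' (v := v) (x := x)

private theorem Sel_lt_one (v : Pr K) (x : K) : v.valuation K x < 1 ↔ fv v x < 1 := by
  rw [Sel_val, NNReal.coe_lt_one]
  exact (WithZeroMulInt.toNNReal_lt_one_iff
    (NumberField.HeightOneSpectrum.one_lt_absNorm_nnreal v)).symm

private theorem Sel_le_one (v : Pr K) (x : K) : v.valuation K x ≤ 1 ↔ fv v x ≤ 1 := by
  rw [Sel_val, NNReal.coe_le_one]
  exact (WithZeroMulInt.toNNReal_le_one_iff
    (NumberField.HeightOneSpectrum.one_lt_absNorm_nnreal v)).symm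

private theorem Sel_eq_one (v : Pr K) (x : K) : v.valuation K x = 1 ↔ fv v x = 1 := by
  constructor
  · intro h
    refine le_antisymm ((Sel_le_one v x).1 h.le) (not_lt.1 fun h' => ?_)
    exact absurd ((Sel_lt_one v x).2 h') (by rw [h]; exact lt_irrefl _)
  · intro h
    refine le_antisymm ((Sel_le_one v x).2 h.le) (not_lt.1 fun h' => ?_)
    exact absurd ((Sel_lt_one v x).1 h') (by rw [h]; exact lt_irrefl _)

private theorem Sel_exp (v : Pr K) (k : ℤ) :
    ((WithZeroMulInt.toNNReal (NumberField.HeightOneSpectrum.absNorm_ne_zero v)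
      (WithZero.exp k) : NNReal) : ℝ) = Nv v ^ k := by
  have hx' : (WithZero.exp k : WithZero (Multiplicative ℤ)) ≠ 0 := WithZero.exp_ne_zero
  rw [WithZeroMulInt.toNNReal_neg_apply _ hx']
  have h2 : Multiplicative.toAdd (WithZero.unzero hx') = k := by
    have h3 : (↑(WithZero.unzero hx') : WithZero (Multiplicative ℤ)) = WithZero.exp k :=
      WithZero.coe_unzero hx'
    have h4 : WithZero.unzero hx' = Multiplicative.ofAdd k := WithZero.coe_injective h3
    rw [h4]
    rfl
  rw [h2]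
  push_cast
  rfl

end Aux

variable (K : Type) [Field K] [NumberField K]

theorem sel (h : Pool.Agent.TH876.NP.ClassesS K) : SelS K := by
  classical
  intro S hS m hm
  rcases Nat.lt_or_ge m 2 with h1 | h2
  · obtain rfl : m = 1 := by omega
    refine ⟨{1}, hS.toFinset, fun v hv => hS.mem_toFinset.2 hv, ?_, ?_⟩
    · intro a ha
      rw [Finset.mem_singleton] at ha
      subst ha
      exact ⟨one_ne_zero, fun v _ => map_one _⟩
    · intro x hx _
      exact ⟨1, Finset.mem_singleton_self 1, x, hx, by rw [pow_one, one_mul]⟩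
  obtain ⟨C, -, hC⟩ := h m h2
  obtain ⟨P, hP⟩ : ∃ P : K → Prop, P = fun x => x ≠ 0 ∧
    ∀ v : HeightOneSpectrum (𝓞 K), v ∉ S → ∃ n : ℤ,
      v.valuation K x = WithZero.exp ((m : ℤ) * n) := ⟨_, rfl⟩
  obtain ⟨Q, hQ⟩ : ∃ Q : Finset K → Prop, Q = fun F => (∀ x ∈ F, P x) ∧
    ∀ x ∈ F, ∀ y ∈ F, (∃ g : K, g ≠ 0 ∧ x = y * g ^ m) → x = y := ⟨_, rfl⟩
  obtain ⟨B, hB⟩ : ∃ B : ℕ, B = C ^ (hS.toFinset.card + 1) := ⟨_, rfl⟩
  have bound : ∀ F : Finset K, Q F → F.card ≤ B := by
    intro F hF
    rw [hQ] at hF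
    obtain ⟨hF1, hF2⟩ := hF
    obtain ⟨f, hf1, hf2⟩ := hC hS.toFinset F (by
      intro r hr
      have hr1 := hF1 r hr
      rw [hP] at hr1
      refine ⟨hr1.1, fun v hv => ?_⟩
      rw [Set.Finite.mem_toFinset] at hv
      obtain ⟨n, hn⟩ := hr1.2 v hv
      exact ⟨n, by rw [Sel_val, hn, Sel_exp]⟩)
    have h3 := Finset.card_le_card_of_injOn (s := F) (t := Finset.range B) f
      (fun x hx => Finset.mem_coe.2 (Finset.mem_range.2 (hB ▸ hf1 x hx)))
      (fun x hx y hy hxy => hF2 x hx y hy (hf2 x hx y hy hxy))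
    rwa [Finset.card_range] at h3
  obtain ⟨A, hA, hmax⟩ : ∃ A : Finset K, Q A ∧ ∀ F : Finset K, Q F → F.card ≤ A.card := by
    have hne : {k : ℕ | ∃ F : Finset K, Q F ∧ F.card = k}.Nonempty := by
      refine ⟨0, ∅, ?_, Finset.card_empty⟩
      rw [hQ]
      simp
    have hbd : BddAbove {k : ℕ | ∃ F : Finset K, Q F ∧ F.card = k} := by
      refine ⟨B, ?_⟩
      rintro k ⟨F, hF, rfl⟩
      exact bound F hF
    obtain ⟨A, hA, hAc⟩ := Nat.sSup_mem hne hbd
    refine ⟨A, hA, fun F hF => ?_⟩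
    rw [hAc]
    exact le_csSup hbd ⟨F, hF, rfl⟩
  have hA' := hA
  rw [hQ] at hA'
  obtain ⟨hA1, hA2⟩ := hA'
  have hA0 : ∀ a ∈ A, a ≠ 0 := by
    intro a ha
    have := hA1 a ha
    rw [hP] at this
    exact this.1
  have hfin : {v : Pr K | ∃ a ∈ A, fv v a ≠ 1}.Finite := by
    have e : {v : Pr K | ∃ a ∈ A, fv v a ≠ 1} = ⋃ a ∈ A, {v : Pr K | fv v a ≠ 1} := by
      ext v
      simp
    rw [e]
    exact A.finite_toSet.biUnion fun a ha => fv_support_finite (hA0 a ha)
  refine ⟨A, hS.toFinset ∪ hfin.toFinset, fun v hv => Finset.mem_union_left _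
    (hS.mem_toFinset.2 hv), ?_, ?_⟩
  · intro a ha
    refine ⟨hA0 a ha, fun v hv => ?_⟩
    rw [Sel_eq_one]
    by_contra hc
    exact hv (Finset.mem_union_right _ (hfin.mem_toFinset.2 ⟨a, ha, hc⟩))
  · intro x hx hxv
    by_contra hcon
    push Not at hcon
    have hxA : x ∉ A := fun hxA => hcon x hxA 1 one_ne_zero (by rw [one_pow, mul_one])
    have hQi : Q (insert x A) := by
      rw [hQ]
      refine ⟨?_, ?_⟩
      · intro y hy
        rw [Finset.mem_insert] at hy
        rcases hy with rfl | hy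
        · rw [hP]
          exact ⟨hx, hxv⟩
        · exact hA1 y hy
      · intro y hy z hz hyz
        rw [Finset.mem_insert] at hy hz
        obtain ⟨g, hg, hgz⟩ := hyz
        rcases hy with rfl | hy
        · rcases hz with rfl | hz
          · rfl
          · exact absurd hgz (hcon z hz g hg)
        · rcases hz with rfl | hz
          · exfalso
            refine hcon y hy g⁻¹ (inv_ne_zero hg) ?_
            rw [hgz, inv_pow, mul_assoc, mul_inv_cancel₀ (pow_ne_zero m hg), mul_one]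
          · exact hA2 y hy z hz ⟨g, hg, hgz⟩
    have h3 := hmax _ hQi
    rw [Finset.card_insert_of_notMem hxA] at h3
    omega

end Pool.Agent.TH876.TM
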