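import Mathlib
import Pool.Agent.TH876.TM.Def3

set_option autoImplicit false

/-!
# abc with two perfect powers over a number field: from the affine coordinate to projective points
-/

namespace Pool.Agent.TH876.TM

open NumberField IsDedekindDomain Finset Polynomial Pool.Agent.H691R3 Pool.Agent.TH876.Loc

theorem TwoPts_val {K : Type} [Field K] [NumberField K] {x : Fin 3 → K}
    (hs : x 0 + x 1 + x 2 = 0) (h1 : x 1 ≠ 0) (v : HeightOneSpectrum (𝓞 K)) :
    v.valuation K (x 0 / x 1 + 1) < max (v.valuation K (x 0 / x 1)) 1 ^ 1 ↔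
      v.valuation K (x 2) < max (v.valuation K (x 0)) (v.valuation K (x 1)) := by
  have hv1 : v.valuation K (x 1) ≠ 0 := (Valuation.ne_zero_iff _).mpr h1
  have hv0 : 0 < v.valuation K (x 1) := zero_lt_iff.mpr hv1
  have e1 : v.valuation K (x 0 / x 1 + 1) * v.valuation K (x 1) = v.valuation K (x 2) := by
    rw [← map_mul, ← Valuation.map_neg]
    congr 1
    field_simp
    linear_combination -hs
  have e2 : max (v.valuation K (x 0 / x 1)) 1 * v.valuation K (x 1) =
      max (v.valuation K (x 0)) (v.valuation K (x 1)) := by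
    rw [← max_mul_mul_right, one_mul, ← map_mul, div_mul_cancel₀ _ h1]
  rw [pow_one, ← e1, ← e2]
  exact (mul_lt_mul_iff_left₀ hv0).symm

theorem TwoPts_height {K : Type} [Field K] [NumberField K] (x : Fin 3 → K) :
    Height.logHeight₁ (x 0 / x 1) ≤ Height.logHeight x := by
  rw [Height.logHeight₁_div_eq_logHeight]
  have e : (![x 0, x 1] : Fin 2 → K) = x ∘ (![0, 1] : Fin 2 → Fin 3) := by
    funext i
    fin_cases i <;> rfl
  rw [e]
  exact Height.logHeight_comp_le _ _

theorem TwoPts_mem {K : Type} [Field K] [NumberField K] {S : Set (HeightOneSpectrum (𝓞 K))}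
    {m : ℕ} {X' y H : ℝ} {x : Fin 3 → K} (hs : x 0 + x 1 + x 2 = 0) (hne : x 0 * x 1 * x 2 ≠ 0)
    (h3 : ∀ v : HeightOneSpectrum (𝓞 K), v ∉ S →
      ∃ n : ℤ, v.valuation K (x 0 / x 1) = WithZero.exp ((m : ℤ) * n))
    (h4 : Real.exp (∑ᶠ v ∈ {v : HeightOneSpectrum (𝓞 K) | v ∉ S ∧
      v.valuation K (x 2) < max (v.valuation K (x 0)) (v.valuation K (x 1))},
      Real.log (Ideal.absNorm v.asIdeal : ℝ)) ≤ X')
    (h5 : ∀ v : HeightOneSpectrum (𝓞 K), v ∉ S →
      v.valuation K (x 2) < max (v.valuation K (x 0)) (v.valuation K (x 1)) →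
      (Ideal.absNorm v.asIdeal : ℝ) ≤ y)
    (h6 : Height.logHeight x ≤ H) :
    x 0 / x 1 ∈ Pts S m (X + C 1 : K[X]) X' y H := by
  have h0 : x 0 ≠ 0 := fun h => hne (by rw [h]; ring)
  have h1 : x 1 ≠ 0 := fun h => hne (by rw [h]; ring)
  have h2 : x 2 ≠ 0 := fun h => hne (by rw [h]; ring)
  have hd : (X + C 1 : K[X]).natDegree = 1 := natDegree_X_add_C 1
  have he : (X + C 1 : K[X]).eval (x 0 / x 1) = x 0 / x 1 + 1 := by simp
  have hiff : ∀ v : HeightOneSpectrum (𝓞 K),
      v.valuation K ((X + C 1 : K[X]).eval (x 0 / x 1)) <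
        max (v.valuation K (x 0 / x 1)) 1 ^ (X + C 1 : K[X]).natDegree ↔
      v.valuation K (x 2) < max (v.valuation K (x 0)) (v.valuation K (x 1)) := by
    intro v
    rw [hd, he]
    exact TwoPts_val hs h1 v
  refine ⟨div_ne_zero h0 h1, ?_, h3, ?_, ?_, (TwoPts_height x).trans h6⟩
  · rw [he]
    intro h
    apply h2
    have h7 : x 0 + x 1 = 0 := by
      field_simp at h
      linear_combination h
    linear_combination hs - h7
  · have e : {v : HeightOneSpectrum (𝓞 K) | v ∉ S ∧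
        v.valuation K ((X + C 1 : K[X]).eval (x 0 / x 1)) <
          max (v.valuation K (x 0 / x 1)) 1 ^ (X + C 1 : K[X]).natDegree} =
        {v : HeightOneSpectrum (𝓞 K) | v ∉ S ∧
          v.valuation K (x 2) < max (v.valuation K (x 0)) (v.valuation K (x 1))} := by
      ext v
      simp only [Set.mem_ofPred_eq, hiff v]
    rw [e]
    exact h4
  · intro v hv h
    exact h5 v hv ((hiff v).mp h)

theorem twoPts (h : ∀ (K : Type) [Field K] [NumberField K], MainS K) : TwoPtsS := by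
  intro K _ _ S hS m hm ε hε
  have hd : (X + C 1 : K[X]).natDegree = 1 := natDegree_X_add_C 1
  have hsq : Squarefree (X + C 1 : K[X]) :=
    (irreducible_of_degree_eq_one (degree_X_add_C 1)).squarefree
  obtain ⟨Cc, hC⟩ := h K S hS m (X + C 1 : K[X]) hsq (by simp) (by rw [hd, mul_one]; exact hm) ε hε
  refine ⟨Cc, fun X' y H hX hy hH => ?_⟩
  obtain ⟨hf, hc⟩ := hC X' y H hX hy hH
  have hex : ∀ p : Projectivization K (Fin 3 → K), ∃ x : Fin 3 → K, p ∈ TwoPts K S m X' y H →
      ∃ hx : x ≠ 0, p = Projectivization.mk K x hx ∧ x 0 + x 1 + x 2 = 0 ∧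
        x 0 * x 1 * x 2 ≠ 0 ∧ x 0 / x 1 ∈ Pts S m (X + C 1 : K[X]) X' y H := by
    intro p
    by_cases hp : p ∈ TwoPts K S m X' y H
    · obtain ⟨x, hx, e, hs, hne, h3, h4, h5, h6⟩ := hp
      exact ⟨x, fun _ => ⟨hx, e, hs, hne, TwoPts_mem hs hne h3 h4 h5 h6⟩⟩
    · exact ⟨0, fun h => absurd h hp⟩
  choose f hff using hex
  have hmaps : ∀ p ∈ TwoPts K S m X' y H, f p 0 / f p 1 ∈ Pts S m (X + C 1 : K[X]) X' y H := by
    intro p hp
    obtain ⟨_, _, _, _, h7⟩ := hff p hp
    exact h7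
  have hinj : Set.InjOn (fun p => f p 0 / f p 1) (TwoPts K S m X' y H) := by
    intro p hp q hq hpq
    obtain ⟨hx, e1, hs, hne, _⟩ := hff p hp
    obtain ⟨hy, e2, hs', hne', _⟩ := hff q hq
    have h1 : f p 1 ≠ 0 := fun h => hne (by rw [h]; ring)
    have h1' : f q 1 ≠ 0 := fun h => hne' (by rw [h]; ring)
    simp only at hpq
    rw [e1, e2, Projectivization.mk_eq_mk_iff']
    refine ⟨f p 1 / f q 1, ?_⟩
    have g0 : f p 0 = f p 1 / f q 1 * f q 0 := by
      rw [div_eq_div_iff h1 h1'] at hpq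
      field_simp
      linear_combination hpq
    have g1 : f p 1 = f p 1 / f q 1 * f q 1 := by field_simp
    funext i
    rw [Pi.smul_apply, smul_eq_mul]
    fin_cases i
    · exact g0.symm
    · exact g1.symm
    · have g2 : f p 2 = -(f p 0 + f p 1) := by linear_combination hs
      have g2' : f q 2 = -(f q 0 + f q 1) := by linear_combination hs'
      show f p 1 / f q 1 * f q 2 = f p 2
      rw [g2, g2']
      linear_combination g0 + g1
  refine ⟨Set.Finite.of_injOn (f := fun p => f p 0 / f p 1) hmaps hinj hf, ?_⟩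
  have h7 : (TwoPts K S m X' y H).ncard ≤ (Pts S m (X + C 1 : K[X]) X' y H).ncard :=
    Set.ncard_le_ncard_of_injOn (fun p => f p 0 / f p 1) hmaps hinj hf
  rw [hd, Nat.cast_one, mul_one] at hc
  exact (by exact_mod_cast h7 : ((TwoPts K S m X' y H).ncard : ℝ) ≤
    ((Pts S m (X + C 1 : K[X]) X' y H).ncard : ℝ)).trans hc

end Pool.Agent.TH876.TM
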