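import Mathlib
import Pool.Agent.TH876.TM.Def
import Pool.Agent.TH876.TM.Def3

set_option autoImplicit false

/-!
# The count, uniformly in the number field: definitions and statements
-/

namespace Pool.Agent.TH876.TM

open NumberField IsDedekindDomain Finset Polynomial Pool.Agent.H691R3 Pool.Agent.TH876.Loc

/-- few elements of small height, uniformly in the field -/
def NorthU : Prop := ∀ (n : ℕ) (l : ℝ), ∃ N : ℕ, ∀ (K : Type) [Field K] [NumberField K],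
  Module.finrank ℚ K = n → ∀ F : Finset K, (∀ x ∈ F, Height.logHeight₁ x ≤ l) → F.card ≤ N

/-- sets of primes with a small product of the norms, uniformly in the field -/
def SetsU : Prop := ∀ (n : ℕ) (C δ : ℝ), 1 ≤ C → 0 < δ → ∃ D : ℝ, 0 < D ∧
  ∀ (K : Type) [Field K] [NumberField K], Module.finrank ℚ K = n → ∀ M : ℝ, 1 ≤ M →
    ∀ U : Finset (Finset (Pr K)), (∀ s ∈ U, nn s ≤ M) → ∑ s ∈ U, C ^ s.card ≤ D * M ^ (1 + δ)

/-- the count at one scale with a given set of primes, uniformly in the field -/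
def ScaleU : Prop := ∀ (n q s k : ℕ) (c : ℝ), 1 ≤ k → ∃ (C : ℕ) (l0 : ℝ), 1 ≤ C ∧ 1 ≤ l0 ∧
  ∀ (K : Type) [Field K] [NumberField K], Module.finrank ℚ K = n → ∀ (f : K[X])
    (S0 : Finset (Pr K)) (typ : Pl K → K → ℕ), S0.card ≤ s → Sys f q S0 c typ →
    ∀ (l : ℝ) (T : Finset (Pr K)) (F : Finset K), l0 ≤ l → Disjoint T S0 →
    (∀ x ∈ F, f.eval x ≠ 0 ∧ l ≤ Height.logHeight₁ x ∧
      Height.logHeight₁ x ≤ (1 + 1 / (8 * (k : ℝ))) * l ∧
      (2 + 1 / (k : ℝ)) * Height.logHeight₁ x ≤ tot S0 T (fun v => lam f q v x)) →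
    (F.card : ℝ) ≤ (C : ℝ) ^ (T.card + 1)

/-- the count, uniformly in the field -/
def CountU : Prop := ∀ (n q s : ℕ) (c ε : ℝ), 3 ≤ q → 0 < ε → ∃ C : ℝ, 0 < C ∧
  ∀ (K : Type) [Field K] [NumberField K], Module.finrank ℚ K = n → ∀ (f : K[X])
    (S0 : Finset (Pr K)) (typ : Pl K → K → ℕ), S0.card ≤ s → Sys f q S0 c typ →
    ∀ X y H : ℝ, 1 ≤ X → 1 ≤ y → 1 ≤ H → ∀ F : Finset K,
    (∀ x ∈ F, f.eval x ≠ 0 ∧ Height.logHeight₁ x ≤ H ∧
      ∀ T : Finset (Pr K), (∀ v ∈ T, v ∉ S0 ∧ 0 < lam f q (Sum.inr v : Pl K) x) →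
        nn T ≤ X ∧ ∀ v ∈ T, Nv v ≤ y) →
    (F.card : ℝ) ≤ C * y * X ^ (2 / (q : ℝ) + ε) * (1 + Real.log H)

/-- the local data for three points, uniformly in the field -/
def ThreeU : Prop := ∃ c : ℝ, ∀ (K : Type) [Field K] [NumberField K],
  ∃ typ : Pl K → K → ℕ, Sys (X * (X + 1) : K[X]) 3 ∅ c typ

/-- the points `(a : b : c)` with `a + b + c = 0`, `abc ≠ 0`, with logarithm of the conductor at
most `T`, with primes of norm at most `y` in the conductor and with logarithmic height at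
most `B` -/
def UPts (K : Type) [Field K] [NumberField K] (T y B : ℝ) :
    Set (Projectivization K (Fin 3 → K)) :=
  {P | ∃ (x : Fin 3 → K) (hx : x ≠ 0), P = Projectivization.mk K x hx ∧ x 0 + x 1 + x 2 = 0 ∧
    x 0 * x 1 * x 2 ≠ 0 ∧
    (∑ᶠ v ∈ supp x, Real.log (Ideal.absNorm v.asIdeal : ℝ)) / (Module.finrank ℚ K : ℝ) ≤ T ∧
    (∀ v ∈ supp x, (Ideal.absNorm v.asIdeal : ℝ) ≤ y) ∧
    Height.logHeight x / (Module.finrank ℚ K : ℝ) ≤ B}

/-- the count of these points, uniformly in the field -/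
def UPtsS : Prop := ∀ (n : ℕ) (ε : ℝ), 0 < ε → ∃ C : ℝ,
  ∀ (K : Type) [Field K] [NumberField K], Module.finrank ℚ K = n → ∀ T y B : ℝ, 0 ≤ T → 1 ≤ y →
    1 ≤ B → (UPts K T y B).Finite ∧ ((UPts K T y B).ncard : ℝ) ≤
      C * y * Real.exp ((2 / 3 + ε) * n * T) * (1 + Real.log B)

end Pool.Agent.TH876.TM
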