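import Mathlib
import Pool.Agent.TH876.TM.Def4
import Pool.Agent.TH876.TM.Count
import Pool.Agent.TH876.TM.Glob

set_option autoImplicit false

/-!
# Values of binary forms with a small radical: the count, uniformly in the number field
(adapted from `TM/Count.lean`)
-/

namespace Pool.Agent.TH876.TM

open NumberField IsDedekindDomain Finset Polynomial Pool.Agent.H691R3 Pool.Agent.TH876.Loc

private theorem CountU_inf (K : Type) [Field K] [NumberField K] :
    Fintype.card (InfinitePlace K) ≤ Module.finrank ℚ K := by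
  rw [← NumberField.InfinitePlace.sum_mult_eq, Fintype.card_eq_sum_ones]
  exact Finset.sum_le_sum fun w _ => NumberField.InfinitePlace.mult_pos

theorem countU (h1 : NorthU) (h2 : SetsU) (h3 : ScaleU) : CountU := by
  classical
  intro n q s c ε hq hε
  obtain ⟨k, hk⟩ := exists_nat_ge (max 2 (2 / ε))
  have hk2 : (2 : ℝ) ≤ k := (le_max_left _ _).trans hk
  have hkε : 2 / ε ≤ k := (le_max_right _ _).trans hk
  have hk2' : 2 ≤ k := by exact_mod_cast hk2
  have hk0 : (0 : ℝ) < k := by linarith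
  obtain ⟨C, l0, hC, hl0, hs'⟩ := h3 n q s k c (by omega)
  have hC1 : (1 : ℝ) ≤ C := by exact_mod_cast hC
  obtain ⟨D, hD, hsum'⟩ := h2 n (C : ℝ) (ε / 4) hC1 (by positivity)
  obtain ⟨l1, hl1⟩ : ∃ l1 : ℝ, l1 = max l0 (k * (c * ((s : ℝ) + n))) := ⟨_, rfl⟩
  have hl10 : l0 ≤ l1 := by rw [hl1]; exact le_max_left _ _
  have hl1p : 0 < l1 := by linarith
  obtain ⟨N0, hN0⟩ := h1 n l1
  refine ⟨N0 + (8 * k + 1) * (C * D), by positivity, ?_⟩
  intro K _ _ hKn f S typ hScard hsys X y H hX hy hH F hF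
  have hsum := hsum' K hKn
  have hs := hs' K hKn f S typ hScard hsys
  obtain ⟨c1, _, _, _, hglob⟩ := glob K f q S c typ hsys
  have hl11 : k * (c * ((S.card : ℝ) + Fintype.card (InfinitePlace K))) ≤ l1 := by
    have e1 : ((S.card : ℝ) + Fintype.card (InfinitePlace K)) ≤ (s : ℝ) + n := by
      have e2 := CountU_inf K
      rw [hKn] at e2
      exact add_le_add (Nat.cast_le.2 hScard) (Nat.cast_le.2 e2)
    rw [hl1]
    refine le_trans ?_ (le_max_right _ _)
    exact mul_le_mul_of_nonneg_left (mul_le_mul_of_nonneg_left e1 hsys.c0) hk0.le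
  have hX0 : 0 < X := by linarith
  have hlogH : 0 ≤ Real.log H := Real.log_nonneg hH
  obtain ⟨M, hM⟩ : ∃ M : ℝ, M = min y X * X ^ ((2 + 2 / (k : ℝ)) / q) := ⟨_, rfl⟩
  have hmin : 1 ≤ min y X := le_min hy hX
  have hM1 : 1 ≤ M := by
    rw [hM]
    exact one_le_mul_of_one_le_of_one_le hmin (Real.one_le_rpow hX (by positivity))
  obtain ⟨P, hP⟩ : ∃ P : ℝ, P = y * X ^ (2 / (q : ℝ) + ε) := ⟨_, rfl⟩
  have hMP : M ^ (1 + ε / 4) ≤ P := by
    rw [hM, hP]
    exact Count_pow hX hy hε hk2' hkε hq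
  have hP1 : 1 ≤ P := by
    rw [hP]
    exact one_le_mul_of_one_le_of_one_le hy (Real.one_le_rpow hX (by positivity))
  have hTex : ∀ x ∈ F, l1 ≤ Height.logHeight₁ x → ∃ T : Finset (Pr K), Disjoint T S ∧
      nn T ≤ M ∧ (2 + 1 / (k : ℝ)) * Height.logHeight₁ x ≤ tot S T (fun v => lam f q v x) := by
    intro x hx hlx
    obtain ⟨hx0, _, hT⟩ := hF x hx
    obtain ⟨B, hB, hB2⟩ := hglob x hx0
    obtain ⟨hB3, hB4⟩ := hT B (fun v hv => (hB v).1 hv)
    rw [hM]
    exact Count_choose hsys hx0 hB hB2 hX hy hB3 hB4 hk2' hq (hl11.trans hlx)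
  choose! T hT1 hT2 hT3 using hTex
  obtain ⟨ρ, hρ⟩ : ∃ ρ : ℝ, ρ = 1 + 1 / (8 * (k : ℝ)) := ⟨_, rfl⟩
  have hρ1 : 1 < ρ := by
    rw [hρ]
    have : 0 < 1 / (8 * (k : ℝ)) := by positivity
    linarith
  -- small heights
  have hsmall : ((F.filter fun x => Height.logHeight₁ x < l1).card : ℝ) ≤ N0 := by
    refine Nat.cast_le.2 (hN0 K hKn _ fun x hx => ?_)
    exact (Finset.mem_filter.1 hx).2.le
  -- the scales
  obtain ⟨I, hI⟩ : ∃ I : ℕ, I = ⌊(8 * k + 1) * Real.log H⌋₊ + 1 := ⟨_, rfl⟩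
  have hIle : (I : ℝ) ≤ (8 * k + 1) * (1 + Real.log H) := by
    rw [hI]
    push_cast
    have := Nat.floor_le (show 0 ≤ (8 * (k : ℝ) + 1) * Real.log H by positivity)
    nlinarith
  obtain ⟨G, hGd⟩ : ∃ G : ℕ → Finset K, ∀ i, G i = F.filter fun x =>
      l1 * ρ ^ i ≤ Height.logHeight₁ x ∧ Height.logHeight₁ x ≤ ρ * (l1 * ρ ^ i) :=
    ⟨fun i => _, fun i => rfl⟩
  have hcover : F ⊆ (F.filter fun x => Height.logHeight₁ x < l1) ∪
      (range I).biUnion fun i => G i := by
    intro x hx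
    rw [mem_union, mem_filter, mem_biUnion]
    by_cases hlt : Height.logHeight₁ x < l1
    · exact Or.inl ⟨hx, hlt⟩
    · right
      push Not at hlt
      obtain ⟨i, hi1, hi2⟩ := exists_nat_pow_near (x := Height.logHeight₁ x / l1)
        (by rw [le_div_iff₀ hl1p]; linarith) hρ1
      have hxH := (hF x hx).2.1
      refine ⟨i, ?_, ?_⟩
      · rw [mem_range, hI, Nat.lt_add_one_iff]
        refine Nat.le_floor ?_
        have a1 : ρ ^ i ≤ H := by
          refine hi1.trans ?_
          rw [div_le_iff₀ hl1p]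
          nlinarith
        have a2 : (i : ℝ) * Real.log ρ ≤ Real.log H := by
          rw [← Real.log_pow]
          exact Real.log_le_log (by positivity) a1
        have a3 : 1 / (8 * (k : ℝ) + 1) ≤ Real.log ρ := by
          have a4 := Real.one_sub_inv_le_log_of_pos (show 0 < ρ by linarith)
          refine le_trans (le_of_eq ?_) a4
          rw [hρ]
          field_simp
          ring
        have a4 : (i : ℝ) * (1 / (8 * k + 1)) ≤ Real.log H :=
          (mul_le_mul_of_nonneg_left a3 (Nat.cast_nonneg i)).trans a2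
        calc (i : ℝ) = (8 * k + 1) * (i * (1 / (8 * k + 1))) := by field_simp
          _ ≤ (8 * k + 1) * Real.log H := mul_le_mul_of_nonneg_left a4 (by positivity)
      · rw [hGd, mem_filter]
        refine ⟨hx, ?_, ?_⟩
        · rw [le_div_iff₀ hl1p] at hi1
          linarith [mul_comm l1 (ρ ^ i)]
        · rw [div_lt_iff₀ hl1p, pow_succ] at hi2
          refine hi2.le.trans (le_of_eq ?_)
          ring
  have hsc : ∀ i ∈ range I, ((G i).card : ℝ) ≤ C * (D * P) := by
    intro i _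
    have hli : l1 ≤ l1 * ρ ^ i := by
      have : 1 ≤ ρ ^ i := one_le_pow₀ hρ1.le
      nlinarith
    have hG : ∀ x ∈ G i, x ∈ F ∧ l1 * ρ ^ i ≤ Height.logHeight₁ x ∧
        Height.logHeight₁ x ≤ ρ * (l1 * ρ ^ i) := by
      intro x hx
      rw [hGd, mem_filter] at hx
      exact hx
    have key := Count_one hC1 (fun U hU => hsum M hM1 U hU) (G i) T
      (fun x hx => hT2 x (hG x hx).1 (hli.trans (hG x hx).2.1)) (by
        intro s G' hG' hTs hne
        obtain ⟨x0, hx0⟩ := hne
        have b0 := hG x0 (hG' hx0)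
        refine hs (l1 * ρ ^ i) s G' (hl10.trans hli) ?_ ?_
        · rw [← hTs x0 hx0]
          exact hT1 x0 b0.1 (hli.trans b0.2.1)
        · intro x hx
          obtain ⟨b1, b2, b3⟩ := hG x (hG' hx)
          have b4 := hT3 x b1 (hli.trans b2)
          rw [hTs x hx] at b4
          rw [← hρ]
          exact ⟨(hF x b1).1, b2, b3, b4⟩)
    refine key.trans ?_
    exact mul_le_mul_of_nonneg_left (mul_le_mul_of_nonneg_left hMP hD.le) (by linarith)
  have hcard : (F.card : ℝ) ≤ N0 + ∑ i ∈ range I, ((G i).card : ℝ) := by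
    have a1 : F.card ≤ (F.filter fun x => Height.logHeight₁ x < l1).card +
        ∑ i ∈ range I, (G i).card :=
      (card_le_card hcover).trans ((card_union_le _ _).trans
        (Nat.add_le_add_left card_biUnion_le _))
    have a2 : (F.card : ℝ) ≤ ((F.filter fun x => Height.logHeight₁ x < l1).card : ℝ) +
        ∑ i ∈ range I, ((G i).card : ℝ) := by
      exact_mod_cast a1
    linarith
  have hsum2 : ∑ i ∈ range I, ((G i).card : ℝ) ≤ I * (C * (D * P)) := by
    refine (sum_le_sum fun i hi => hsc i hi).trans (le_of_eq ?_)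
    rw [sum_const, card_range, nsmul_eq_mul]
  have hN : (0 : ℝ) ≤ N0 := Nat.cast_nonneg _
  calc (F.card : ℝ) ≤ N0 + I * (C * (D * P)) := by linarith
    _ ≤ N0 * (P * (1 + Real.log H)) +
        ((8 * k + 1) * (1 + Real.log H)) * (C * (D * P)) := by
        refine add_le_add ?_ ?_
        · refine le_mul_of_one_le_right hN ?_
          nlinarith
        · exact mul_le_mul_of_nonneg_right hIle (by positivity)
    _ = (N0 + (8 * k + 1) * (C * D)) * P * (1 + Real.log H) := by ring
    _ = _ := by rw [hP]; ring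

end Pool.Agent.TH876.TM
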