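import Mathlib
import Pool.Agent.TH876.TM.Def4

set_option autoImplicit false

/-!
# Elements of small height, uniformly in the number field
-/

namespace Pool.Agent.TH876.TM

open NumberField IsDedekindDomain Finset Polynomial Pool.Agent.H691R3 Pool.Agent.TH876.Loc

/-- an element of small height is small at each infinite place -/
private lemma NorthU_place {K : Type} [Field K] [NumberField K] {x : K} {l : ℝ}
    (h : Height.logHeight₁ x ≤ l) (v : InfinitePlace K) : v x ≤ Real.exp l := by
  have h1 : Real.posLog (v x) ≤ Height.logHeight₁ x := by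
    rw [NumberField.logHeight₁_eq]
    have h2 : Real.posLog (v x) ≤ ∑ w : InfinitePlace K, (w.mult : ℝ) * Real.posLog (w x) := by
      have h3 : (1 : ℝ) ≤ v.mult := by exact_mod_cast v.mult_pos
      have h5 : 0 ≤ Real.posLog (v x) := Real.posLog_nonneg
      have h6 : (v.mult : ℝ) * Real.posLog (v x) ≤
          ∑ w : InfinitePlace K, (w.mult : ℝ) * Real.posLog (w x) :=
        Finset.single_le_sum
          (f := fun w : InfinitePlace K => (w.mult : ℝ) * Real.posLog (w x))
          (fun w _ => mul_nonneg (Nat.cast_nonneg _) Real.posLog_nonneg) (Finset.mem_univ v)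
      nlinarith
    have h4 : 0 ≤ ∑ᶠ w : FinitePlace K, Real.posLog (w x) :=
      finsum_nonneg fun w => Real.posLog_nonneg
    linarith
  have h7 : Real.log (v x) ≤ l := by
    have h8 : Real.log (v x) ≤ Real.posLog (v x) := by
      rw [Real.posLog]
      exact le_max_right _ _
    linarith
  rcases eq_or_lt_of_le (apply_nonneg v x) with h9 | h9
  · rw [← h9]
    exact (Real.exp_pos l).le
  · exact (Real.log_le_iff_le_exp h9).1 h7

/-- the minimal polynomial of an integral element with bounded conjugates is in a finite set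
which depends only on the degree and on the bound -/
private lemma NorthU_poly (n C : ℕ) {K : Type} [Field K] [NumberField K]
    (hK : Module.finrank ℚ K = n) {y : K} {B : ℝ} (hC : C =
      Nat.ceil (max B 1 ^ n * (n.choose (n / 2) : ℝ)))
    (hy : IsIntegral ℤ y) (hB : ∀ φ : K →+* ℂ, ‖φ y‖ ≤ B) :
    minpoly ℤ y ∈ (Fintype.piFinset (fun _ : Fin (n + 1) => Finset.Icc (-(C : ℤ)) C)).image
      (fun f => ∑ i : Fin (n + 1), monomial (i : ℕ) (f i)) := by
  have h1 := minpoly.isIntegrallyClosed_eq_field_fractions' ℚ hy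
  have h2 : (minpoly ℤ y).natDegree ≤ n := by
    rw [← (minpoly.monic hy).natDegree_map (algebraMap ℤ ℚ), ← h1, ← hK]
    exact minpoly.natDegree_le y
  rw [Finset.mem_image]
  refine ⟨fun i => (minpoly ℤ y).coeff i, ?_, ?_⟩
  · rw [Fintype.mem_piFinset]
    intro i
    rw [Finset.mem_Icc, ← abs_le, ← @Int.cast_le ℝ]
    have h3 := Embeddings.coeff_bdd_of_norm_le hB (i : ℕ)
    rw [hK] at h3
    rw [hC]
    refine (Eq.trans_le ?_ h3).trans ?_
    · rw [h1, coeff_map, eq_intCast, Int.norm_cast_rat, Int.norm_eq_abs, Int.cast_abs]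
    · exact_mod_cast Nat.le_ceil _
  · exact ((Polynomial.as_sum_range' (minpoly ℤ y) (n + 1) (by omega)).trans
      (Finset.sum_range _)).symm

theorem northU : NorthU := by
  classical
  intro n l
  set D : ℕ := Nat.floor (Real.exp l) with hD
  set B : ℝ := Real.exp l * Real.exp l with hBdef
  set C : ℕ := Nat.ceil (max B 1 ^ n * (n.choose (n / 2) : ℝ)) with hC
  set Q : Finset ℤ[X] :=
    (Fintype.piFinset (fun _ : Fin (n + 1) => Finset.Icc (-(C : ℤ)) C)).image
      (fun f => ∑ i : Fin (n + 1), monomial (i : ℕ) (f i)) with hQ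
  refine ⟨(D + 1) * ∑ p ∈ Q, p.natDegree, ?_⟩
  intro K _ _ hK F hF
  have hsub : F ⊆ (Finset.range (D + 1)).biUnion fun d => Q.biUnion fun p =>
      ((p.map (algebraMap ℤ K)).roots.toFinset.image fun y => y / (d : K)) := by
    intro x hx
    have hx1 := hF x hx
    obtain ⟨d, hd0, hd1, hd2⟩ := NumberField.exists_nat_le_mulHeight₁ x
    have hd3 : (d : ℝ) ≤ Real.exp l := by
      refine hd1.trans ?_
      rw [← Real.log_le_iff_le_exp (Height.mulHeight₁_pos x)]
      exact hx1
    have hdK : (d : K) ≠ 0 := by exact_mod_cast hd0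
    rw [Finset.mem_biUnion]
    refine ⟨d, ?_, ?_⟩
    · rw [Finset.mem_range]
      have : d ≤ D := Nat.le_floor hd3
      omega
    · rw [Finset.mem_biUnion]
      refine ⟨minpoly ℤ ((d : K) * x), ?_, ?_⟩
      · refine NorthU_poly n C hK hC hd2 ?_
        intro φ
        rw [map_mul, norm_mul, map_natCast]
        have h1 : ‖(d : ℂ)‖ ≤ Real.exp l := by
          rw [Complex.norm_natCast]
          exact hd3
        have h2 : ‖φ x‖ ≤ Real.exp l := by
          have := NorthU_place hx1 (InfinitePlace.mk φ)
          rwa [InfinitePlace.apply] at this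
        exact mul_le_mul h1 h2 (norm_nonneg _) (Real.exp_pos l).le
      · rw [Finset.mem_image]
        refine ⟨(d : K) * x, ?_, ?_⟩
        · rw [Multiset.mem_toFinset, Polynomial.mem_roots_map_of_injective
            (algebraMap ℤ K).injective_int (minpoly.ne_zero hd2)]
          exact minpoly.aeval ℤ _
        · field_simp
  calc F.card ≤ _ := Finset.card_le_card hsub
    _ ≤ ∑ d ∈ Finset.range (D + 1), ∑ p ∈ Q, p.natDegree := by
      refine Finset.card_biUnion_le.trans (Finset.sum_le_sum fun d _ => ?_)
      refine Finset.card_biUnion_le.trans (Finset.sum_le_sum fun p _ => ?_)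
      refine Finset.card_image_le.trans ?_
      refine (Multiset.toFinset_card_le _).trans ?_
      exact (Polynomial.card_roots' _).trans Polynomial.natDegree_map_le
    _ = (D + 1) * ∑ p ∈ Q, p.natDegree := by
      rw [Finset.sum_const, Finset.card_range, smul_eq_mul]

end Pool.Agent.TH876.TM
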