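import Mathlib
import Pool.Agent.TH876.TM.Def4
import Pool.Agent.TH876.TM.Glob
import Pool.Agent.TH876.TM.Scale

set_option autoImplicit false

/-!
# The count at one scale, uniformly in the number field (job 5825)
-/

namespace Pool.Agent.TH876.TM

open NumberField IsDedekindDomain Finset Polynomial Pool.Agent.H691R3 Pool.Agent.TH876.Loc

section

variable {K : Type} [Field K] [NumberField K]

/-- the gap principle with an explicit constant -/
theorem ScaleU_gap {f : K[X]} {q : ℕ} {S0 : Finset (Pr K)} {c : ℝ} {typ : Pl K → K → ℕ}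
    (hs : Sys f q S0 c typ) (x y : K) (T : Finset (Pr K)) (hx : f.eval x ≠ 0)
    (hy : f.eval y ≠ 0) (hxy : x ≠ y) (hT : Disjoint T S0)
    (htyp : ∀ v : Pl K, v ∈ Spl T ∨ v ∈ Spl S0 → typ v x = typ v y) :
    tot S0 T (fun v => min (lam f q v x) (lam f q v y)) ≤
      Height.logHeight₁ x + Height.logHeight₁ y +
        c * (S0.card + Fintype.card (InfinitePlace K)) := by
  classical
  obtain ⟨V, hV, h1, h2, h3⟩ := Glob_big x y (x - y) (sub_ne_zero.mpr hxy) (T ∪ S0)
  rw [← Glob_ds hxy h1 h2 h3]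
  have h4 := Glob_mono hV (fun v => ds v x y) (fun v _ => Glob_ds_nonneg v hxy)
  have h5 : tot S0 T (fun v => min (lam f q v x) (lam f q v y)) ≤
      tot S0 T (fun v => ds v x y) + c * (S0.card + Fintype.card (InfinitePlace K)) := by
    unfold tot
    have e1 : ∑ v ∈ T, min (lam f q (Sum.inr v : Pl K) x) (lam f q (Sum.inr v : Pl K) y) ≤
        ∑ v ∈ T, ds (Sum.inr v : Pl K) x y := by
      refine Finset.sum_le_sum fun v hv => ?_
      exact hs.gap0 v (Finset.disjoint_left.mp hT hv) x y hx hy hxy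
        (htyp _ (Or.inl ((inr_mem_Spl T v).mpr hv)))
    have e2 : ∑ v ∈ S0, min (lam f q (Sum.inr v : Pl K) x) (lam f q (Sum.inr v : Pl K) y) ≤
        ∑ v ∈ S0, (ds (Sum.inr v : Pl K) x y + c) := by
      refine Finset.sum_le_sum fun v hv => ?_
      exact hs.gap _ x y hx hy hxy (htyp _ (Or.inr ((inr_mem_Spl S0 v).mpr hv)))
    have e3 : ∑ w : InfinitePlace K,
        min (lam f q (Sum.inl w : Pl K) x) (lam f q (Sum.inl w : Pl K) y) ≤
        ∑ w : InfinitePlace K, (ds (Sum.inl w : Pl K) x y + c) := by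
      refine Finset.sum_le_sum fun w _ => ?_
      exact hs.gap _ x y hx hy hxy (htyp _ (Or.inl (inl_mem_Spl T w)))
    rw [Finset.sum_add_distrib, Finset.sum_const, nsmul_eq_mul] at e2 e3
    rw [Finset.card_univ] at e3
    linarith
  rw [Glob_tot hT (fun v => ds v x y)] at h5
  linarith

theorem ScaleU_places : Fintype.card (InfinitePlace K) ≤ Module.finrank ℚ K := by
  have h1 := NumberField.InfinitePlace.card_add_two_mul_card_eq_rank K
  have h2 := NumberField.InfinitePlace.card_eq_nrRealPlaces_add_nrComplexPlaces K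
  omega

open Classical in
/-- the count with explicit constants -/
theorem ScaleU_one {f : K[X]} {q : ℕ} {S0 : Finset (Pr K)} {c : ℝ} {typ : Pl K → K → ℕ}
    (hs : Sys f q S0 c typ) {k : ℕ} (hk : 1 ≤ k) {c1 : ℝ} (hc1 : 0 ≤ c1)
    (G1 : ∀ (x y : K) (T : Finset (Pr K)), f.eval x ≠ 0 → f.eval y ≠ 0 → x ≠ y → Disjoint T S0 →
      (∀ v : Pl K, v ∈ Spl T ∨ v ∈ Spl S0 → typ v x = typ v y) →
      tot S0 T (fun v => min (lam f q v x) (lam f q v y)) ≤
        Height.logHeight₁ x + Height.logHeight₁ y + c1)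
    (G2 : ∀ (x : K) (T : Finset (Pr K)), f.eval x ≠ 0 → Disjoint T S0 →
      tot S0 T (fun v => lam f q v x) ≤ q * Height.logHeight₁ x)
    (n0 : ℕ) (hn0 : n0 = (Spl S0).card) (l : ℝ) (T : Finset (Pr K)) (F : Finset K)
    (hl : 2 * k * c1 + n0 * c + 1 ≤ l) (hd : Disjoint T S0)
    (hF : ∀ x ∈ F, f.eval x ≠ 0 ∧ l ≤ Height.logHeight₁ x ∧
      Height.logHeight₁ x ≤ (1 + 1 / (8 * (k : ℝ))) * l ∧
      (2 + 1 / (k : ℝ)) * Height.logHeight₁ x ≤ tot S0 T (fun v => lam f q v x)) :
    1 ≤ q ∧ F.card ≤ ((q * 2 ^ (16 * k * (2 * q + 1) + 1)) ^ (n0 + 1)) ^ (T.card + 1) := by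
  obtain ⟨w0⟩ : Nonempty (InfinitePlace K) := inferInstance
  have hq : 1 ≤ q := lt_of_le_of_lt (Nat.zero_le _) (hs.typ_lt (Sum.inl w0) 0)
  refine ⟨hq, ?_⟩
  have hk0 : (1 : ℝ) ≤ k := by exact_mod_cast hk
  have hc0 := hs.c0
  have hn0c : 0 ≤ (n0 : ℝ) * c := mul_nonneg (Nat.cast_nonneg _) hc0
  have hkc : 0 ≤ 2 * k * c1 := mul_nonneg (by linarith) hc1
  have hl0 : 0 < l := by linarith
  -- the places
  set P := Spl (T ∪ S0) with hP
  have hcard : P.card ≤ (n0 + 1) * (T.card + 1) := by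
    have e1 : P.card = n0 + T.card := by
      rw [hP, card_Spl, Finset.card_union_of_disjoint hd, hn0, card_Spl]
      omega
    rw [e1]
    nlinarith [Nat.zero_le (n0 * T.card)]
  have hP1 : 1 ≤ P.card := Finset.card_pos.2 ⟨Sum.inl w0, inl_mem_Spl _ w0⟩
  obtain ⟨N, hN⟩ : ∃ N, N = P.card := ⟨_, rfl⟩
  have hN1 : 1 ≤ N := by omega
  have hNR : (1 : ℝ) ≤ N := by exact_mod_cast hN1
  obtain ⟨s, hsd⟩ : ∃ s : ℝ, s = 16 * k * N / l := ⟨_, rfl⟩
  have hs0 : 0 < s := by rw [hsd]; positivity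
  -- offsets
  set o : Pl K → ℝ := fun v => if v ∈ Spl S0 then c else 0 with ho
  have hpos : ∀ x ∈ F, ∀ v ∈ P, 0 ≤ lam f q v x + o v := by
    intro x hx v hv
    have hfx := (hF x hx).1
    simp only [ho]
    split_ifs with hv0
    · have := hs.low v x hfx
      linarith
    · rcases v with w | v
      · exact absurd (inl_mem_Spl S0 w) hv0
      · rw [inr_mem_Spl] at hv0
        rw [add_zero]
        exact hs.nonneg v hv0 x hfx
  have hosum : ∑ v ∈ P, o v = n0 * c := by
    simp only [ho]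
    rw [Finset.sum_ite_mem, Finset.inter_eq_right.2 (Spl_mono Finset.subset_union_right),
      Finset.sum_const, nsmul_eq_mul, hn0]
  -- types and cells
  let a1 : K → (P → Fin q) := fun x v => ⟨typ v.1 x, hs.typ_lt _ _⟩
  let a2 : K → (P → ℕ) := fun x v => ⌊(lam f q v.1 x + o v.1) * s⌋₊
  have hinj : Set.InjOn (fun x => (a1 x, a2 x)) (F : Set K) := by
    intro x hx y hy hxy
    have e1 : a1 x = a1 y := congrArg Prod.fst hxy
    have e2 : a2 x = a2 y := congrArg Prod.snd hxy
    by_contra hne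
    obtain ⟨fx, x1, x2, x3⟩ := hF x hx
    obtain ⟨fy, y1, y2, y3⟩ := hF y hy
    refine Scale_pair (f := f) (q := q) (typ := typ) hc1 hk (by linarith) hd (x := x) (y := y)
      (N := N) (by linarith) (by rw [hN]) (G1 x y T fx fy hne hd) ?_ ?_ x1 x3 y2
    · intro v hv
      have := congrFun e1 ⟨v, hv⟩
      exact congrArg Fin.val this
    · intro v hv
      have h1 := congrFun e2 ⟨v, hv⟩
      have h2 := KR.floor_close hs0 (hpos x hx v hv) (hpos y hy v hv) h1
      have h3 : lam f q v x + o v - (lam f q v y + o v) = lam f q v x - lam f q v y := by ring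
      rw [h3] at h2
      refine h2.trans (le_of_eq ?_)
      rw [hsd, one_div_div]
  -- the number of cells
  have hB : ∀ g ∈ F.image a2, ∑ v, g v ≤ 16 * k * (2 * q + 1) * N := by
    intro g hg
    obtain ⟨x, hx, rfl⟩ := Finset.mem_image.1 hg
    obtain ⟨fx, x1, x2, x3⟩ := hF x hx
    have h1 : ((∑ v, a2 x v : ℕ) : ℝ) ≤ 16 * k * (2 * q + 1) * N := by
      rw [Nat.cast_sum]
      calc ∑ v : P, (a2 x v : ℝ) ≤ ∑ v : P, (lam f q v.1 x + o v.1) * s :=
            Finset.sum_le_sum fun v _ =>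
              Nat.floor_le (mul_nonneg (hpos x hx v.1 v.2) hs0.le)
        _ = (∑ v ∈ P, (lam f q v x + o v)) * s := by
            rw [← Finset.sum_mul]
            congr 1
            exact Finset.sum_coe_sort P (fun v => lam f q v x + o v)
        _ = (tot S0 T (fun v => lam f q v x) + n0 * c) * s := by
            rw [Finset.sum_add_distrib, hosum, Scale_tot hd]
        _ ≤ ((2 * q + 1) * l) * s := by
            refine mul_le_mul_of_nonneg_right ?_ hs0.le
            have h2 := G2 x T fx hd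
            have h3 : Height.logHeight₁ x ≤ 2 * l := by
              refine x2.trans (mul_le_mul_of_nonneg_right ?_ hl0.le)
              have : 1 / (8 * (k : ℝ)) ≤ 1 := by
                rw [div_le_one (by positivity)]
                linarith
              linarith
            have h4 : (q : ℝ) * Height.logHeight₁ x ≤ q * (2 * l) :=
              mul_le_mul_of_nonneg_left h3 (Nat.cast_nonneg _)
            linarith
        _ = 16 * k * (2 * q + 1) * N := by rw [hsd]; field_simp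
    exact_mod_cast h1
  have h2 := count_fun (16 * k * (2 * q + 1) * N) (F.image a2) hB
  rw [Fintype.card_coe, ← hN] at h2
  have h2' : (F.image a2).card ≤ 2 ^ (16 * k * (2 * q + 1) * N + N) := by exact_mod_cast h2
  have h3 : F.card ≤ (Fintype.card (P → Fin q)) * (F.image a2).card := by
    rw [← Finset.card_univ, ← Finset.card_product]
    refine Finset.card_le_card_of_injOn (fun x => (a1 x, a2 x)) ?_ hinj
    intro x hx
    rw [Finset.mem_coe, Finset.mem_product]
    exact ⟨Finset.mem_univ _, Finset.mem_image_of_mem _ hx⟩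
  rw [Fintype.card_fun, Fintype.card_fin, Fintype.card_coe, ← hN] at h3
  have h4 : F.card ≤ (q * 2 ^ (16 * k * (2 * q + 1) + 1)) ^ N := by
    refine h3.trans ((Nat.mul_le_mul_left _ h2').trans (le_of_eq ?_))
    rw [mul_pow, ← pow_mul]
    congr 2
    ring
  refine h4.trans ?_
  rw [← pow_mul]
  apply Nat.pow_le_pow_right (Nat.one_le_iff_ne_zero.2 (by positivity))
  omega

end

theorem scaleU : ScaleU := by
  intro n q s k c hk
  refine ⟨((q + 1) * 2 ^ (16 * k * (2 * q + 1) + 1)) ^ (s + n + 1),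
    2 * k * (|c| * (s + n)) + (s + n) * |c| + 1, Nat.one_le_iff_ne_zero.2 (by positivity),
    ?_, ?_⟩
  · have : (0 : ℝ) ≤ 2 * k * (|c| * (s + n)) + (s + n) * |c| := by positivity
    linarith
  intro K _ _ hn f S0 typ hS hs l T F hl hd hF
  have hc0 := hs.c0
  have hI : Fintype.card (InfinitePlace K) ≤ n := hn ▸ ScaleU_places
  have hIR : (Fintype.card (InfinitePlace K) : ℝ) ≤ n := by exact_mod_cast hI
  have hSR : (S0.card : ℝ) ≤ s := by exact_mod_cast hS
  obtain ⟨-, -, -, G2, -⟩ := glob K f q S0 c typ hs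
  have hn0 : (Spl S0).card ≤ s + n := by
    rw [card_Spl]
    omega
  have hn0R : ((Spl S0).card : ℝ) ≤ s + n := by exact_mod_cast hn0
  have hk0 : (0 : ℝ) ≤ 2 * k := by positivity
  rw [abs_of_nonneg hc0] at hl
  have hle : 2 * k * (c * (S0.card + Fintype.card (InfinitePlace K))) +
      ((Spl S0).card : ℝ) * c + 1 ≤ l := by
    have h1 : 2 * k * (c * (S0.card + Fintype.card (InfinitePlace K))) ≤
        2 * k * (c * (s + n)) := by
      refine mul_le_mul_of_nonneg_left (mul_le_mul_of_nonneg_left ?_ hc0) hk0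
      linarith
    have h2 : ((Spl S0).card : ℝ) * c ≤ (s + n) * c := mul_le_mul_of_nonneg_right hn0R hc0
    linarith
  obtain ⟨hq, h1⟩ := ScaleU_one hs hk (mul_nonneg hc0 (by positivity))
    (fun x y T hx hy hxy hT ht => ScaleU_gap hs x y T hx hy hxy hT ht) G2 _ rfl l T F hle hd hF
  have h2 : F.card ≤ (((q + 1) * 2 ^ (16 * k * (2 * q + 1) + 1)) ^ (s + n + 1)) ^ (T.card + 1) := by
    refine h1.trans (Nat.pow_le_pow_left ?_ _)
    calc (q * 2 ^ (16 * k * (2 * q + 1) + 1)) ^ ((Spl S0).card + 1)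
        ≤ ((q + 1) * 2 ^ (16 * k * (2 * q + 1) + 1)) ^ ((Spl S0).card + 1) :=
          Nat.pow_le_pow_left (Nat.mul_le_mul_right _ (Nat.le_succ q)) _
      _ ≤ ((q + 1) * 2 ^ (16 * k * (2 * q + 1) + 1)) ^ (s + n + 1) :=
          Nat.pow_le_pow_right (Nat.one_le_iff_ne_zero.2 (by positivity)) (by omega)
  exact_mod_cast h2

end Pool.Agent.TH876.TM
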