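import Mathlib
import Pool.Agent.TH876.TM.Def4
import Pool.Agent.TH876.KR.Sets

set_option autoImplicit false

/-!
# Sets of primes with a small product of the norms, uniformly in the number field
-/

namespace Pool.Agent.TH876.TM

open NumberField IsDedekindDomain Finset Polynomial Pool.Agent.H691R3 Pool.Agent.TH876.Loc

theorem setsU : SetsU := by
  classical
  intro n C δ hC hδ
  have hC0 : 0 < C := by linarith
  set S : ℝ := ∑' n : ℕ, ((n : ℝ) ^ (1 + δ))⁻¹ with hS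
  refine ⟨Real.exp (C * ((n : ℝ) * S)), Real.exp_pos _, ?_⟩
  intro K _ _ hn M hM U hU
  have hM0 : 0 < M := by linarith
  have h1 := sum_sets_le (fun v : Pr K => C * (Nv v) ^ (-(1 + δ)))
    (fun v => mul_nonneg hC0.le (Real.rpow_nonneg (Nv_pos v).le _))
    (U.biUnion id) U (fun s hs => Finset.subset_biUnion_of_mem id hs)
  have h2 : ∑ v ∈ U.biUnion id, C * (Nv v) ^ (-(1 + δ)) ≤ C * ((n : ℝ) * S) := by
    rw [← Finset.mul_sum]
    refine mul_le_mul_of_nonneg_left ?_ hC0.le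
    have h := Pool.Agent.TH876.KR.sum_rpow_le δ hδ (U.biUnion id)
    rw [hn] at h
    exact h
  have h3 : ∀ s ∈ U, C ^ s.card ≤ M ^ (1 + δ) * ∏ v ∈ s, (C * (Nv v) ^ (-(1 + δ))) := by
    intro s hs
    rw [Finset.prod_mul_distrib, Finset.prod_const]
    have e1 : ∏ v ∈ s, (Nv v) ^ (-(1 + δ)) = (nn s) ^ (-(1 + δ)) := by
      unfold nn
      rw [Real.finsetProd_rpow _ _ (fun v _ => (Nv_pos v).le)]
    rw [e1]
    have e2 : 1 ≤ M ^ (1 + δ) * (nn s) ^ (-(1 + δ)) := by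
      rw [Real.rpow_neg (nn_pos s).le, ← div_eq_mul_inv,
        one_le_div (Real.rpow_pos_of_pos (nn_pos s) _)]
      exact Real.rpow_le_rpow (nn_pos s).le (hU s hs) (by linarith)
    have e3 : 0 < C ^ s.card := pow_pos hC0 _
    nlinarith
  calc ∑ s ∈ U, C ^ s.card
      ≤ ∑ s ∈ U, M ^ (1 + δ) * ∏ v ∈ s, (C * (Nv v) ^ (-(1 + δ))) := Finset.sum_le_sum h3
    _ = M ^ (1 + δ) * ∑ s ∈ U, ∏ v ∈ s, (C * (Nv v) ^ (-(1 + δ))) := by
        rw [Finset.mul_sum]
    _ ≤ M ^ (1 + δ) * Real.exp (C * ((n : ℝ) * S)) :=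
        mul_le_mul_of_nonneg_left (h1.trans (Real.exp_le_exp.2 h2))
          (Real.rpow_nonneg hM0.le _)
    _ = _ := by ring

end Pool.Agent.TH876.TM
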