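import Mathlib
import Pool.Agent.TH876.TM.Def4
import Pool.Agent.TH876.TM.Local

set_option autoImplicit false

/-!
# The local data for three points, uniformly in the field
-/

namespace Pool.Agent.TH876.TM

open NumberField IsDedekindDomain Finset Polynomial Pool.Agent.H691R3 Pool.Agent.TH876.Loc

section

variable {K : Type} [Field K] [NumberField K]

/-- the two finite zeros -/
def ThreeU_al (K : Type) [Field K] (i : ℕ) : K := if i = 0 then 0 else -1

theorem ThreeU_H (v : Pl K) : Local_H (av v) 2 (ThreeU_al K) (cv v) 1 1 := by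
  refine ⟨one_le_cv v, le_rfl, one_pos, le_rfl, av_add v, ?_, ?_⟩
  · intro i _
    unfold ThreeU_al
    split_ifs
    · rw [map_zero]
      exact zero_le_one
    · rw [(av v).map_neg, map_one]
  · intro i hi j hj hij
    have h1 : (i = 0 ∧ j = 1) ∨ (i = 1 ∧ j = 0) := by omega
    rcases h1 with ⟨rfl, rfl⟩ | ⟨rfl, rfl⟩
    · have h2 : ThreeU_al K 0 - ThreeU_al K 1 = 1 := by simp [ThreeU_al]
      rw [h2, map_one]
    · have h2 : ThreeU_al K 1 - ThreeU_al K 0 = -1 := by simp [ThreeU_al]
      rw [h2, (av v).map_neg, map_one]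

/-- the constant at one place -/
noncomputable def ThreeU_g (v : Pl K) : ℝ :=
  mt v * (|Real.log (av v (1 : K))| + ((3 : ℕ) + 1) * Local_k (cv v) 1 1)

theorem ThreeU_g_fin (v : Pr K) : ThreeU_g (Sum.inr v : Pl K) = 0 := by
  unfold ThreeU_g
  have h4 : cv (Sum.inr v : Pl K) = 1 := rfl
  rw [h4, map_one]
  simp [Local_k]

theorem ThreeU_g_le (v : Pl K) : ThreeU_g v ≤ 100 := by
  rcases v with w | v
  · unfold ThreeU_g
    have h4 : cv (Sum.inl w : Pl K) = 2 := rfl
    rw [h4, map_one, Real.log_one, abs_zero, zero_add]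
    have h5 : mt (Sum.inl w : Pl K) ≤ 2 := by
      show (w.mult : ℝ) ≤ 2
      unfold InfinitePlace.mult
      split_ifs <;> norm_num
    have h6 : Local_k (2 : ℝ) 1 1 ≤ 3 := by
      unfold Local_k
      have h7 := Real.log_le_sub_one_of_pos (show (0 : ℝ) < 2 ^ 2 * 1 / 1 by norm_num)
      norm_num at h7 ⊢
      linarith
    have h8 : 0 ≤ Local_k (2 : ℝ) 1 1 := by
      unfold Local_k
      apply Real.log_nonneg
      norm_num
    have h9 := mt_pos (Sum.inl w : Pl K)
    push_cast
    nlinarith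
  · rw [ThreeU_g_fin]
    norm_num

end

theorem threeU : ThreeU := by
  classical
  refine ⟨100, fun K _ _ => ?_⟩
  have hev : ∀ x : K, (X * (X + 1) : K[X]).eval x = 1 * ∏ i ∈ range 2, (x - ThreeU_al K i) := by
    intro x
    rw [Finset.prod_range_succ, Finset.prod_range_succ, Finset.prod_range_zero]
    simp [ThreeU_al]
  have hne : ∀ x : K, (X * (X + 1) : K[X]).eval x ≠ 0 → ∀ i < 2, x ≠ ThreeU_al K i := by
    intro x hx i hi h1
    apply hx
    rw [hev, Finset.prod_eq_zero (Finset.mem_range.2 hi) (sub_eq_zero.2 h1), mul_zero]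
  have hlam : ∀ (v : Pl K) (x : K), lam (X * (X + 1) : K[X]) 3 v x =
      Loc.mt v * Local_lam (Loc.av v) 2 3 (ThreeU_al K) 1 x := by
    intro v x
    unfold lam hl lg Local_lam
    rw [← hev]
    ring
  have hds : ∀ (v : Pl K) (x y : K), ds v x y =
      Loc.mt v * (Real.log (max (Loc.av v x) 1) + Real.log (max (Loc.av v y) 1) -
        Real.log (Loc.av v (x - y))) := by
    intro v x y
    unfold ds hl lg
    ring
  have hmin : ∀ (v : Pl K) (x : K), ∃ t, t < 3 ∧ ∀ i < 3,
      Local_E (Loc.av v) 2 (ThreeU_al K) t x ≤ Local_E (Loc.av v) 2 (ThreeU_al K) i x := by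
    intro v x
    obtain ⟨t, ht, ht'⟩ := Finset.exists_min_image (range 3)
      (fun i => Local_E (Loc.av v) 2 (ThreeU_al K) i x) ⟨0, Finset.mem_range.2 (by omega)⟩
    exact ⟨t, Finset.mem_range.1 ht, fun i hi => ht' i (Finset.mem_range.2 hi)⟩
  choose typ htyp1 htyp2 using hmin
  have hlow : ∀ v x, (X * (X + 1) : K[X]).eval x ≠ 0 →
      -ThreeU_g v ≤ lam (X * (X + 1) : K[X]) 3 v x := by
    intro v x hx
    rw [hlam]
    have h1 := Local_low (ThreeU_H v) 3 (by norm_num) (by norm_num) one_ne_zero (hne x hx)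
    have h2 := mul_le_mul_of_nonneg_left h1 (mt_pos v).le
    unfold ThreeU_g
    linarith
  have hgap : ∀ v x y, (X * (X + 1) : K[X]).eval x ≠ 0 → (X * (X + 1) : K[X]).eval y ≠ 0 →
      x ≠ y → typ v x = typ v y →
      min (lam (X * (X + 1) : K[X]) 3 v x) (lam (X * (X + 1) : K[X]) 3 v y) ≤
        ds v x y + ThreeU_g v := by
    intro v x y hx hy hxy ht
    rw [hlam, hlam, hds, ← mul_min_of_nonneg _ _ (mt_pos v).le]
    have h1 := Local_min (ThreeU_H v) 3 (by norm_num) (by norm_num) one_ne_zero (hne x hx)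
      (hne y hy) hxy (htyp1 v x) (htyp2 v x) (by rw [ht]; exact htyp2 v y)
    have h2 := mul_le_mul_of_nonneg_left h1 (mt_pos v).le
    unfold ThreeU_g
    linarith
  refine ⟨typ, by norm_num, htyp1, ?_, ?_, ?_, ?_⟩
  · intro v x hx
    have h1 := hlow v x hx
    have h2 := ThreeU_g_le v
    linarith
  · intro v _ x hx
    have h1 := hlow (Sum.inr v) x hx
    rw [ThreeU_g_fin v] at h1
    linarith
  · intro v x y hx hy hxy ht
    have h1 := hgap v x y hx hy hxy ht
    have h2 := ThreeU_g_le v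
    linarith
  · intro v _ x y hx hy hxy ht
    have h1 := hgap (Sum.inr v) x y hx hy hxy ht
    rw [ThreeU_g_fin v] at h1
    linarith

end Pool.Agent.TH876.TM
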