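import Mathlib
import Pool.Agent.TH876.TM.Def4
import Pool.Agent.TH876.Proj

set_option autoImplicit false

/-!
# The count, uniformly in the number field: the points of the projective line
-/

namespace Pool.Agent.TH876.TM

open NumberField IsDedekindDomain Finset Polynomial Pool.Agent.H691R3 Pool.Agent.TH876.Loc

section UPtsAux

variable {K : Type} [Field K] [NumberField K]

private theorem UPts_val (v : Pr K) (x : K) :
    fv v x = ((WithZeroMulInt.toNNReal (NumberField.HeightOneSpectrum.absNorm_ne_zero v)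
      (v.valuation K x) : NNReal) : ℝ) :=
  NumberField.FinitePlace.norm_embedding' (v := v) (x := x)

private theorem UPts_lt_one (v : Pr K) (x : K) : v.valuation K x < 1 ↔ fv v x < 1 := by
  rw [UPts_val, NNReal.coe_lt_one]
  exact (WithZeroMulInt.toNNReal_lt_one_iff
    (NumberField.HeightOneSpectrum.one_lt_absNorm_nnreal v)).symm

private theorem UPts_le_one (v : Pr K) (x : K) : v.valuation K x ≤ 1 ↔ fv v x ≤ 1 := by
  rw [UPts_val, NNReal.coe_le_one]
  exact (WithZeroMulInt.toNNReal_le_one_iff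
    (NumberField.HeightOneSpectrum.one_lt_absNorm_nnreal v)).symm

private theorem UPts_eq_one (v : Pr K) (x : K) : v.valuation K x = 1 ↔ fv v x = 1 := by
  constructor
  · intro h
    refine le_antisymm ((UPts_le_one v x).1 h.le) (not_lt.1 fun h' => ?_)
    exact absurd ((UPts_lt_one v x).2 h') (by rw [h]; exact lt_irrefl _)
  · intro h
    refine le_antisymm ((UPts_le_one v x).2 h.le) (not_lt.1 fun h' => ?_)
    exact absurd ((UPts_lt_one v x).1 h') (by rw [h]; exact lt_irrefl _)

private theorem UPts_eq (v : Pr K) {a b : K} (hb : b ≠ 0) :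
    v.valuation K a = v.valuation K b ↔ fv v a = fv v b := by
  have h1 := UPts_eq_one v (a / b)
  have hv : v.valuation K b ≠ 0 := (Valuation.ne_zero_iff _).mpr hb
  have hf : fv v b ≠ 0 := ((fv v).pos hb).ne'
  rw [map_div₀, div_eq_one_iff_eq hv, map_div₀, div_eq_one_iff_eq hf] at h1
  exact h1

private theorem UPts_supp {x : Fin 3 → K} (hs : x 0 + x 1 + x 2 = 0)
    (hne : x 0 * x 1 * x 2 ≠ 0) (v : Pr K) : v ∈ sp (x 0 / x 1) ↔ v ∈ supp x := by
  have h1 : x 1 ≠ 0 := fun h => hne (by rw [h]; ring)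
  have h2 : x 2 ≠ 0 := fun h => hne (by rw [h]; ring)
  rw [sp_of_triple hs hne]
  show ¬ (fv v (x 0) = fv v (x 1) ∧ fv v (x 1) = fv v (x 2)) ↔ _
  rw [← UPts_eq v h1, ← UPts_eq v h2]
  unfold supp
  rw [Set.mem_ofPred_eq]
  constructor
  · intro h
    by_contra hc
    push Not at hc
    exact h ⟨hc 0 1, hc 1 2⟩
  · rintro ⟨i, j, hij⟩ ⟨e1, e2⟩
    apply hij
    have h3 : ∀ k : Fin 3, v.valuation K (x k) = v.valuation K (x 2) := by
      intro k
      fin_cases k
      · exact e1.trans e2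
      · exact e2
      · rfl
    rw [h3 i, h3 j]

private theorem UPts_lam {t : K} (ht : Pt t) (v : Pr K)
    (h : 0 < lam (X * (X + 1) : K[X]) 3 (Sum.inr v : Pl K) t) : v ∈ sp t := by
  rw [mem_sp ht]
  rintro ⟨e1, e2⟩
  have h1 : av (Sum.inr v : Pl K) t = 1 := e1
  have h2 : av (Sum.inr v : Pl K) (t + 1) = 1 := e2
  have h3 : lam (X * (X + 1) : K[X]) 3 (Sum.inr v : Pl K) t = 0 := by
    unfold lam hl lg
    have h4 : (X * (X + 1) : K[X]).eval t = t * (t + 1) := by simp
    rw [h4, map_mul, h1, h2]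
    simp
  rw [h3] at h
  exact lt_irrefl _ h

private theorem UPts_height (x : Fin 3 → K) :
    Height.logHeight₁ (x 0 / x 1) ≤ Height.logHeight x := by
  rw [Height.logHeight₁_div_eq_logHeight]
  have e : (![x 0, x 1] : Fin 2 → K) = x ∘ (![0, 1] : Fin 2 → Fin 3) := by
    funext i
    fin_cases i <;> rfl
  rw [e]
  exact Height.logHeight_comp_le _ _

end UPtsAux

theorem uPts (h1 : CountU) (h2 : ThreeU) : UPtsS := by
  intro n ε hε
  obtain ⟨c, hc⟩ := h2
  obtain ⟨C, hC, hcount⟩ := h1 n 3 0 c ε le_rfl hε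
  refine ⟨C * (1 + Real.log n), ?_⟩
  intro K _ _ hn T y B hT hy hB
  have hn0 : 0 < n := by
    rw [← hn]
    exact Module.finrank_pos
  have hnR : (1 : ℝ) ≤ n := by exact_mod_cast hn0
  have hnR0 : (0 : ℝ) < n := by linarith
  have hd : (Module.finrank ℚ K : ℝ) ≠ 0 := by rw [hn]; exact hnR0.ne'
  have hln : 0 ≤ Real.log n := Real.log_nonneg hnR
  have hlB : 0 ≤ Real.log B := Real.log_nonneg hB
  obtain ⟨typ, hsys⟩ := hc K
  have hX : (1 : ℝ) ≤ Real.exp (n * T) := Real.one_le_exp (by positivity)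
  have hH : (1 : ℝ) ≤ n * B := by nlinarith
  refine Pool.Agent.TH876.Loc.transfer (UPts K T y B)
    (fun t => Height.logHeight₁ t ≤ n * B ∧
      ∀ T' : Finset (Pr K), (∀ v ∈ T', v ∉ (∅ : Finset (Pr K)) ∧
        0 < lam (X * (X + 1) : K[X]) 3 (Sum.inr v : Pl K) t) →
        nn T' ≤ Real.exp (n * T) ∧ ∀ v ∈ T', Nv v ≤ y)
    (C * (1 + Real.log n) * y * Real.exp ((2 / 3 + ε) * n * T) * (1 + Real.log B))
    (by positivity) ?_ ?_
  · rintro P ⟨x, hx, hP, hs, hne, hr, hsm, hh⟩
    refine ⟨x, hx, hP, hs, hne, ?_, ?_⟩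
    · rw [div_le_iff₀ (by rw [hn]; exact hnR0), hn] at hh
      refine (UPts_height x).trans ?_
      linarith
    · intro T' hT'
      have hpt := pt_of_triple hs hne
      have hsub : T' ⊆ sp (x 0 / x 1) := fun v hv => UPts_lam hpt v (hT' v hv).2
      refine ⟨?_, fun v hv => hsm v ((UPts_supp hs hne v).1 (hsub hv))⟩
      refine (nn_mono hsub).trans ?_
      rw [← exp_log_nn (UPts_supp hs hne) hd]
      refine Real.exp_le_exp.mpr ?_
      rw [hn] at hr ⊢
      exact mul_le_mul_of_nonneg_left hr hnR0.le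
  · intro E hE
    have h3 := hcount K hn (X * (X + 1) : K[X]) ∅ typ (by simp) hsys (Real.exp (n * T)) y (n * B)
      hX hy hH E (fun t ht => by
        obtain ⟨hpt, hq1, hq2⟩ := hE t ht
        refine ⟨?_, hq1, hq2⟩
        have h4 : (X * (X + 1) : K[X]).eval t = t * (t + 1) := by simp
        rw [h4]
        exact mul_ne_zero hpt.1 hpt.2)
    refine h3.trans ?_
    have e1 : Real.exp (n * T) ^ (2 / ((3 : ℕ) : ℝ) + ε) = Real.exp ((2 / 3 + ε) * n * T) := by
      rw [← Real.exp_mul]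
      congr 1
      push_cast
      ring
    rw [e1, Real.log_mul hnR0.ne' (by linarith)]
    have e2 : 1 + (Real.log n + Real.log B) ≤ (1 + Real.log n) * (1 + Real.log B) := by
      nlinarith [mul_nonneg hln hlB]
    calc C * y * Real.exp ((2 / 3 + ε) * n * T) * (1 + (Real.log n + Real.log B))
        ≤ C * y * Real.exp ((2 / 3 + ε) * n * T) * ((1 + Real.log n) * (1 + Real.log B)) :=
          mul_le_mul_of_nonneg_left e2 (by positivity)
      _ = _ := by ring

end Pool.Agent.TH876.TM
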