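import Mathlib
import Pool.Agent.TH876.TM.Def3

set_option autoImplicit false

/-!
# Rational curves in projective space from the count of small values of forms
-/

namespace Pool.Agent.TH876.TM

open NumberField IsDedekindDomain Finset Polynomial Pool.Agent.H691R3 Pool.Agent.TH876.Loc

section Aux

variable {K : Type} [Field K] [NumberField K]

private theorem Curve_val (v : Pr K) (x : K) :
    fv v x = ((WithZeroMulInt.toNNReal (NumberField.HeightOneSpectrum.absNorm_ne_zero v)
      (v.valuation K x) : NNReal) : ℝ) :=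
  NumberField.FinitePlace.norm_embedding' (v := v) (x := x)

private theorem Curve_lt_one (v : Pr K) (x : K) : v.valuation K x < 1 ↔ fv v x < 1 := by
  rw [Curve_val, NNReal.coe_lt_one]
  exact (WithZeroMulInt.toNNReal_lt_one_iff
    (NumberField.HeightOneSpectrum.one_lt_absNorm_nnreal v)).symm

private theorem Curve_le_one (v : Pr K) (x : K) : v.valuation K x ≤ 1 ↔ fv v x ≤ 1 := by
  rw [Curve_val, NNReal.coe_le_one]
  exact (WithZeroMulInt.toNNReal_le_one_iff
    (NumberField.HeightOneSpectrum.one_lt_absNorm_nnreal v)).symm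

private theorem Curve_eq_one (v : Pr K) (x : K) : v.valuation K x = 1 ↔ fv v x = 1 := by
  constructor
  · intro h
    refine le_antisymm ((Curve_le_one v x).1 h.le) (not_lt.1 fun h' => ?_)
    exact absurd ((Curve_lt_one v x).2 h') (by rw [h]; exact lt_irrefl _)
  · intro h
    refine le_antisymm ((Curve_le_one v x).2 h.le) (not_lt.1 fun h' => ?_)
    exact absurd ((Curve_lt_one v x).1 h') (by rw [h]; exact lt_irrefl _)

private theorem Curve_supp {n : ℕ} (z : Fin n → K) (hz : ∀ i, z i ≠ 0) : (supp z).Finite := by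
  refine (Set.finite_iUnion fun i => fv_support_finite (hz i)).subset ?_
  rintro v ⟨i, j, hij⟩
  by_contra hc
  rw [Set.mem_iUnion, not_exists] at hc
  have h1 : ∀ i, v.valuation K (z i) = 1 := by
    intro i
    have := hc i
    rw [Set.mem_ofPred_eq, not_not] at this
    exact (Curve_eq_one v _).2 this
  exact hij (by rw [h1, h1])

private theorem Curve_deg {n : ℕ} (P : Fin n → K[X]) (hP : ∀ i, P i ≠ 0) (hz : 1 ≤ zeros P) :
    ∃ i, 1 ≤ (P i).natDegree := by
  classical
  by_contra hc
  push Not at hc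
  have h0 : ∀ i, (P i).natDegree = 0 := fun i => by have := hc i; omega
  have h1 : (∏ i, P i).natDegree = 0 := by
    rw [natDegree_prod _ _ (fun i _ => hP i)]
    exact Finset.sum_eq_zero fun i _ => h0 i
  have h2 : ((∏ i, P i).map (algebraMap K (AlgebraicClosure K))).natDegree = 0 := by
    rw [natDegree_map]
    exact h1
  have h3 : ((∏ i, P i).map (algebraMap K (AlgebraicClosure K))).roots = 0 := by
    rw [eq_C_of_natDegree_eq_zero h2]
    exact roots_C _
  unfold zeros at hz
  rw [h3, Multiset.toFinset_zero, Finset.card_empty, if_neg] at hz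
  · omega
  · rintro ⟨i, j, hij⟩
    rw [h0, h0] at hij
    exact lt_irrefl _ hij

end Aux

theorem curve (h1 : ∀ (K : Type) [Field K] [NumberField K], CountS K) (h2 : MeetNS)
    (h3 : ValNS) : CurveS := by
  classical
  intro K _ _ n P hP hu hz ε hε
  obtain ⟨f, S1, hform, hdvd, hmeet⟩ := h2 K n P hP hu (by omega)
  obtain ⟨w, hw0, hval⟩ := h3 K n P hu (Curve_deg P hP (by omega))
  obtain ⟨cc, hcc0, hcc⟩ := h1 K f (zeros P) hform hz S1 ε hε
  have hlw : 0 ≤ Real.log (1 + w) := Real.log_nonneg (by linarith)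
  refine ⟨cc * (1 + Real.log (1 + w)), ?_⟩
  intro Y y H hX hy hH
  have hX0 : 0 < Y := by linarith
  have hy0 : 0 < y := by linarith
  have hlH : 0 ≤ Real.log H := Real.log_nonneg hH
  have hH'1 : 1 ≤ (1 + w) * H := by nlinarith
  have key : ∀ t ∈ Curve K P Y y H, f.eval t ≠ 0 ∧
      Height.logHeight₁ t ≤ (1 + w) * H ∧ ∀ T : Finset (Pr K), (∀ v ∈ T, v ∉ S1 ∧
          0 < lam f (zeros P) (Sum.inr v : Pl K) t) →
        nn T ≤ Y ∧ ∀ v ∈ T, Nv v ≤ y := by
    rintro t ⟨ht0, hexp, hsm, hht⟩
    refine ⟨?_, ?_, ?_⟩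
    · intro h
      obtain ⟨g, hg⟩ := hdvd
      have e1 : (∏ i, P i).eval t = 0 := by rw [hg, eval_mul, h, zero_mul]
      rw [eval_prod, Finset.prod_eq_zero_iff] at e1
      obtain ⟨i, _, hi⟩ := e1
      exact ht0 i hi
    · have := hval t
      nlinarith
    · intro T hT
      have hT' : ∀ v ∈ T, v ∈ supp (fun i => (P i).eval t) := fun v hv =>
        hmeet v (hT v hv).1 t ht0 (hT v hv).2
      refine ⟨?_, fun v hv => hsm v (hT' v hv)⟩
      have hIf := Curve_supp (fun i => (P i).eval t) ht0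
      have hc : ∑ᶠ v ∈ supp (fun i => (P i).eval t), Real.log (Ideal.absNorm v.asIdeal : ℝ)
          = Real.log (nn hIf.toFinset) := by
        have hln : Real.log (nn hIf.toFinset) = ∑ v ∈ hIf.toFinset, Real.log (Nv v) := by
          unfold nn
          rw [Real.log_prod (fun v _ => (Nv_pos v).ne')]
        rw [hln, ← finsum_mem_coe_finset, Set.Finite.coe_toFinset]
        rfl
      rw [hc, Real.exp_log (nn_pos _)] at hexp
      refine (nn_mono ?_).trans hexp
      intro v hv
      rw [Set.Finite.mem_toFinset]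
      exact hT' v hv
  obtain ⟨B, hB⟩ : ∃ B : ℝ, B = cc * y *
    Y ^ (2 / (zeros P : ℝ) + ε) * (1 + Real.log ((1 + w) * H)) := ⟨_, rfl⟩
  have hbound : ∀ G : Finset K, (G : Set K) ⊆ Curve K P Y y H → (G.card : ℝ) ≤ B := by
    intro G hG
    rw [hB]
    exact hcc Y y ((1 + w) * H) hX hy hH'1 G fun t ht => key t (hG ht)
  have hfin : (Curve K P Y y H).Finite := by
    by_contra hinf
    obtain ⟨G, hGV, hGc⟩ := Set.Infinite.exists_subset_card_eq hinf (⌊B⌋₊ + 1)
    have e1 := hbound G hGV
    have e2 := Nat.lt_floor_add_one B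
    rw [hGc] at e1
    push_cast at e1
    linarith
  refine ⟨hfin, ?_⟩
  rw [Set.ncard_eq_toFinset_card _ hfin]
  refine (hbound hfin.toFinset (by rw [Set.Finite.coe_toFinset])).trans ?_
  rw [hB, Real.log_mul (by linarith) (by linarith)]
  have e1 : 1 + (Real.log (1 + w) + Real.log H) ≤ (1 + Real.log (1 + w)) * (1 + Real.log H) := by
    nlinarith [mul_nonneg hlw hlH]
  calc cc * y * Y ^ (2 / (zeros P : ℝ) + ε) * (1 + (Real.log (1 + w) + Real.log H))
      ≤ cc * y * Y ^ (2 / (zeros P : ℝ) + ε) *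
        ((1 + Real.log (1 + w)) * (1 + Real.log H)) :=
        mul_le_mul_of_nonneg_left e1 (by positivity)
    _ = _ := by ring

end Pool.Agent.TH876.TM
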