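import Mathlib
import Pool.Agent.TH876.TM.Def3
import Pool.Agent.TH876.TM.Pole

set_option autoImplicit false

/-!
# TM-MEETN (job 5667, helper969): the primes at which a point of the curve meets the hyperplanes
-/

namespace Pool.Agent.TH876.TM

open NumberField IsDedekindDomain Finset Polynomial Pool.Agent.H691R3 Pool.Agent.TH876.Loc

section Aux

variable {K : Type} [Field K] [NumberField K]

private theorem MeetN_val (v : Pr K) (x : K) :
    fv v x = ((WithZeroMulInt.toNNReal (NumberField.HeightOneSpectrum.absNorm_ne_zero v)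
      (v.valuation K x) : NNReal) : ℝ) :=
  NumberField.FinitePlace.norm_embedding' (v := v) (x := x)

private theorem MeetN_ne (v : Pr K) {x y : K} (h : fv v x ≠ fv v y) :
    v.valuation K x ≠ v.valuation K y := by
  intro e
  apply h
  rw [MeetN_val, MeetN_val, e]

/-- all nonzero coefficients of `G` are units at `v` -/
private def MeetN_ok (v : Pr K) (G : K[X]) : Prop := ∀ i ∈ G.support, fv v (G.coeff i) = 1

private theorem MeetN_fin (G : K[X]) : {v : Pr K | ¬ MeetN_ok v G}.Finite := by
  have e : {v : Pr K | ¬ MeetN_ok v G} ⊆ ⋃ i ∈ G.support, {v : Pr K | fv v (G.coeff i) ≠ 1} := by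
    intro v hv
    rw [Set.mem_ofPred_eq, MeetN_ok] at hv
    push Not at hv
    obtain ⟨i, hi, h⟩ := hv
    exact Set.mem_biUnion (x := i) (by exact_mod_cast hi) h
  refine Set.Finite.subset (G.support.finite_toSet.biUnion fun i hi => ?_) e
  exact fv_support_finite (Polynomial.mem_support_iff.1 (by exact_mod_cast hi))

private theorem MeetN_coeff {v : Pr K} {G : K[X]} (h : MeetN_ok v G) (i : ℕ) :
    fv v (G.coeff i) ≤ 1 := by
  by_cases hi : i ∈ G.support
  · exact (h i hi).le
  · rw [Polynomial.notMem_support_iff.1 hi, map_zero]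
    exact zero_le_one

private theorem MeetN_int {v : Pr K} {G : K[X]} (h : MeetN_ok v G) {t : K} (ht : fv v t ≤ 1) :
    fv v (G.eval t) ≤ 1 := by
  rw [Polynomial.eval_eq_sum_range]
  refine fv_sum_le v _ _ 1 zero_le_one fun i _ => ?_
  rw [map_mul, map_pow]
  exact mul_le_one₀ (MeetN_coeff h i) (pow_nonneg ((fv v).nonneg _) _)
    (pow_le_one₀ ((fv v).nonneg _) ht)

private theorem MeetN_add (v : Pr K) {a b : K} (h : fv v a < fv v b) :
    fv v (a + b) = fv v b := by
  refine le_antisymm ((fv_na v _ _).trans (max_le h.le le_rfl)) ?_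
  have h1 : fv v b ≤ max (fv v (a + b)) (fv v (-a)) := by
    have h2 := fv_na v (a + b) (-a)
    have e : a + b + -a = b := by ring
    rwa [e] at h2
  rw [(fv v).map_neg] at h1
  rcases le_max_iff.1 h1 with h5 | h5
  · exact h5
  · exact absurd h (not_lt.2 h5)

private theorem MeetN_big {v : Pr K} {G : K[X]} (h : MeetN_ok v G) (hG : G ≠ 0) {t : K}
    (ht : 1 < fv v t) : fv v (G.eval t) = fv v t ^ G.natDegree := by
  have h0 : fv v (G.coeff G.natDegree * t ^ G.natDegree) = fv v t ^ G.natDegree := by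
    rw [map_mul, map_pow, h _ (Polynomial.natDegree_mem_support_of_nonzero hG), one_mul]
  rcases Nat.eq_zero_or_pos G.natDegree with hd | hd
  · rw [Polynomial.eval_eq_sum_range, hd, Finset.sum_range_one]
    rw [hd] at h0
    exact h0
  have h1 : fv v (∑ i ∈ Finset.range G.natDegree, G.coeff i * t ^ i) ≤
      fv v t ^ (G.natDegree - 1) := by
    refine fv_sum_le v _ _ _ (pow_nonneg ((fv v).nonneg _) _) fun i hi => ?_
    rw [map_mul, map_pow]
    have hi' : i ≤ G.natDegree - 1 := by
      have := Finset.mem_range.1 hi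
      omega
    calc fv v (G.coeff i) * fv v t ^ i ≤ 1 * fv v t ^ (G.natDegree - 1) :=
          mul_le_mul (MeetN_coeff h i) (pow_le_pow_right₀ ht.le hi')
            (pow_nonneg ((fv v).nonneg _) _) zero_le_one
      _ = fv v t ^ (G.natDegree - 1) := one_mul _
  have h2 : fv v t ^ (G.natDegree - 1) < fv v t ^ G.natDegree :=
    pow_lt_pow_right₀ ht (by omega)
  have h3 : fv v (∑ i ∈ Finset.range G.natDegree, G.coeff i * t ^ i) <
      fv v (G.coeff G.natDegree * t ^ G.natDegree) := by
    rw [h0]
    exact lt_of_le_of_lt h1 h2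
  rw [Polynomial.eval_eq_sum_range, Finset.sum_range_succ, ← h0]
  exact MeetN_add v h3

private theorem MeetN_hl (v : Pr K) (t : K) :
    hl (Sum.inr v : Pl K) t = Real.log (max (fv v t) 1) := by
  show (1 : ℝ) * Real.log (max (fv v t) 1) = _
  rw [one_mul]

private theorem MeetN_lg (v : Pr K) (t : K) :
    lg (Sum.inr v : Pl K) t = Real.log (fv v t) := by
  show (1 : ℝ) * Real.log (fv v t) = _
  rw [one_mul]

private theorem MeetN_sum_lt (v : Pr K) {ι : Type*} (s : Finset ι) (f : ι → K)
    (h : ∀ i ∈ s, fv v (f i) < 1) : fv v (∑ i ∈ s, f i) < 1 := by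
  classical
  induction s using Finset.induction_on with
  | empty => simp
  | insert i s hi ih =>
    rw [Finset.sum_insert hi]
    refine lt_of_le_of_lt (fv_na v _ _) (max_lt (h i (Finset.mem_insert_self _ _)) (ih ?_))
    exact fun j hj => h j (Finset.mem_insert_of_mem hj)

private theorem MeetN_prod (v : Pr K) {ι : Type*} (s : Finset ι) (f : ι → K)
    (h : ∀ i ∈ s, 1 ≤ fv v (f i)) : 1 ≤ fv v (∏ i ∈ s, f i) := by
  classical
  induction s using Finset.induction_on with
  | empty => simp
  | insert i s hi ih =>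
    rw [Finset.prod_insert hi, map_mul]
    exact one_le_mul_of_one_le_of_one_le (h i (Finset.mem_insert_self _ _))
      (ih fun j hj => h j (Finset.mem_insert_of_mem hj))

end Aux

theorem meetN : MeetNS := by
  classical
  intro K _ _ n P hP hu hz
  obtain ⟨u, hu⟩ := hu
  have hprod : (∏ i, P i) ≠ 0 := Finset.prod_ne_zero_iff.2 fun i _ => hP i
  obtain ⟨f, hsq, hdvd, hcard⟩ := Pole_card (∏ i, P i) hprod
  have hzf : (zeros P = f.natDegree + 1 ∧ ∃ i j, (P i).natDegree < (P j).natDegree) ∨
      zeros P = f.natDegree := by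
    unfold zeros
    rw [hcard]
    split_ifs with h
    · exact Or.inl ⟨rfl, h⟩
    · exact Or.inr rfl
  obtain ⟨R, hR⟩ := hdvd
  have hf0 : f ≠ 0 := fun h => hprod (by rw [hR, h, zero_mul])
  refine ⟨f, (MeetN_fin f).toFinset ∪ ((MeetN_fin R).toFinset ∪
    (Finset.univ.biUnion (fun i => (MeetN_fin (P i)).toFinset) ∪
      Finset.univ.biUnion (fun i => (MeetN_fin (u i)).toFinset))), ⟨hsq, ?_, ?_, hz⟩,
    ⟨R, hR⟩, ?_⟩
  · rcases hzf with ⟨h, -⟩ | h <;> omega
  · rcases hzf with ⟨h, -⟩ | h <;> omega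
  intro v hv t hPt hlam
  simp only [Finset.mem_union, Finset.mem_biUnion, Finset.mem_univ, true_and,
    Set.Finite.mem_toFinset, Set.mem_ofPred_eq, not_or, not_not, not_exists] at hv
  obtain ⟨kf, kR, kP, ku⟩ := hv
  have hft : f.eval t ≠ 0 := by
    intro h
    have h1 : (∏ i, P i).eval t = 0 := by rw [hR, Polynomial.eval_mul, h, zero_mul]
    rw [Polynomial.eval_prod] at h1
    exact (Finset.prod_ne_zero_iff.2 fun i _ => hPt i) h1
  have hlam' : 0 < (zeros P : ℝ) * Real.log (max (fv v t) 1) - Real.log (fv v (f.eval t)) := by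
    have h := hlam
    unfold lam at h
    rwa [MeetN_hl, MeetN_lg] at h
  rcases le_or_gt (fv v t) 1 with ht | ht
  · rw [max_eq_right ht, Real.log_one, mul_zero, zero_sub, Left.neg_pos_iff] at hlam'
    have h1 : fv v (f.eval t) < 1 := by
      by_contra hc
      exact absurd hlam' (not_lt.2 (Real.log_nonneg (not_lt.1 hc)))
    have h2 : fv v (∏ i, (P i).eval t) < 1 := by
      rw [← Polynomial.eval_prod, hR, Polynomial.eval_mul, map_mul]
      exact mul_lt_one_of_nonneg_of_lt_one_left ((fv v).nonneg _) h1 (MeetN_int kR ht)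
    obtain ⟨i, hi⟩ : ∃ i, fv v ((P i).eval t) < 1 := by
      by_contra hc
      push Not at hc
      exact absurd h2 (not_lt.2 (MeetN_prod v _ _ fun i _ => hc i))
    obtain ⟨j, hj⟩ : ∃ j, 1 ≤ fv v ((P j).eval t) := by
      by_contra hc
      push Not at hc
      have h3 : ∑ j, (u j).eval t * (P j).eval t = 1 := by
        have := congrArg (Polynomial.eval t) hu
        rw [Polynomial.eval_finsetSum, Polynomial.eval_one] at this
        rw [← this]
        exact Finset.sum_congr rfl fun j _ => (Polynomial.eval_mul).symm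
      have h4 : fv v (∑ j, (u j).eval t * (P j).eval t) < 1 := by
        refine MeetN_sum_lt v _ _ fun j _ => ?_
        rw [map_mul, mul_comm]
        exact mul_lt_one_of_nonneg_of_lt_one_left ((fv v).nonneg _) (hc j) (MeetN_int (ku j) ht)
      rw [h3, map_one] at h4
      exact lt_irrefl _ h4
    exact ⟨i, j, MeetN_ne v (lt_of_lt_of_le hi hj).ne⟩
  · have hl0 : 0 < Real.log (fv v t) := Real.log_pos ht
    rw [max_eq_left ht.le, MeetN_big kf hf0 ht, Real.log_pow, ← sub_mul] at hlam'
    have h1 : (0 : ℝ) < (zeros P : ℝ) - f.natDegree := by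
      by_contra hc
      exact absurd hlam' (not_lt.2 (mul_nonpos_of_nonpos_of_nonneg (not_lt.1 hc) hl0.le))
    have h2 : f.natDegree < zeros P := by
      have : (f.natDegree : ℝ) < zeros P := by linarith
      exact_mod_cast this
    rcases hzf with ⟨-, i, j, hij⟩ | h
    · refine ⟨i, j, MeetN_ne v ?_⟩
      rw [MeetN_big (kP i) (hP i) ht, MeetN_big (kP j) (hP j) ht]
      exact (pow_lt_pow_right₀ ht hij).ne
    · omega

end Pool.Agent.TH876.TM
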