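import Mathlib
import Pool.Agent.TH876.TM.Def3
import Pool.Agent.TH876.TM.Val

set_option autoImplicit false

/-!
# The height of a point of a rational curve
-/

namespace Pool.Agent.TH876.TM

open NumberField IsDedekindDomain Finset Polynomial Pool.Agent.H691R3 Pool.Agent.TH876.Loc

/-- Bezout relations for the powers of the variable -/
theorem ValN_rel {K : Type} [Field K] {n : ℕ} {P : Fin n → K[X]}
    (hP : ∃ u : Fin n → K[X], ∑ i, u i * P i = 1) {d N : ℕ} (hd : 1 ≤ d) (j : Fin n)
    (hj : (P j).natDegree = d) (hle : ∀ i, (P i).natDegree ≤ d) (hN : 2 * d ≤ N) :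
    ∃ A : Fin n → K[X], ∑ i, A i * P i = X ^ N ∧ ∀ i, (A i).natDegree ≤ N - d := by
  classical
  obtain ⟨u, hu⟩ := hP
  have hj0 : P j ≠ 0 := by
    intro h
    rw [h, Polynomial.natDegree_zero] at hj
    omega
  obtain ⟨r, hr⟩ : ∃ r : Fin n → K[X], r = fun i => (X ^ N * u i) % P j := ⟨_, rfl⟩
  obtain ⟨s, hs⟩ : ∃ s : Fin n → K[X], s = fun i => (X ^ N * u i) / P j := ⟨_, rfl⟩
  have hdiv : ∀ i, P j * s i + r i = X ^ N * u i := by
    intro i
    rw [hr, hs]
    exact EuclideanDomain.div_add_mod _ _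
  have hrd : ∀ i, (r i).natDegree < d := by
    intro i
    rw [hr, ← hj]
    exact Polynomial.natDegree_mod_lt _ (by omega)
  obtain ⟨B, hB⟩ : ∃ B : K[X], B = X ^ N * u j + ∑ i ∈ univ.erase j, s i * P i := ⟨_, rfl⟩
  have hrel : B * P j + ∑ i ∈ univ.erase j, r i * P i = X ^ N := by
    have h1 : (X : K[X]) ^ N = ∑ i, (X ^ N * u i) * P i := by
      have h2 : (X : K[X]) ^ N * ∑ i, u i * P i = X ^ N := by rw [hu, mul_one]
      rw [Finset.mul_sum] at h2
      refine h2.symm.trans (Finset.sum_congr rfl fun i _ => ?_)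
      ring
    rw [h1, ← Finset.add_sum_erase _ _ (mem_univ j), hB, add_mul, Finset.sum_mul, add_assoc,
      ← Finset.sum_add_distrib]
    congr 1
    refine Finset.sum_congr rfl fun i _ => ?_
    rw [← hdiv i]
    ring
  refine ⟨fun i => if i = j then B else r i, ?_, ?_⟩
  · rw [← Finset.add_sum_erase _ _ (mem_univ j), ← hrel]
    refine congrArg₂ (· + ·) ?_ (Finset.sum_congr rfl fun i hi => ?_)
    · simp only [if_true]
    · simp only [if_neg (Finset.ne_of_mem_erase hi)]
  · intro i
    by_cases hi : i = j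
    · simp only [hi, if_true]
      by_cases hB0 : B = 0
      · rw [hB0, Polynomial.natDegree_zero]
        exact Nat.zero_le _
      · have h1 : (B * P j).natDegree = B.natDegree + d := by
          rw [Polynomial.natDegree_mul hB0 hj0, hj]
        have h2 : B * P j = X ^ N - ∑ i ∈ univ.erase j, r i * P i := by
          linear_combination hrel
        have h3 : (B * P j).natDegree ≤ N := by
          rw [h2]
          refine (Polynomial.natDegree_sub_le _ _).trans
            (max_le (Polynomial.natDegree_X_pow_le N) ?_)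
          refine Polynomial.natDegree_sum_le_of_forall_le _ _ fun i _ => ?_
          refine Polynomial.natDegree_mul_le.trans ?_
          have := hrd i
          have := hle i
          omega
        omega
    · simp only [if_neg hi]
      have := hrd i
      omega

theorem ValN_main {K : Type} [Field K] [NumberField K] {n : ℕ} {P : Fin n → K[X]} {d N : ℕ}
    (hd : 1 ≤ d) (hP : ∀ i, (P i).natDegree ≤ d) (hN : d ≤ N) {A u : Fin n → K[X]}
    (h0 : ∑ i, A i * P i = X ^ N) (h1 : ∑ i, u i * P i = 1)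
    (hA : ∀ i, (A i).natDegree ≤ N - d) (hu : ∀ i, (u i).natDegree ≤ N - d) :
    ∃ c : ℝ, 0 ≤ c ∧ ∀ t : K,
      Height.logHeight₁ t ≤ Height.logHeight (fun i => (P i).eval t) + c := by
  obtain ⟨C0, hC⟩ := Height.logHeight_eval_ge' (K := K) (M := N - d) (N := d)
    (q := fun a : Fin 2 × Fin n => Val_hom ((![A, u] : Fin 2 → Fin n → K[X]) a.1 a.2)
      (N - d)) (fun a => Val_isHom _ _)
  refine ⟨|C0|, abs_nonneg _, fun t => ?_⟩
  have hrel : ∀ k : Fin 2, ∑ i : Fin n,
      (Val_hom ((![A, u] : Fin 2 → Fin n → K[X]) k i) (N - d)).eval ![t, 1] *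
      ((fun i => Val_hom (P i) d : Fin n → MvPolynomial (Fin 2) K) i).eval ![t, 1] =
        (![t, 1] : Fin 2 → K) k ^ (N - d + d) := by
    intro k
    rw [Nat.sub_add_cancel hN]
    fin_cases k
    · show ∑ i : Fin n, (Val_hom (A i) (N - d)).eval ![t, 1] *
        (Val_hom (P i) d).eval ![t, 1] = t ^ N
      have h2 := congrArg (Polynomial.eval t) h0
      rw [Polynomial.eval_finsetSum, Polynomial.eval_pow, Polynomial.eval_X] at h2
      rw [← h2]
      refine Finset.sum_congr rfl fun i _ => ?_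
      rw [Val_eval (hA i), Val_eval (hP i), Polynomial.eval_mul]
    · show ∑ i : Fin n, (Val_hom (u i) (N - d)).eval ![t, 1] *
        (Val_hom (P i) d).eval ![t, 1] = (1 : K) ^ N
      have h2 := congrArg (Polynomial.eval t) h1
      rw [Polynomial.eval_finsetSum, Polynomial.eval_one] at h2
      rw [one_pow]
      refine Eq.trans (Finset.sum_congr rfl fun i _ => ?_) h2
      rw [Val_eval (hu i), Val_eval (hP i), Polynomial.eval_mul]
  have h := hC (fun i => Val_hom (P i) d) hrel
  have hfun : (fun i => ((fun i => Val_hom (P i) d : Fin n → MvPolynomial (Fin 2) K) i).eval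
      ![t, 1]) = fun i => (P i).eval t := by
    funext i
    exact Val_eval (hP i) t
  rw [hfun, ← Height.logHeight₁_eq_logHeight] at h
  have h3 := Height.zero_le_logHeight₁ t
  have h4 : (1 : ℝ) ≤ d := by exact_mod_cast hd
  have h5 := neg_abs_le C0
  nlinarith

theorem valN : ValNS := by
  intro K _ _ n P hu0 hd
  obtain ⟨i0, hi0⟩ := hd
  have hne : (univ : Finset (Fin n)).Nonempty := ⟨i0, mem_univ _⟩
  obtain ⟨j, _, hj⟩ := Finset.exists_max_image univ (fun i => (P i).natDegree) hne
  have hle : ∀ i, (P i).natDegree ≤ (P j).natDegree := fun i => hj i (mem_univ i)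
  have hd1 : 1 ≤ (P j).natDegree := hi0.trans (hle i0)
  obtain ⟨u, hu⟩ := hu0
  obtain ⟨N, hN1, hN2⟩ : ∃ N : ℕ, 2 * (P j).natDegree ≤ N ∧
      ∀ i, (u i).natDegree ≤ N - (P j).natDegree := by
    refine ⟨2 * (P j).natDegree + ∑ i, (u i).natDegree, by omega, fun i => ?_⟩
    have : (u i).natDegree ≤ ∑ i, (u i).natDegree :=
      Finset.single_le_sum (f := fun i => (u i).natDegree) (fun i _ => Nat.zero_le _) (mem_univ i)
    omega
  obtain ⟨A, h0, hA⟩ := ValN_rel ⟨u, hu⟩ hd1 j rfl hle hN1
  exact ValN_main hd1 hle (by omega) h0 hu hA hN2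

end Pool.Agent.TH876.TM
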