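import Mathlib
import Pool.Agent.TH876.TM.Def3
import Pool.Agent.TH876.TM.Pairs

set_option autoImplicit false

/-!
# Integral tuples on a rational curve with a small radical
-/

namespace Pool.Agent.TH876.TM

open NumberField IsDedekindDomain Finset Polynomial Pool.Agent.H691R3 Pool.Agent.TH876.Loc

theorem Tuples_eq_one (v : Pr ℚ) (x : ℚ) (h : fv v x = 1) : v.valuation ℚ x = 1 := by
  have hval : fv v x = ((WithZeroMulInt.toNNReal (NumberField.HeightOneSpectrum.absNorm_ne_zero v)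
      (v.valuation ℚ x) : NNReal) : ℝ) := NumberField.FinitePlace.norm_embedding' (v := v) (x := x)
  refine le_antisymm ?_ (not_lt.1 fun h' => ?_)
  · refine (WithZeroMulInt.toNNReal_le_one_iff
      (NumberField.HeightOneSpectrum.one_lt_absNorm_nnreal v)).1 ?_
    rw [← NNReal.coe_le_one, ← hval, h]
  · have h2 := (WithZeroMulInt.toNNReal_lt_one_iff
      (NumberField.HeightOneSpectrum.one_lt_absNorm_nnreal v)).2 h'
    rw [← NNReal.coe_lt_one, ← hval, h] at h2
    exact lt_irrefl _ h2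

theorem Tuples_supp_smul {n : ℕ} {w z : Fin n → ℚ} {r : ℚ} (hr : r ≠ 0)
    (h : ∀ i, z i = r * w i) {v : HeightOneSpectrum (𝓞 ℚ)} (hv : v ∈ supp w) : v ∈ supp z := by
  obtain ⟨i, j, hij⟩ := hv
  refine ⟨i, j, fun h' => hij ?_⟩
  rw [h, h, map_mul, map_mul] at h'
  exact mul_left_cancel₀ ((Valuation.ne_zero_iff _).2 hr) h'

theorem Tuples_mem {n : ℕ} {z : Fin n → ℤ} (hz : ∀ i, z i ≠ 0) {v : Pr ℚ}
    (hv : v ∈ supp (fun i => (z i : ℚ))) : pv v ∈ (∏ i, z i).natAbs.primeFactors := by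
  have hN : ∏ i, z i ≠ 0 := Finset.prod_ne_zero_iff.2 fun i _ => hz i
  rw [Nat.mem_primeFactors]
  refine ⟨pv_prime v, ?_, Int.natAbs_ne_zero.2 hN⟩
  by_contra hd
  obtain ⟨i, j, hij⟩ := hv
  have h1 : ∀ k, v.valuation ℚ ((z k : ℤ) : ℚ) = 1 := by
    intro k
    refine Tuples_eq_one v _ (Pairs_eq_one v _ fun h2 => hd ?_)
    exact h2.trans (Int.natAbs_dvd_natAbs.2 (Finset.dvd_prod_of_mem z (Finset.mem_univ k)))
  exact hij ((h1 i).trans (h1 j).symm)

theorem Tuples_rad {n : ℕ} {z : Fin n → ℤ} {w : Fin n → ℚ}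
    (hw : ∀ v ∈ supp w, pv v ∈ (∏ i, z i).natAbs.primeFactors) :
    Real.exp (∑ᶠ v ∈ supp w, Real.log (Ideal.absNorm v.asIdeal : ℝ)) ≤
      ((∏ p ∈ (∏ i, z i).natAbs.primeFactors, p : ℕ) : ℝ) := by
  classical
  have hfin : (supp w).Finite := by
    have h1 := ((∏ i, z i).natAbs.primeFactors.finite_toSet).preimage
      (f := fun v : Pr ℚ => pv v) (fun v _ v' _ hvv => Pairs_inj hvv)
    exact h1.subset fun v hv => hw v hv
  rw [finsum_mem_eq_finite_toFinset_sum _ hfin, Real.exp_sum]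
  have hT : ∀ v ∈ hfin.toFinset, pv v ∈ (∏ i, z i).natAbs.primeFactors := fun v hv =>
    hw v ((Set.Finite.mem_toFinset hfin).1 hv)
  calc ∏ v ∈ hfin.toFinset, Real.exp (Real.log (Ideal.absNorm v.asIdeal : ℝ)) =
        ∏ v ∈ hfin.toFinset, Nv v :=
        Finset.prod_congr rfl fun v _ => Real.exp_log (Nv_pos v)
    _ ≤ ∏ v ∈ hfin.toFinset, (pv v : ℝ) :=
        Finset.prod_le_prod (fun v _ => (Nv_pos v).le) fun v _ => Pairs_norm v
    _ = ((∏ r ∈ hfin.toFinset.image pv, r : ℕ) : ℝ) := by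
        rw [Finset.prod_image (fun v _ v' _ hvv => Pairs_inj hvv)]
        push_cast
        rfl
    _ ≤ ((∏ r ∈ (∏ i, z i).natAbs.primeFactors, r : ℕ) : ℝ) := by
        have : ∏ r ∈ hfin.toFinset.image pv, r ≤ ∏ r ∈ (∏ i, z i).natAbs.primeFactors, r := by
          refine Finset.prod_le_prod_of_subset_of_one_le' ?_ ?_
          · intro r hr'
            obtain ⟨v, hv, rfl⟩ := Finset.mem_image.1 hr'
            exact hT v hv
          · intro r hr' _
            exact (Nat.prime_of_mem_primeFactors hr').one_le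
        exact_mod_cast this

theorem Tuples_height {n : ℕ} {z : Fin n → ℤ} {B : ℝ} (i0 : Fin n) (hz : ∀ i, z i ≠ 0)
    (hp : ∀ d : ℤ, (∀ i, d ∣ z i) → IsUnit d) (hB : ∀ i, |(z i : ℝ)| ≤ B) :
    Height.logHeight (fun i => (z i : ℚ)) ≤ Real.log B := by
  have : Nonempty (Fin n) := ⟨i0⟩
  have hg : Finset.univ.gcd z = 1 := by
    have h1 : IsUnit (Finset.univ.gcd z) := hp _ fun i => Finset.gcd_dvd (Finset.mem_univ i)
    rw [← Finset.normalize_gcd]
    exact normalize_eq_one.2 h1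
  have h2 := Rat.logHeight_eq_max_abs_of_gcd_eq_one hg
  have h3 : (((↑) : ℤ → ℚ) ∘ z) = fun i => (z i : ℚ) := rfl
  rw [h3] at h2
  rw [h2]
  obtain ⟨i, hi⟩ := exists_eq_ciSup_of_finite (f := fun i => |z i|)
  rw [← hi]
  have h4 : ((|z i| : ℤ) : ℝ) = |(z i : ℝ)| := Int.cast_abs
  rw [h4]
  exact Real.log_le_log (abs_pos.2 (by exact_mod_cast hz i)) (hB i)

theorem Tuples_prim {n : ℕ} {z z0 : Fin n → ℤ} (hp : ∀ d : ℤ, (∀ i, d ∣ z i) → IsUnit d)
    (hp0 : ∀ d : ℤ, (∀ i, d ∣ z0 i) → IsUnit d) {q : ℚ} (hq : ∀ i, (z i : ℚ) = q * z0 i) :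
    z = z0 ∨ z = -z0 := by
  have h1 : ∀ i, z i * (q.den : ℤ) = q.num * z0 i := by
    intro i
    have h2 : ((z i * (q.den : ℤ) : ℤ) : ℚ) = ((q.num * z0 i : ℤ) : ℚ) := by
      push_cast
      rw [hq i]
      have h3 : q * q.den = q.num := Rat.mul_den_eq_num q
      linear_combination (z0 i : ℚ) * h3
    exact_mod_cast h2
  have h2 : IsUnit (q.den : ℤ) := by
    refine hp0 _ fun i => ?_
    have h3 : (q.den : ℤ) ∣ q.num * z0 i := ⟨z i, by rw [← h1 i, mul_comm]⟩
    exact (Rat.isCoprime_num_den q).symm.dvd_of_dvd_mul_left h3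
  have h3 : (q.den : ℤ) = 1 := by
    rcases Int.isUnit_iff.1 h2 with h | h
    · exact h
    · have := q.den_pos
      omega
  have h4 : ∀ i, z i = q.num * z0 i := by
    intro i
    have := h1 i
    rwa [h3, mul_one] at this
  have h5 : IsUnit q.num := hp _ fun i => ⟨z0 i, h4 i⟩
  rcases Int.isUnit_iff.1 h5 with h | h
  · left
    funext i
    rw [h4 i, h, one_mul]
  · right
    funext i
    rw [h4 i, h]
    simp

theorem tuples (h : CurveS) : TuplesS := by
  classical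
  intro n P hP hu hζ M c δ hM hc hδ
  obtain ⟨C₀, hC₀⟩ := h ℚ n P hP hu hζ (M * δ / 2) (by positivity)
  obtain ⟨Z, hZ⟩ : ∃ Z : ℝ, Z = (zeros P : ℝ) := ⟨_, rfl⟩
  have hZ3 : 3 ≤ Z := by rw [hZ]; exact_mod_cast hζ
  rw [← hZ] at hC₀ ⊢
  obtain ⟨e, he⟩ : ∃ e : ℝ, e = 2 / Z + M * δ / 2 := ⟨_, rfl⟩
  have he0 : 0 < e := by rw [he]; positivity
  rw [← he] at hC₀
  obtain ⟨c', hc'⟩ : ∃ c' : ℝ, c' = max 1 c⁻¹ := ⟨_, rfl⟩
  have hc'1 : 1 ≤ c' := by rw [hc']; exact le_max_left _ _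
  have hc'2 : c⁻¹ ≤ c' := by rw [hc']; exact le_max_right _ _
  refine ⟨2 * |C₀| * c' ^ (e / M) * (2 + 2 / δ), fun y B hy hB => ?_⟩
  have hB0 : 0 < B := by linarith
  obtain ⟨X, hX⟩ : ∃ X : ℝ, X = max 1 ((B / c) ^ (1 / M)) := ⟨_, rfl⟩
  obtain ⟨H, hH⟩ : ∃ H : ℝ, H = max 1 (Real.log B) := ⟨_, rfl⟩
  have hX1 : 1 ≤ X := by rw [hX]; exact le_max_left _ _
  have hH1 : 1 ≤ H := by rw [hH]; exact le_max_left _ _
  obtain ⟨hfin, hcard⟩ := hC₀ X y H hX1 hy hH1
  have hmem : ∀ z ∈ Tuples P M c y B, ∃ t r : ℚ, (∀ i, (z i : ℚ) = r * (P i).eval t) ∧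
      t ∈ Curve ℚ P X y H := by
    rintro z ⟨hz, hp, ⟨t, r, ht⟩, hzB, hpr, i0, hi0⟩
    refine ⟨t, r, ht, ?_⟩
    have hr : r ≠ 0 := by
      rintro rfl
      have h1 := ht i0
      rw [zero_mul] at h1
      exact hz i0 (by exact_mod_cast h1)
    have hne : ∀ i, (P i).eval t ≠ 0 := by
      intro i hi
      have h1 := ht i
      rw [hi, mul_zero] at h1
      exact hz i (by exact_mod_cast h1)
    have hsup : ∀ v ∈ supp (fun i => (P i).eval t), pv v ∈ (∏ i, z i).natAbs.primeFactors :=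
      fun v hv => Tuples_mem hz (Tuples_supp_smul hr ht hv)
    obtain ⟨R, hR⟩ : ∃ R : ℝ, R = ((∏ p ∈ (∏ i, z i).natAbs.primeFactors, p : ℕ) : ℝ) := ⟨_, rfl⟩
    have hR0 : 0 < R := by
      rw [hR]
      have : 0 < ∏ p ∈ (∏ i, z i).natAbs.primeFactors, p :=
        Finset.prod_pos fun p hp => (Nat.prime_of_mem_primeFactors hp).pos
      exact_mod_cast this
    refine ⟨hne, ?_, ?_, ?_⟩
    · refine (Tuples_rad hsup).trans ?_
      rw [← hR] at hi0 ⊢
      have h1 : R ^ M ≤ B / c := by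
        rw [le_div_iff₀ hc, mul_comm]
        exact (hi0.trans_le (hzB i0)).le
      have h2 : R = (R ^ M) ^ (1 / M) := by
        rw [← Real.rpow_mul hR0.le, mul_one_div_cancel hM.ne', Real.rpow_one]
      rw [h2, hX]
      refine le_max_of_le_right ?_
      exact Real.rpow_le_rpow (Real.rpow_nonneg hR0.le _) h1 (by positivity)
    · intro v hv
      exact (Pairs_norm v).trans (hpr _ (hsup v hv))
    · have h1 := Tuples_height i0 hz hp hzB
      have h2 : (fun i => (z i : ℚ)) = r • (fun i => (P i).eval t) := by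
        funext i
        rw [ht i, Pi.smul_apply, smul_eq_mul]
      rw [h2, Height.logHeight_smul_eq_logHeight _ hr] at h1
      rw [hH]
      exact le_max_of_le_right h1
  choose! τ ρ hτ using hmem
  have hsub : ∀ F : Finset (Fin n → ℤ), (∀ z ∈ F, z ∈ Tuples P M c y B) →
      (F.card : ℝ) ≤ 2 * ((Curve ℚ P X y H).ncard : ℝ) := by
    intro F hF
    have h1 : F.card ≤ 2 * (F.image τ).card := by
      refine Finset.card_le_mul_card_image F 2 fun a ha => ?_
      obtain ⟨z0, hz0, rfl⟩ := Finset.mem_image.1 ha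
      have h2 : (F.filter (fun z => τ z = τ z0)) ⊆ {z0, -z0} := by
        intro z hz
        obtain ⟨hzF, hzt⟩ := Finset.mem_filter.1 hz
        have h3 := (hτ z (hF z hzF)).1
        have h4 := (hτ z0 (hF z0 hz0)).1
        obtain ⟨hz', hp, -, -, -, i0, -⟩ := hF z hzF
        obtain ⟨hz0', hp0, -, -, -, i1, -⟩ := hF z0 hz0
        have hρ0 : ρ z0 ≠ 0 := by
          intro h5
          have h6 := h4 i1
          rw [h5, zero_mul] at h6
          exact hz0' i1 (by exact_mod_cast h6)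
        have h5 : ∀ i, (z i : ℚ) = (ρ z / ρ z0) * z0 i := by
          intro i
          rw [h3 i, h4 i, hzt]
          field_simp
        rcases Tuples_prim hp hp0 h5 with h6 | h6
        · rw [h6]; exact Finset.mem_insert_self _ _
        · rw [h6]; exact Finset.mem_insert_of_mem (Finset.mem_singleton_self _)
      refine (Finset.card_le_card h2).trans ?_
      exact Finset.card_le_two
    have h2 : (F.image τ).card ≤ (Curve ℚ P X y H).ncard := by
      rw [← Set.ncard_coe_finset]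
      refine Set.ncard_le_ncard ?_ hfin
      intro t ht
      obtain ⟨z, hz, rfl⟩ := Finset.mem_image.1 (Finset.mem_coe.1 ht)
      exact (hτ z (hF z hz)).2
    have h3 : F.card ≤ 2 * (Curve ℚ P X y H).ncard := h1.trans (Nat.mul_le_mul_left 2 h2)
    exact_mod_cast h3
  have hF : (Tuples P M c y B).Finite := by
    by_contra hinf
    obtain ⟨k, hk⟩ := exists_nat_gt (2 * ((Curve ℚ P X y H).ncard : ℝ))
    obtain ⟨F, hFs, hFc⟩ := Set.Infinite.exists_subset_card_eq (s := Tuples P M c y B) hinf k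
    have h1 := hsub F fun p hp => hFs hp
    rw [hFc] at h1
    linarith
  refine ⟨hF, ?_⟩
  have h1 : ((Tuples P M c y B).ncard : ℝ) ≤ 2 * ((Curve ℚ P X y H).ncard : ℝ) := by
    rw [Set.ncard_eq_toFinset_card _ hF]
    exact hsub _ fun p hp => (Set.Finite.mem_toFinset hF).1 hp
  -- the numbers
  have hL0 : 0 ≤ Real.log B := Real.log_nonneg hB
  have hlogH0 : 0 ≤ Real.log H := Real.log_nonneg hH1
  have hBd1 : 1 ≤ B ^ (δ / 2) := Real.one_le_rpow hB (by positivity)
  have h2 : 1 + Real.log H ≤ (2 + 2 / δ) * B ^ (δ / 2) := by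
    have a1 : Real.log H ≤ H := Real.log_le_self (by linarith)
    have a1' : Real.log H ≤ H - 1 := Real.log_le_sub_one_of_pos (by linarith)
    have a2 : H ≤ 1 + Real.log B := by
      rw [hH]
      exact max_le (by linarith) (by linarith)
    have a3 : Real.log B ≤ B ^ (δ / 2) / (δ / 2) := Real.log_le_rpow_div hB0.le (by positivity)
    have a4 : B ^ (δ / 2) / (δ / 2) = 2 / δ * B ^ (δ / 2) := by
      field_simp
    rw [a4] at a3
    have a5 : (2 + 2 / δ) * B ^ (δ / 2) = 2 * B ^ (δ / 2) + 2 / δ * B ^ (δ / 2) := by ring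
    rw [a5]
    linarith
  have hXle : X ≤ (c' * B) ^ (1 / M) := by
    have a1 : 1 ≤ c' * B := by nlinarith
    rw [hX]
    refine max_le (Real.one_le_rpow a1 (by positivity)) ?_
    refine Real.rpow_le_rpow (by positivity) ?_ (by positivity)
    rw [div_eq_mul_inv, mul_comm]
    exact mul_le_mul_of_nonneg_right hc'2 hB0.le
  have h3 : X ^ e ≤ c' ^ (e / M) * B ^ (e / M) := by
    calc X ^ e ≤ ((c' * B) ^ (1 / M)) ^ e := Real.rpow_le_rpow (by linarith) hXle he0.le
      _ = (c' * B) ^ (e / M) := by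
        rw [← Real.rpow_mul (by positivity)]
        congr 1
        ring
      _ = _ := Real.mul_rpow (by linarith) hB0.le
  have h4 : B ^ (e / M) * B ^ (δ / 2) = B ^ (2 / (Z * M) + δ) := by
    rw [← Real.rpow_add hB0]
    congr 1
    rw [he]
    field_simp
    ring
  have hy0 : 0 ≤ y := by linarith
  have h5 : C₀ * y * X ^ e * (1 + Real.log H) ≤ |C₀| * y * X ^ e * (1 + Real.log H) := by
    have a1 : 0 ≤ y * X ^ e * (1 + Real.log H) := by positivity
    have a2 := mul_le_mul_of_nonneg_right (le_abs_self C₀) a1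
    calc C₀ * y * X ^ e * (1 + Real.log H) = C₀ * (y * X ^ e * (1 + Real.log H)) := by ring
      _ ≤ |C₀| * (y * X ^ e * (1 + Real.log H)) := a2
      _ = _ := by ring
  have h6 : |C₀| * y * X ^ e * (1 + Real.log H) ≤
      |C₀| * y * (c' ^ (e / M) * B ^ (e / M)) * ((2 + 2 / δ) * B ^ (δ / 2)) := by
    have a0 : 0 ≤ |C₀| * y := by positivity
    exact mul_le_mul (mul_le_mul_of_nonneg_left h3 a0) h2 (by linarith) (by positivity)
  calc ((Tuples P M c y B).ncard : ℝ) ≤ 2 * ((Curve ℚ P X y H).ncard : ℝ) := h1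
    _ ≤ 2 * (|C₀| * y * (c' ^ (e / M) * B ^ (e / M)) * ((2 + 2 / δ) * B ^ (δ / 2))) := by
      linarith
    _ = 2 * |C₀| * c' ^ (e / M) * (2 + 2 / δ) * y * (B ^ (e / M) * B ^ (δ / 2)) := by ring
    _ = _ := by rw [h4]

end Pool.Agent.TH876.TM
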